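import Mathlib

/-! Arithmetic of the edge set. -/

set_option autoImplicit false

namespace Pool.Agent.H337Z

def EN (N : ℤ) (a b c : ℚ) : Prop :=
  ∃ (m : ℕ) (d : ℤ), IsCoprime d (8 * N + 3) ∧ 2 ^ m * a = d ∧ b = N * a ∧ c = N ^ 2 * a

theorem not_unit (N : ℤ) : ¬ IsUnit (8 * N + 3) := by
  rw [Int.isUnit_iff]; omega

theorem cop_two (N : ℤ) : IsCoprime (2 : ℤ) (8 * N + 3) := ⟨-(4 * N + 1), 1, by ring⟩

theorem EN.ne {N : ℤ} {a b c : ℚ} (h : EN N a b c) : a ≠ 0 := by
  obtain ⟨m, d, h1, h2, -⟩ := h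
  rintro rfl
  have : d = 0 := by exact_mod_cast (by simpa using h2.symm : (d : ℚ) = 0)
  rw [this, isCoprime_zero_left] at h1
  exact not_unit N h1

theorem EN.neg {N : ℤ} {a b c : ℚ} (h : EN N a b c) : EN N (-a) (-b) (-c) := by
  obtain ⟨m, d, h1, h2, h3, h4⟩ := h
  exact ⟨m, -d, h1.neg_left, by push_cast; linarith, by linarith, by linarith⟩

theorem EN.two {N : ℤ} {a b c : ℚ} : EN N a b c ↔ EN N (2 * a) (2 * b) (2 * c) := by
  constructor
  · rintro ⟨m, d, h1, h2, h3, h4⟩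
    exact ⟨m, 2 * d, (cop_two N).mul_left h1, by push_cast; linarith, by linarith, by linarith⟩
  · rintro ⟨m, d, h1, h2, h3, h4⟩
    exact ⟨m + 1, d, h1, by rw [pow_succ]; linarith, by linarith, by linarith⟩

theorem EN.tri {N1 N2 N3 : ℤ} {a1 b1 c1 a2 b2 c2 a3 b3 c3 : ℚ} (h1 : EN N1 a1 b1 c1)
    (h2 : EN N2 a2 b2 c2) (h3 : EN N3 a3 b3 c3) (ea : a3 = a1 + a2) (eb : b3 = b1 + b2)
    (ec : c3 = c1 + c2) : N1 = N2 ∧ N1 = N3 := by
  have n1 := h1.ne
  have n2 := h2.ne
  have n3 := h3.ne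
  obtain ⟨-, -, -, -, rfl, rfl⟩ := h1
  obtain ⟨-, -, -, -, rfl, rfl⟩ := h2
  obtain ⟨-, -, -, -, rfl, rfl⟩ := h3
  have k : a1 * a2 * ((N1 : ℚ) - N2) ^ 2 = 0 := by
    have : a1 * a2 * ((N1 : ℚ) - N2) ^ 2 =
        (a1 + a2) * (N1 ^ 2 * a1 + N2 ^ 2 * a2) - (N1 * a1 + N2 * a2) ^ 2 := by ring
    rw [this, ← ea, ← eb, ← ec]; ring
  have k1 : (N1 : ℚ) = N2 := by
    simp only [mul_eq_zero, n1, n2, false_or, pow_eq_zero_iff two_ne_zero] at k
    linarith
  have k2 : (N1 : ℚ) = N3 := by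
    rw [← k1, ← mul_add, ← ea] at eb
    exact (mul_right_cancel₀ n3 eb).symm
  exact ⟨by exact_mod_cast k1, by exact_mod_cast k2⟩

theorem arith {α : Type*} (Y : Finset α) (a b c : α → ℚ) {x y : α} (hx : x ∈ Y) (hy : y ∈ Y) {N : ℤ}
    (hxy : EN N (a y - a x) (b y - b x) (c y - c x))
    (h : ∀ p ∈ Y, ∀ q ∈ Y, p ≠ q → ∃ N', EN N' (a q - a p) (b q - b p) (c q - c p)) :
    Y.card ≤ (8 * N + 3).natAbs := by
  have h1 : ∀ p ∈ Y, p ≠ x → EN N (a p - a x) (b p - b x) (c p - c x) := by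
    intro p hp hne
    by_cases e : p = y
    · rw [e]; exact hxy
    · obtain ⟨N2, k2⟩ := h y hy p hp (Ne.symm e)
      obtain ⟨N3, k3⟩ := h x hx p hp (Ne.symm hne)
      rw [(hxy.tri k2 k3 (by ring) (by ring) (by ring)).2]; exact k3
  have h2 : ∀ p ∈ Y, ∀ q ∈ Y, p ≠ q → EN N (a q - a p) (b q - b p) (c q - c p) := by
    intro p hp q hq hne
    by_cases e : p = x
    · rw [e]; exact h1 q hq (e ▸ hne.symm)
    by_cases e' : q = x
    · rw [e']
      have := (h1 p hp e).neg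
      simpa using this
    obtain ⟨N2, k2⟩ := h p hp q hq hne
    rw [((h1 p hp e).tri k2 (h1 q hq e') (by ring) (by ring) (by ring)).1]; exact k2
  have h3 : ∀ p ∈ Y, ∀ᶠ K : ℕ in Filter.atTop, ∃ z : ℤ, 2 ^ K * (a p - a x) = z := by
    intro p hp
    by_cases e : p = x
    · exact Filter.Eventually.of_forall (fun K => ⟨0, by simp [e]⟩)
    · obtain ⟨m, d, -, k, -⟩ := h1 p hp e
      refine (Filter.eventually_ge_atTop m).mono (fun K hK => ?_)
      obtain ⟨j, rfl⟩ := Nat.exists_eq_add_of_le hK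
      exact ⟨2 ^ j * d, by push_cast; rw [← k]; ring⟩
  obtain ⟨K, hK⟩ := ((Filter.eventually_all_finset Y).2 h3).exists
  choose! z hz using hK
  have hM : (8 * N + 3).natAbs ≠ 0 := by omega
  have : NeZero (8 * N + 3).natAbs := ⟨hM⟩
  have := Finset.card_le_card_of_injOn (s := Y) (t := (Finset.univ : Finset (ZMod (8 * N + 3).natAbs)))
    (fun p => (z p : ZMod (8 * N + 3).natAbs)) (fun _ _ => Finset.mem_univ _) (by
      intro p hp q hq e
      by_contra hne
      obtain ⟨m, d, k1, k2, -⟩ := h2 p hp q hq hne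
      have e1 := (ZMod.intCast_eq_intCast_iff_dvd_sub _ _ _).1 e
      rw [Int.natCast_natAbs, abs_dvd] at e1
      have e2 : (2 : ℤ) ^ m * (z q - z p) = 2 ^ K * d := by
        have : (2 : ℚ) ^ m * (z q - z p) = 2 ^ K * d := by
          rw [← hz p hp, ← hz q hq, ← k2]; ring
        exact_mod_cast this
      have e3 : 8 * N + 3 ∣ 2 ^ K * d := e2 ▸ e1.mul_left _
      have e4 : IsCoprime (2 ^ K * d) (8 * N + 3) := ((cop_two N).pow_left).mul_left k1
      exact not_unit N (e4.isUnit_of_dvd' e3 dvd_rfl))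
  simpa [ZMod.card] using this

/-- the orbit of `(1,0)` under the two elementary moves contains all coprime pairs -/
theorem sl2_ind (P : ℤ → ℤ → Prop) (h0 : P 1 0) (hA : ∀ a b, P a b ↔ P a (b + a))
    (hB : ∀ a b, P a b ↔ P (a + b) b) : ∀ a b, IsCoprime a b → P a b := by
  have hA' : ∀ (k : ℤ) a b, P a b ↔ P a (b + a * k) := by
    intro k
    induction k using Int.induction_on with
    | zero => simp
    | succ k ih => intro a b; rw [ih, hA]; congr! 1; ring
    | pred k ih => intro a b; rw [ih, hA a (b + a * (-(k : ℤ) - 1))]; congr! 1; ring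
  have rot : ∀ a b, P a b ↔ P b (-a) := by
    intro a b
    rw [hB, hA' (-1), hB]
    congr! 1 <;> ring
  have key : ∀ n : ℕ, ∀ a b, a.natAbs = n → IsCoprime a b → P a b := by
    intro n
    induction n using Nat.strong_induction_on with
    | _ n ih =>
    intro a b hn hc
    by_cases ha : a = 0
    · subst ha
      rw [isCoprime_zero_left, Int.isUnit_iff] at hc
      rcases hc with rfl | rfl
      · rw [rot]; simpa using h0
      · rw [rot, rot, rot]; simpa using h0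
    · have e : b % a = b + a * (-(b / a)) := by rw [Int.emod_def]; ring
      rw [hA' (-(b / a)), ← e, rot]
      refine ih _ ?_ _ _ rfl ?_
      · rw [← hn]
        have h1 := Int.emod_nonneg b ha
        have h2 := Int.emod_lt_abs b ha
        rw [Int.abs_eq_natAbs] at h2
        omega
      · rw [e]
        exact (hc.add_mul_left_right _).symm.neg_right
  exact fun a b => key _ a b rfl

end Pool.Agent.H337Z
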