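import Pool.Agent.H337Z.Raag

/-! The semidirect product of a right-angled Artin group with a product of two free groups. -/

set_option autoImplicit false
open Classical FreeGroup SemidirectProduct

namespace Pool.Agent.H337Z

theorem not_rd {G : Type*} [Group G] {n : ℕ} (mk : FreeGroup (Fin n) →* G)
    (hmk : Function.Surjective mk)
    (hZ : ∀ k : ℕ, ∃ ι : Multiplicative (Fin k → ℤ) →* G, Function.Injective ι) :
    ¬ ∃ C k : ℕ, ∀ r : ℕ, ∀ f g : G →₀ ℂ,
      (∀ y ∈ f.support, ∃ w : FreeGroup (Fin n), w.toWord.length ≤ r ∧ mk w = y) →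
      ∑' x : G, ‖∑ y ∈ f.support, f y * g (y⁻¹ * x)‖ ^ 2
        ≤ (C : ℝ) * ((1 : ℝ) + (r : ℝ)) ^ k
          * (∑ y ∈ f.support, ‖f y‖ ^ 2) * (∑ y ∈ g.support, ‖g y‖ ^ 2) := by
  rintro ⟨C, k, H⟩
  obtain ⟨ι, hι⟩ := hZ (k + 1)
  let B : G → ℕ → Prop := fun g r => ∃ w : FreeGroup (Fin n), w.toWord.length ≤ r ∧ mk w = g
  have Bmul : ∀ g g' r r', B g r → B g' r' → B (g * g') (r + r') := by
    rintro _ _ r r' ⟨w, h1, rfl⟩ ⟨w', h2, rfl⟩
    exact ⟨w * w', le_trans (norm_mul_le w w') (add_le_add h1 h2), _root_.map_mul _ _ _⟩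
  have Bmono : ∀ g r r', B g r → r ≤ r' → B g r' := by
    rintro _ r r' ⟨w, h1, rfl⟩ h
    exact ⟨w, h1.trans h, rfl⟩
  have Bone : B 1 0 := ⟨1, by simp, _root_.map_one _⟩
  have Bpow : ∀ g r (j : ℕ), B g r → B (g ^ j) (j * r) := by
    intro g r j h
    induction j with
    | zero => simpa using Bone
    | succ j ih => rw [pow_succ, Nat.succ_mul]; exact Bmul _ _ _ _ ih h
  let J : (Fin (k + 1) → ℤ) → G := fun z => ι (Multiplicative.ofAdd z)
  have hJ : Function.Injective J := fun a b h => Multiplicative.ofAdd.injective (hι h)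
  have hJs : ∀ y z, (J y)⁻¹ * J z = J (z - y) := by
    intro y z
    simp only [J]
    rw [← _root_.map_inv, ← _root_.map_mul, ← ofAdd_neg, ← ofAdd_add]
    congr 2; abel
  have h0 : ∀ i, ∃ r, B (J (Pi.single i 1)) r := fun i => by
    obtain ⟨w, hw⟩ := hmk (J (Pi.single i 1))
    exact ⟨_, w, le_rfl, hw⟩
  choose ρ0 hρ0 using h0
  let ρ := Finset.univ.sup ρ0
  have hρ : ∀ i, B (J (Pi.single i 1)) ρ := fun i =>
    Bmono _ _ _ (hρ0 i) (Finset.le_sup (Finset.mem_univ i))
  let box : ℤ → ℤ → Finset (Fin (k + 1) → ℤ) := fun a b =>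
    Fintype.piFinset (fun _ => Finset.Ico a b)
  have cbox : ∀ a b : ℤ, (box a b).card = (b - a).toNat ^ (k + 1) := by
    intro a b; simp [box]
  let m : ℕ := C * 2 ^ (k + 1) * (1 + (k + 1) * ρ) ^ k + 1
  have hB : ∀ z ∈ box 0 m, B (J z) ((k + 1) * (m * ρ)) := by
    intro z hz
    simp only [box, Fintype.mem_piFinset, Finset.mem_Ico] at hz
    have key : ∀ s : Finset (Fin (k + 1)),
        B (J (∑ i ∈ s, (z i).toNat • (Pi.single i 1 : Fin (k + 1) → ℤ))) (s.card * (m * ρ)) := by
      intro s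
      induction s using Finset.induction_on with
      | empty => simpa [J] using Bone
      | insert i s hi ih =>
        rw [Finset.sum_insert hi, Finset.card_insert_of_notMem hi, add_comm s.card, add_mul, one_mul]
        simp only [J, ofAdd_add, _root_.map_mul, ofAdd_nsmul, map_pow]
        refine Bmul _ _ _ _ (Bmono _ _ _ (Bpow _ _ _ (hρ i)) (Nat.mul_le_mul_right _ ?_)) ih
        have := hz i
        omega
    have := key Finset.univ
    rw [Finset.card_univ, Fintype.card_fin] at this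
    convert this using 2
    funext j
    rw [Finset.sum_apply]
    simp only [Pi.smul_apply, Pi.single_apply, smul_ite, smul_zero, Finset.sum_ite_eq,
      Finset.mem_univ, if_true, nsmul_eq_mul, mul_one]
    have := hz j
    omega
  let ind : Finset G → (G →₀ ℂ) := fun S =>
    Finsupp.onFinset S (fun g => if g ∈ S then 1 else 0) (fun g hg => by
      by_contra h; exact hg (if_neg h))
  have indapp : ∀ S g, ind S g = if g ∈ S then 1 else 0 := fun _ _ => rfl
  have indsupp : ∀ S, (ind S).support = S := by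
    intro S; ext g
    rw [Finsupp.mem_support_iff, indapp]
    by_cases h : g ∈ S <;> simp [h]
  have indnorm : ∀ S, ∑ y ∈ S, ‖ind S y‖ ^ 2 = (S.card : ℝ) := by
    intro S
    rw [Finset.sum_congr rfl (g := fun _ => (1 : ℝ)) (fun y hy => by simp [indapp, hy])]
    simp
  let S := (box 0 m).image J
  let X := (box 0 (2 * m)).image J
  let Z := (box m (2 * m)).image J
  have cS : S.card = m ^ (k + 1) := by
    rw [Finset.card_image_of_injective _ hJ, cbox]; simp
  have cX : X.card = (2 * m) ^ (k + 1) := by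
    rw [Finset.card_image_of_injective _ hJ, cbox]
    congr 1
  have cZ : Z.card = m ^ (k + 1) := by
    rw [Finset.card_image_of_injective _ hJ, cbox]
    congr 1; omega
  have H1 := H ((k + 1) * (m * ρ)) (ind S) (ind X) (by
    rw [indsupp]
    intro y hy
    obtain ⟨z, hz, rfl⟩ := Finset.mem_image.1 hy
    exact hB z hz)
  rw [indsupp, indsupp, indnorm, indnorm, cS, cX] at H1
  have hsum : Summable (fun x : G => ‖∑ y ∈ S, ind S y * ind X (y⁻¹ * x)‖ ^ 2) := by
    refine summable_of_ne_finset_zero (s := Finset.image₂ (· * ·) S X) (fun x hx => ?_)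
    rw [Finset.sum_eq_zero]
    · simp
    · intro y hy
      rw [indapp X, if_neg, mul_zero]
      intro h
      exact hx (Finset.mem_image₂.2 ⟨y, hy, _, h, by group⟩)
  have H2 := hsum.sum_le_tsum Z (fun _ _ => by positivity)
  rw [Finset.sum_congr rfl (g := fun _ => ((m : ℝ) ^ (k + 1)) ^ 2) (by
    intro x hx
    obtain ⟨z, hz, rfl⟩ := Finset.mem_image.1 hx
    rw [Finset.sum_congr rfl (g := fun _ => (1 : ℂ)) (by
      intro y hy
      rw [indapp, if_pos hy, indapp, if_pos, one_mul]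
      obtain ⟨y', hy', rfl⟩ := Finset.mem_image.1 hy
      rw [hJs]
      refine Finset.mem_image_of_mem _ ?_
      simp only [box, Fintype.mem_piFinset, Finset.mem_Ico, Pi.sub_apply] at hz hy' ⊢
      intro i
      have := hz i
      have := hy' i
      omega)]
    simp [cS])] at H2
  rw [Finset.sum_const, cZ, nsmul_eq_mul] at H2
  have H3 := H2.trans H1
  have H4 : m ^ (k + 1) * (m ^ (k + 1)) ^ 2 ≤
      C * (1 + (k + 1) * (m * ρ)) ^ k * m ^ (k + 1) * (2 * m) ^ (k + 1) := by exact_mod_cast H3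
  have hm : 0 < m := Nat.succ_pos _
  have H5 : (1 + (k + 1) * (m * ρ)) ^ k ≤ (m * (1 + (k + 1) * ρ)) ^ k :=
    Nat.pow_le_pow_left (by nlinarith) _
  have H6 : m * (m ^ k * (m ^ (k + 1)) ^ 2) ≤
      (C * 2 ^ (k + 1) * (1 + (k + 1) * ρ) ^ k) * (m ^ k * (m ^ (k + 1)) ^ 2) := by
    calc _ = m ^ (k + 1) * (m ^ (k + 1)) ^ 2 := by ring
      _ ≤ _ := H4
      _ ≤ C * (m * (1 + (k + 1) * ρ)) ^ k * m ^ (k + 1) * (2 * m) ^ (k + 1) := by gcongr
      _ = _ := by rw [mul_pow, mul_pow]; ring
  have H7 := Nat.le_of_mul_le_mul_right H6 (by positivity)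
  omega

section
variable {V : Type*} {Adj : V → V → Prop}

theorem Len.mono {g : Raag Adj} {r r' : ℕ} (h : Len g r) (h' : r ≤ r') : Len g r' := by
  obtain ⟨w, h1, h2⟩ := h
  exact ⟨w, h1.trans h', h2⟩

theorem Len.mul {g g' : Raag Adj} {r r' : ℕ} (h : Len g r) (h' : Len g' r') :
    Len (g * g') (r + r') := by
  obtain ⟨w, h1, rfl⟩ := h
  obtain ⟨w', h2, rfl⟩ := h'
  exact ⟨w ++ w', by simp; omega, by rw [← mul_mk, _root_.map_mul]⟩

theorem Len.inv {g : Raag Adj} {r : ℕ} (h : Len g r) : Len g⁻¹ r := by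
  obtain ⟨w, h1, rfl⟩ := h
  exact ⟨invRev w, by simpa using h1, by rw [← inv_mk, _root_.map_inv]⟩

theorem Len.ex (g : Raag Adj) : ∃ r, Len g r := by
  obtain ⟨w, rfl⟩ := PresentedGroup.mk_surjective _ g
  exact ⟨_, w.toWord, le_rfl, by rw [mk_toWord]⟩

theorem Len.map {φ : Raag Adj →* Raag Adj} {σ : V → V} (hφ : ∀ v, φ (gen Adj v) = gen Adj (σ v))
    {g : Raag Adj} {r : ℕ} (h : Len g r) : Len (φ g) r := by
  obtain ⟨w, h1, rfl⟩ := h
  refine ⟨w.map (fun x => (σ x.1, x.2)), by simpa using h1, ?_⟩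
  rw [← map.mk]
  exact DFunLike.congr_fun (ext_hom ((PresentedGroup.mk _).comp (FreeGroup.map σ))
    (φ.comp (PresentedGroup.mk _)) (fun v => by
      simp only [MonoidHom.comp_apply, map.of]
      exact (hφ v).symm)) _

theorem raag_Z (hi : ∀ v, ¬ Adj v v) (k : ℕ) (q : Fin k → V)
    (hq : ∀ i j, i ≠ j → Adj (q i) (q j)) :
    ∃ ι : Multiplicative (Fin k → ℤ) →* Raag Adj, Function.Injective ι := by
  have hqi : Function.Injective q := fun i j e => by
    by_contra h
    have := hq i j h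
    rw [e] at this
    exact hi _ this
  let ι0 : (∀ _ : Fin k, Multiplicative ℤ) →* Raag Adj :=
    MonoidHom.noncommPiCoprod (fun i => zpowersHom _ (gen Adj (q i))) (by
      intro i j h x y
      exact (gen_comm (hq i j h)).zpow_zpow _ _)
  let ab : Raag Adj →* (∀ _ : Fin k, Multiplicative ℤ) :=
    rlift (fun v i => if v = q i then Multiplicative.ofAdd 1 else 1) (fun _ _ _ => Commute.all _ _)
  have h1 : ab.comp ι0 = MonoidHom.id _ := by
    refine MonoidHom.functions_ext' _ _ _ (fun i => ?_)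
    refine MonoidHom.ext_mint ?_
    simp only [MonoidHom.comp_apply, MonoidHom.mulSingle_apply, ι0,
      MonoidHom.noncommPiCoprod_mulSingle, zpowersHom_apply, toAdd_ofAdd, zpow_one, ab, rlift_gen,
      MonoidHom.id_apply]
    funext j
    by_cases h : j = i
    · subst h; simp
    · rw [if_neg (fun e => h (hqi e).symm), Pi.mulSingle_eq_of_ne h]
  have h2 : Function.Injective ι0 := Function.LeftInverse.injective (g := ab)
    (fun x => DFunLike.congr_fun h1 x)
  exact ⟨ι0.comp (MulEquiv.funMultiplicative (Fin k) ℤ).toMonoidHom,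
    h2.comp (MulEquiv.funMultiplicative (Fin k) ℤ).injective⟩

theorem growth {Y : Type*} [DecidableEq Y] (hs : ∀ u v, Adj u v → Adj v u) (hi : ∀ v, ¬ Adj v v)
    (hcl : ¬ ∃ f : ℕ → V, ∀ i j, i < j → Adj (f i) (f j))
    (ψ : FreeGroup Y × FreeGroup Y →* MulAut (Raag Adj))
    (hψ : ∀ h, ∃ σ : V → V, ∀ v, ψ h (gen Adj v) = gen Adj (σ v))
    {G : Type*} [Group G] {n : ℕ} (mk : FreeGroup (Fin n) →* G)
    (Φ : G →* Raag Adj ⋊[ψ] (FreeGroup Y × FreeGroup Y)) (hΦ : Function.Injective Φ)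
    (H : Subgroup G) (hH : ∀ S ≤ H, Am S) :
    ∃ C k : ℕ, ∀ r : ℕ,
      ({x : G | x ∈ H ∧ ∃ w : FreeGroup (Fin n), w.toWord.length ≤ r ∧ mk w = x}).ncard
        ≤ C * (1 + r) ^ k := by
  let GLn : (Raag Adj ⋊[ψ] (FreeGroup Y × FreeGroup Y)) → ℕ → Prop := fun g r =>
    Len g.left r ∧ norm g.right.1 ≤ r ∧ norm g.right.2 ≤ r
  have hψ' : ∀ h g r, Len g r → Len (ψ h g) r := by
    intro h g r hl
    obtain ⟨σ, hσ⟩ := hψ h
    exact Len.map (φ := (ψ h).toMonoidHom) hσ hl
  have Gmul : ∀ g g' r r', GLn g r → GLn g' r' → GLn (g * g') (r + r') := by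
    rintro g g' r r' ⟨a1, a2, a3⟩ ⟨b1, b2, b3⟩
    exact ⟨a1.mul (hψ' _ _ _ b1), (FreeGroup.norm_mul_le _ _).trans (add_le_add a2 b2),
      (FreeGroup.norm_mul_le _ _).trans (add_le_add a3 b3)⟩
  have Ginv : ∀ g r, GLn g r → GLn g⁻¹ r := by
    rintro g r ⟨a1, a2, a3⟩
    refine ⟨hψ' _ _ _ a1.inv, ?_, ?_⟩
    · rw [inv_right, Prod.fst_inv, norm_inv_eq]; exact a2
    · rw [inv_right, Prod.snd_inv, norm_inv_eq]; exact a3
  have Gmono : ∀ g r r', GLn g r → r ≤ r' → GLn g r' := by
    rintro g r r' ⟨a1, a2, a3⟩ h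
    exact ⟨a1.mono h, a2.trans h, a3.trans h⟩
  have Gex : ∀ g, ∃ r, GLn g r := fun g => by
    obtain ⟨r, hr⟩ := Len.ex g.left
    exact ⟨r + norm g.right.1 + norm g.right.2, hr.mono (by omega), by omega, by omega⟩
  choose ρ0 hρ0 using Gex
  let c0 := Finset.univ.sup (fun i : Fin n => ρ0 (Φ (mk (of i))))
  have hc0 : ∀ i, GLn (Φ (mk (of i))) c0 := fun i =>
    Gmono _ _ _ (hρ0 _) (Finset.le_sup (f := fun i : Fin n => ρ0 (Φ (mk (of i)))) (Finset.mem_univ i))
  have hw : ∀ l : List (Fin n × Bool), GLn (Φ (mk (FreeGroup.mk l))) (l.length * c0) := by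
    intro l
    induction l with
    | nil =>
      rw [← one_eq_mk, _root_.map_one, _root_.map_one]
      exact ⟨⟨[], by simp, by rw [← one_eq_mk]; simp⟩, by simp, by simp⟩
    | cons a l ih =>
      rw [← List.singleton_append, ← mul_mk, _root_.map_mul, _root_.map_mul, List.length_append,
        add_mul, List.length_singleton, one_mul]
      refine Gmul _ _ _ _ ?_ ih
      obtain ⟨u, b⟩ := a
      cases b
      · have e : FreeGroup.mk [(u, false)] = (of u)⁻¹ := (inv_letter (u, true)).symm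
        rw [e, _root_.map_inv, _root_.map_inv]
        exact Ginv _ _ (hc0 u)
      · exact hc0 u
  let p : G →* FreeGroup Y × FreeGroup Y := rightHom.comp Φ
  let N0 : Subgroup G := H ⊓ p.ker
  let ι : N0 →* Raag Adj := MonoidHom.mk' (fun g => (Φ g).left) (by
    intro a b
    have : (Φ a).right = 1 := a.2.2
    simp [this])
  have hι : Function.Injective ι := by
    intro a b e
    apply Subtype.ext
    apply hΦ
    have h1 : (Φ a).right = 1 := a.2.2
    have h2 : (Φ b).right = 1 := b.2.2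
    exact SemidirectProduct.ext e (h1.trans h2.symm)
  obtain ⟨D0, k, hD0⟩ := raag_growth hs hi hcl (hH N0 inf_le_left) ι hι
  obtain ⟨D1, hD1⟩ := free_growth (hH H le_rfl) ((MonoidHom.fst _ _).comp (p.comp H.subtype))
  obtain ⟨D2, hD2⟩ := free_growth (hH H le_rfl) ((MonoidHom.snd _ _).comp (p.comp H.subtype))
  let E := 4 * (2 * c0 + D0 + D1 + D2)
  refine ⟨E ^ (k + 2), k + 2, fun r => ?_⟩
  have key : ∀ S : Finset H, (∀ g ∈ S, GLn (Φ g) (r * c0)) → S.card ≤ (E * (1 + r)) ^ (k + 2) := by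
    intro S hS
    obtain ⟨f1, a1, b1⟩ := hD1 S (r * c0) (fun g hg => (hS g hg).2.1)
    obtain ⟨f2, a2, b2⟩ := hD2 S (r * c0) (fun g hg => (hS g hg).2.2)
    have := Finset.card_le_mul_card_image_of_maps_to (s := S)
      (t := Finset.range (E * (1 + r)) ×ˢ Finset.range (E * (1 + r)))
      (f := fun g => (f1 g, f2 g)) (by
        intro g hg
        have := a1 g hg
        have := a2 g hg
        simp only [Finset.mem_product, Finset.mem_range, E]
        constructor <;> nlinarith) ((E * (1 + r)) ^ k) (by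
        intro b _
        by_cases hne : (S.filter (fun g => (f1 g, f2 g) = b)).Nonempty
        · obtain ⟨g0, hg0⟩ := hne
          rw [Finset.mem_filter] at hg0
          have hmem : ∀ g ∈ S.filter (fun g => (f1 g, f2 g) = b), ((g0⁻¹ * g : H) : G) ∈ N0 := by
            intro g hg
            rw [Finset.mem_filter] at hg
            have e := hg0.2.trans hg.2.symm
            simp only [Prod.mk.injEq] at e
            refine ⟨(g0⁻¹ * g).2, ?_⟩
            have e1 : (p g0).1 = (p g).1 := b1 g0 hg0.1 g hg.1 e.1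
            have e2 : (p g0).2 = (p g).2 := b2 g0 hg0.1 g hg.1 e.2
            show p _ = 1
            rw [Subgroup.coe_mul, Subgroup.coe_inv, _root_.map_mul, _root_.map_inv, inv_mul_eq_one]
            exact Prod.ext e1 e2
          let F : H → N0 := fun g => if h : ((g0⁻¹ * g : H) : G) ∈ N0 then ⟨_, h⟩ else 1
          have hF : ∀ g ∈ S.filter (fun g => (f1 g, f2 g) = b),
              (F g : G) = (g0 : G)⁻¹ * g := by
            intro g hg
            simp only [F, dif_pos (hmem g hg)]; rfl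
          rw [← Finset.card_image_of_injOn (f := F) (by
            intro g hg g' hg' e
            have := (hF g hg).symm.trans ((congrArg Subtype.val e).trans (hF g' hg'))
            exact Subtype.ext (mul_left_cancel this))]
          refine le_trans (hD0 (r * c0 + r * c0) _ ?_) (Nat.pow_le_pow_left ?_ _)
          · intro x hx
            obtain ⟨g, hg, rfl⟩ := Finset.mem_image.1 hx
            show Len (Φ (F g : G)).left _
            rw [hF g hg, _root_.map_mul, _root_.map_inv]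
            exact (Gmul _ _ _ _ (Ginv _ _ (hS g0 hg0.1)) (hS g (Finset.mem_filter.1 hg).1)).1
          · simp only [E]; nlinarith
        · rw [Finset.not_nonempty_iff_eq_empty.1 hne]; simp)
    rw [Finset.card_product, Finset.card_range] at this
    refine this.trans (le_of_eq ?_)
    ring
  set T := {x : G | x ∈ H ∧ ∃ w : FreeGroup (Fin n), w.toWord.length ≤ r ∧ mk w = x} with hT
  by_cases hfin : T.Finite
  · have h1 := key (hfin.toFinset.subtype (· ∈ H)) (by
      intro g hg
      rw [Finset.mem_subtype, Set.Finite.mem_toFinset] at hg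
      obtain ⟨-, w, h1, h2⟩ := hg
      rw [← h2, ← mk_toWord (x := w)]
      exact Gmono _ _ _ (hw _) (Nat.mul_le_mul_right _ h1))
    rw [Finset.card_subtype, Finset.filter_true_of_mem (fun x hx => (hfin.mem_toFinset.1 hx).1),
      mul_pow] at h1
    rwa [Set.ncard_eq_toFinset_card T hfin]
  · rw [Set.Infinite.ncard hfin]; exact Nat.zero_le _

end

end Pool.Agent.H337Z
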