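import Pool.Agent.H337Z.Walls

/-! The Cayley tree of a free group as a wall system. -/

set_option autoImplicit false
open Pointwise FreeGroup

namespace Pool.Agent.H337Z

variable {Ω : Type*} [DecidableEq Ω]

theorem toWord_letter (a : Ω × Bool) (y : FreeGroup Ω) :
    toWord (mk [a] * y) =
      if (toWord y).head? = some (a.1, !a.2) then (toWord y).tail else a :: toWord y := by
  rw [toWord_mul, toWord_mk, reduce_singleton, List.singleton_append, reduce.cons, reduce_toWord]
  cases toWord y with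
  | nil => simp
  | cons b t =>
    obtain ⟨a1, a2⟩ := a
    obtain ⟨b1, b2⟩ := b
    simp only [List.head?_cons, Option.some.injEq, Prod.mk.injEq, List.tail_cons]
    by_cases h : a1 = b1 ∧ a2 = !b2
    · rw [if_pos h, if_pos ⟨h.1.symm, by rw [h.2]; simp⟩]
    · rw [if_neg h, if_neg (fun h' => h ⟨h'.1.symm, by rw [h'.2]; simp⟩)]

theorem toWord_red {w : List (Ω × Bool)} (h : IsReduced w) : toWord (mk w) = w := by
  rw [toWord_mk, h.reduce_eq]

omit [DecidableEq Ω] in
theorem inv_letter (a : Ω × Bool) : (mk [a])⁻¹ = mk [(a.1, !a.2)] := by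
  rw [inv_mk]; rfl

omit [DecidableEq Ω] in
theorem red_cons {a : Ω × Bool} {w : List (Ω × Bool)} :
    IsReduced (a :: w) ↔ w.head? ≠ some (a.1, !a.2) ∧ IsReduced w := by
  cases w with
  | nil => simp [IsReduced.singleton]
  | cons b t =>
    rw [isReduced_cons_cons]
    obtain ⟨a1, a2⟩ := a
    obtain ⟨b1, b2⟩ := b
    simp only [List.head?_cons, ne_eq, Option.some.injEq, Prod.mk.injEq, not_and]
    refine and_congr_left (fun _ => ?_)
    constructor
    · intro h h1 h2
      have := h h1.symm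
      rw [this] at h2
      simp at h2
    · intro h h1
      have := h h1.symm
      cases a2 <;> cases b2 <;> simp_all

def cone (w : List (Ω × Bool)) : Set (FreeGroup Ω) := {y | w <+: toWord y}

def coneW (Ω : Type*) [DecidableEq Ω] : Set (Set (FreeGroup Ω)) :=
  {h | ∃ w, IsReduced w ∧ w ≠ [] ∧ (h = cone w ∨ h = (cone w)ᶜ)}

theorem cone_nest (a b : List (Ω × Bool)) :
    cone a ⊆ cone b ∨ cone b ⊆ cone a ∨ Disjoint (cone a) (cone b) := by
  by_cases h : Disjoint (cone a) (cone b)
  · exact Or.inr (Or.inr h)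
  · obtain ⟨y, h1, h2⟩ := Set.not_disjoint_iff.1 h
    rcases List.prefix_or_prefix_of_prefix h1 h2 with H | H
    · exact Or.inr (Or.inl (fun z hz => H.trans hz))
    · exact Or.inl (fun z hz => H.trans hz)

theorem coneW_compl {h : Set (FreeGroup Ω)} (hh : h ∈ coneW Ω) : hᶜ ∈ coneW Ω := by
  obtain ⟨w, h1, h2, rfl | rfl⟩ := hh
  · exact ⟨w, h1, h2, Or.inr rfl⟩
  · exact ⟨w, h1, h2, Or.inl (compl_compl _)⟩

omit [DecidableEq Ω] in
theorem pre_fin (l : List (Ω × Bool)) : {w | w <+: l}.Finite := by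
  refine (List.finite_toSet l.inits).subset (fun w hw => ?_)
  exact (List.mem_inits _ _).2 hw

theorem cone_edge {w : List (Ω × Bool)} (h1 : IsReduced w) (h2 : w ≠ []) :
    ∃ x' x : FreeGroup Ω, (∃ ω, x = x' * of ω ∨ x' = x * of ω) ∧ x' ∉ cone w ∧ x ∈ cone w ∧
      ∀ k ∈ coneW Ω, x' ∉ k → x ∈ k → k = cone w := by
  obtain ⟨u, a, rfl⟩ : ∃ u a, w = u ++ [a] := ⟨w.dropLast, w.getLast h2,
    (List.dropLast_append_getLast h2).symm⟩
  have hu : IsReduced u := List.IsChain.left_of_append h1
  have e1 : toWord (mk u) = u := toWord_red hu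
  have e2 : toWord (mk (u ++ [a])) = u ++ [a] := toWord_red h1
  refine ⟨mk u, mk (u ++ [a]), ⟨a.1, ?_⟩, ?_, ?_, ?_⟩
  · obtain ⟨a1, a2⟩ := a
    cases a2
    · right
      rw [← mul_mk, mul_assoc]
      have : mk [(a1, false)] * of a1 = 1 := by
        rw [mul_eq_one_iff_inv_eq, inv_letter]; rfl
      rw [this, mul_one]
    · left
      rw [← mul_mk]; rfl
  · show ¬ _ <+: _
    rw [e1]
    intro h
    have := h.length_le
    simp at this
  · show _ <+: _
    rw [e2]
  · rintro k ⟨w', -, -, rfl | rfl⟩ k1 k2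
    · have k1' : ¬ w' <+: u := by rw [← e1]; exact k1
      have k2' : w' <+: u ++ [a] := by rw [← e2]; exact k2
      rcases List.prefix_concat_iff.1 k2' with h | h
      · rw [h]
      · exact (k1' h).elim
    · have k1' : w' <+: u := by rw [← e1]; exact not_not.1 k1
      have k2' : ¬ w' <+: u ++ [a] := by rw [← e2]; exact k2
      exact (k2' (k1'.trans (List.prefix_append _ _))).elim

def freeWalls (Ω : Type*) [DecidableEq Ω] : Walls (FreeGroup Ω) where
  W := coneW Ω
  Adj x' x := ∃ ω, x = x' * of ω ∨ x' = x * of ω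
  compl _ hh := coneW_compl hh
  nested := by
    rintro h ⟨a, -, -, rfl | rfl⟩ k ⟨b, -, -, rfl | rfl⟩ <;> rcases cone_nest a b with H | H | H
    · exact Or.inl H
    · exact Or.inr (Or.inl H)
    · exact Or.inr (Or.inr (Or.inl H))
    · exact Or.inr (Or.inr (Or.inl (Set.disjoint_left.2 (fun z h1 h2 => h2 (H h1)))))
    · refine Or.inr (Or.inr (Or.inr (Set.disjoint_left.2 (fun z h1 h2 => h1 (H (not_not.1 h2))))))
    · exact Or.inl (fun z h1 h2 => Set.disjoint_left.1 H h1 h2)
    · exact Or.inr (Or.inr (Or.inr (Set.disjoint_left.2 (fun z h1 h2 => h2 (H (not_not.1 h1))))))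
    · exact Or.inr (Or.inr (Or.inl (Set.disjoint_left.2 (fun z h1 h2 => h1 (H h2)))))
    · exact Or.inr (Or.inl (fun z h1 h2 => Set.disjoint_left.1 H h2 h1))
    · exact Or.inr (Or.inl (Set.compl_subset_compl.2 H))
    · exact Or.inl (Set.compl_subset_compl.2 H)
    · refine Or.inr (Or.inr (Or.inr ?_))
      rwa [compl_compl, compl_compl]
  fin x y := by
    refine (((pre_fin (toWord y)).image cone).union
      ((pre_fin (toWord x)).image (fun w => (cone w)ᶜ))).subset ?_
    rintro h ⟨⟨w, -, -, rfl | rfl⟩, h1, h2⟩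
    · exact Or.inl ⟨w, h2, rfl⟩
    · exact Or.inr ⟨w, not_not.1 h1, rfl⟩
  edge := by
    rintro h ⟨w, h1, h2, rfl | rfl⟩
    · exact cone_edge h1 h2
    · obtain ⟨x', x, ⟨ω, ha⟩, k1, k2, k3⟩ := cone_edge h1 h2
      refine ⟨x, x', ⟨ω, ha.symm⟩, fun h => h k2, k1, fun k hk j1 j2 => ?_⟩
      rw [← k3 kᶜ (coneW_compl hk) (fun h => h j2) j1, compl_compl]
  sepp x y hne := by
    by_cases h : toWord y <+: toWord x
    · have h2 : ¬ toWord x <+: toWord y := fun h2 =>
        hne (toWord_injective (h2.eq_of_length_le h.length_le))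
      refine ⟨(cone (toWord x))ᶜ, ⟨_, isReduced_toWord, fun e => h2 (e ▸ List.nil_prefix),
        Or.inr rfl⟩, fun h3 => h3 (List.prefix_refl _), h2⟩
    · exact ⟨cone (toWord y), ⟨_, isReduced_toWord, fun e => h (e ▸ List.nil_prefix),
        Or.inl rfl⟩, h, List.prefix_refl _⟩

theorem d_one_le (y : FreeGroup Ω) : (freeWalls Ω).d 1 y ≤ norm y + 1 := by
  classical
  have h1 : (freeWalls Ω).sep 1 y ⊆ cone '' ((toWord y).inits.toFinset : Set _) := by
    rintro h ⟨⟨w, -, h0, rfl | rfl⟩, h1, h2⟩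
    · exact ⟨w, by simpa [cone] using h2, rfl⟩
    · have : w <+: toWord (1 : FreeGroup Ω) := not_not.1 h1
      rw [toWord_one, List.prefix_nil] at this
      exact (h0 this).elim
  refine le_trans (Set.ncard_le_ncard h1 ((Finset.finite_toSet _).image _))
    (le_trans (Set.ncard_image_le (Finset.finite_toSet _)) ?_)
  rw [Set.ncard_coe_finset]
  refine le_trans (List.toFinset_card_le _) ?_
  rw [List.length_inits]; rfl

theorem letter_cone (a : Ω × Bool) {w : List (Ω × Bool)} (h1 : IsReduced w) (h2 : w ≠ []) :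
    mk [a] • cone w ∈ coneW Ω := by
  have key : ∀ y : FreeGroup Ω, y ∈ mk [a] • cone w ↔
      w <+: (if (toWord y).head? = some a then (toWord y).tail else (a.1, !a.2) :: toWord y) := by
    intro y
    rw [Set.mem_smul_set_iff_inv_smul_mem, inv_letter, smul_eq_mul]
    show w <+: toWord _ ↔ _
    rw [toWord_letter]
    simp only [Bool.not_not]
  have hy : ∀ y : FreeGroup Ω, (toWord y).head? = some a →
      toWord y = a :: (toWord y).tail ∧ (toWord y).tail.head? ≠ some (a.1, !a.2) := by
    intro y h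
    have e : toWord y = a :: (toWord y).tail := (List.cons_head?_tail h).symm
    have := isReduced_toWord (x := y)
    rw [e] at this
    exact ⟨e, (red_cons.1 this).1⟩
  have hpre : ∀ (b : Ω × Bool) (s t : List (Ω × Bool)), b :: s <+: t → t.head? = some b := by
    rintro b s t ⟨u, rfl⟩; rfl
  obtain ⟨b, w', rfl⟩ := List.exists_cons_of_ne_nil h2
  by_cases hb : b = (a.1, !a.2)
  · subst hb
    have h3 := red_cons.1 h1
    simp only [Bool.not_not] at h3
    by_cases hw : w' = []
    · subst hw
      refine ⟨[a], IsReduced.singleton, by simp, Or.inr ?_⟩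
      ext y
      rw [key]
      show _ ↔ ¬ [a] <+: toWord y
      split_ifs with h
      · obtain ⟨e1, e2⟩ := hy y h
        refine iff_of_false (fun h4 => e2 (hpre _ _ _ h4)) (not_not.2 ?_)
        rw [e1]; simp
      · exact iff_of_true (by simp) (fun h4 => h (hpre _ _ _ h4))
    · refine ⟨w', h3.2, hw, Or.inl ?_⟩
      ext y
      rw [key]
      show _ ↔ w' <+: toWord y
      split_ifs with h
      · obtain ⟨e1, e2⟩ := hy y h
        refine iff_of_false (fun h4 => e2 (hpre _ _ _ h4)) (fun h4 => h3.1 ?_)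
        obtain ⟨c, w'', rfl⟩ := List.exists_cons_of_ne_nil hw
        rw [← h, hpre _ _ _ h4]; rfl
      · simp
  · refine ⟨a :: b :: w', red_cons.2 ⟨by simpa using hb, h1⟩, by simp, Or.inl ?_⟩
    ext y
    rw [key]
    show _ ↔ a :: b :: w' <+: toWord y
    split_ifs with h
    · obtain ⟨e1, -⟩ := hy y h
      conv_rhs => rw [e1]
      simp
    · refine iff_of_false (fun h4 => hb ?_) (fun h4 => h (hpre _ _ _ h4))
      simpa using (hpre _ _ _ h4).symm

theorem left_inv_W (f : FreeGroup Ω) {h : Set (FreeGroup Ω)} (hh : h ∈ coneW Ω) :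
    f • h ∈ coneW Ω := by
  rw [← mk_toWord (x := f)]
  induction toWord f with
  | nil => rw [← one_eq_mk, one_smul]; exact hh
  | cons a l ih =>
    rw [← List.singleton_append, ← mul_mk, mul_smul]
    obtain ⟨w, h1, h2, e | e⟩ := ih
    · rw [e]; exact letter_cone a h1 h2
    · rw [e, Set.smul_set_compl]; exact coneW_compl (letter_cone a h1 h2)

omit [DecidableEq Ω] in
theorem red_map {σ : Ω → Ω} (hσ : Function.Injective σ) {w : List (Ω × Bool)} (h : IsReduced w) :
    IsReduced (w.map fun x => (σ x.1, x.2)) := by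
  unfold FreeGroup.IsReduced at *
  rw [List.isChain_map]
  exact h.imp (fun a b H e => H (hσ e))

theorem toWord_map {σ : Ω → Ω} (hσ : Function.Injective σ) (y : FreeGroup Ω) :
    toWord (map σ y) = (toWord y).map fun x => (σ x.1, x.2) := by
  conv_lhs => rw [← mk_toWord (x := y), map.mk]
  exact toWord_red (red_map hσ isReduced_toWord)

theorem norm_map {σ : Ω → Ω} (hσ : Function.Injective σ) (y : FreeGroup Ω) :
    norm (map σ y) = norm y := by
  unfold FreeGroup.norm
  rw [toWord_map hσ, List.length_map]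

variable (Ω) in
/-- permutation of the basis -/
def phi (M : Type*) [Group M] [MulAction M Ω] : M →* MulAut (FreeGroup Ω) where
  toFun g := freeGroupCongr (MulAction.toPerm g)
  map_one' := by
    ext x
    show map _ x = x
    rw [← map.id' x, map.comp]
    congr 2
    funext z; simp
  map_mul' g h := by
    ext x
    show map _ x = map _ (map _ x)
    rw [map.comp]
    congr 2
    funext z; simp [mul_smul]

variable {M : Type*} [Group M] [MulAction M Ω]

omit [DecidableEq Ω] in
theorem phi_apply (g : M) (x : FreeGroup Ω) : phi Ω M g x = map (fun ω => g • ω) x := rfl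

omit [DecidableEq Ω] in
@[simp] theorem phi_of (g : M) (ω : Ω) : phi Ω M g (of ω) = of (g • ω) := by
  rw [phi_apply, map.of]

variable (Ω M) in
abbrev SD := FreeGroup Ω ⋊[phi Ω M] M

instance sdAct : MulAction (SD Ω M) (FreeGroup Ω) where
  smul g x := g.left * phi Ω M g.right x
  one_smul x := by
    show (1 : SD Ω M).left * phi Ω M (1 : SD Ω M).right x = x
    simp
  mul_smul g h x := by
    show (g * h).left * phi Ω M (g * h).right x = g.left * phi Ω M g.right (h.left * phi Ω M h.right x)
    simp [mul_assoc]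

omit [DecidableEq Ω] in
theorem sd_smul (g : SD Ω M) (x : FreeGroup Ω) : g • x = g.left * phi Ω M g.right x := rfl

theorem sd_inv : (freeWalls Ω).Inv (SD Ω M) := by
  intro g h hh
  have h1 : (fun x => phi Ω M g.right x) '' h ∈ coneW Ω := by
    have key : ∀ w : List (Ω × Bool), (fun x => phi Ω M g.right x) '' cone w =
        cone (w.map fun x => (g.right • x.1, x.2)) := by
      intro w
      ext y
      constructor
      · rintro ⟨x, hx, rfl⟩
        show _ <+: toWord (map (fun ω => g.right • ω) x)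
        rw [toWord_map (MulAction.injective g.right)]
        exact List.IsPrefix.map _ hx
      · intro hy
        refine ⟨phi Ω M g.right⁻¹ y, ?_, by simp⟩
        show _ <+: toWord (map (fun ω => g.right⁻¹ • ω) y)
        rw [toWord_map (MulAction.injective g.right⁻¹)]
        have := List.IsPrefix.map (fun x : Ω × Bool => (g.right⁻¹ • x.1, x.2)) hy
        simpa [List.map_map, Function.comp_def] using this
    obtain ⟨w, h1, h2, e⟩ := hh
    refine ⟨_, red_map (MulAction.injective g.right) h1, by simpa using h2, ?_⟩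
    rcases e with rfl | rfl
    · exact Or.inl (key w)
    · right
      rw [← key w]
      exact Set.image_compl_eq (phi Ω M g.right).bijective
  have h2 : g • h = g.left • ((fun x => phi Ω M g.right x) '' h) := by
    rw [← Set.image_smul, ← Set.image_smul, Set.image_image]; rfl
  rw [h2]
  exact left_inv_W _ h1

omit [DecidableEq Ω] in
theorem sd_mul_of (g : SD Ω M) (x : FreeGroup Ω) (ω : Ω) :
    g • (x * of ω) = g • x * of (g.right • ω) := by
  rw [sd_smul, sd_smul, _root_.map_mul, phi_of, mul_assoc]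

theorem sd_noinv (g : SD Ω M) (x' x : FreeGroup Ω) (h : (freeWalls Ω).Adj x' x)
    (h1 : g • x' = x) (h2 : g • x = x') : False := by
  have key : ∀ (y y' : FreeGroup Ω) (ω : Ω), y = y' * of ω → g • y' = y → g • y = y' → False := by
    intro y y' ω e e1 e2
    rw [e, sd_mul_of, e1, e, mul_assoc, mul_eq_left] at e2
    have := congrArg (lift (fun _ : Ω => Multiplicative.ofAdd (1 : ℤ))) e2
    simp only [_root_.map_mul, lift_apply_of, _root_.map_one] at this
    exact absurd (congrArg Multiplicative.toAdd this) (by simp)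
  obtain ⟨ω, e | e⟩ := h
  · exact key x x' ω e h1 h2
  · exact key x' x ω e h2 h1

theorem sd_fix_edge (g : SD Ω M) (x' x : FreeGroup Ω) (h : (freeWalls Ω).Adj x' x)
    (h1 : g • x' = x') (h2 : g • x = x) : ∃ (y : FreeGroup Ω) (ω : Ω), g • y = y ∧ g.right • ω = ω := by
  obtain ⟨ω, e | e⟩ := h
  · refine ⟨x', ω, h1, ?_⟩
    rw [e, sd_mul_of, h1, mul_right_inj] at h2
    exact of_injective h2
  · refine ⟨x, ω, h2, ?_⟩
    rw [e, sd_mul_of, h2, mul_right_inj] at h1
    exact of_injective h1

/-- convex subsets of the Cayley tree -/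
def Conv (A : Set (FreeGroup Ω)) : Prop :=
  ∀ g ∈ A, ∀ u v, IsReduced (u ++ v) → g * mk (u ++ v) ∈ A → g * mk u ∈ A

theorem helly3 {A B C : Set (FreeGroup Ω)} (hA : Conv A) (hB : Conv B) (hC : Conv C)
    {g2 g3 : FreeGroup Ω} (a2 : g2 ∈ A) (a3 : g3 ∈ A) (b3 : g3 ∈ B) (c2 : g2 ∈ C) :
    ∀ (n : ℕ) (g1 : FreeGroup Ω), (toWord (g1⁻¹ * g2)).length = n → g1 ∈ B → g1 ∈ C →
      ∃ m, m ∈ A ∧ m ∈ B ∧ m ∈ C := by
  intro n
  induction n with
  | zero =>
    intro g1 hn b1 c1
    rw [List.length_eq_zero_iff, toWord_eq_nil_iff, inv_mul_eq_one] at hn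
    subst hn
    exact ⟨g1, a2, b1, c1⟩
  | succ n ih =>
    intro g1 hn b1 c1
    obtain ⟨a, u, hu⟩ := List.exists_cons_of_length_eq_add_one hn
    have ru : IsReduced (a :: u) := hu ▸ isReduced_toWord
    have e2 : g1 * mk (a :: u) = g2 := by rw [← hu, mk_toWord]; group
    by_cases hv : (toWord (g1⁻¹ * g3)).head? = some a
    · have e : toWord (g1⁻¹ * g3) = a :: (toWord (g1⁻¹ * g3)).tail := (List.cons_head?_tail hv).symm
      have rv : IsReduced ([a] ++ (toWord (g1⁻¹ * g3)).tail) := by
        rw [List.singleton_append, ← e]; exact isReduced_toWord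
      have e3 : g1 * mk ([a] ++ (toWord (g1⁻¹ * g3)).tail) = g3 := by
        rw [List.singleton_append, ← e, mk_toWord]; group
      refine ih (g1 * mk [a]) ?_ (hB g1 b1 _ _ rv (by rw [e3]; exact b3))
        (hC g1 c1 [a] u ru (by rw [List.singleton_append, e2]; exact c2))
      have : (g1 * mk [a])⁻¹ * g2 = mk u := by
        have h5 : mk (a :: u) = mk [a] * mk u := by rw [mul_mk]; rfl
        rw [← e2, h5]; group
      rw [this, toWord_red (red_cons.1 ru).2]
      rw [hu] at hn
      simpa using hn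
    · refine ⟨g1, ?_, b1, c1⟩
      have r1 : IsReduced (invRev (a :: u)) := by
        rw [← hu, ← toWord_inv]; exact isReduced_toWord
      have r2 : IsReduced (invRev (a :: u) ++ toWord (g1⁻¹ * g3)) := by
        rw [invRev_cons] at r1 ⊢
        refine IsReduced.append_overlap r1 ?_ (by simp [invRev])
        show IsReduced ((a.1, !a.2) :: _)
        rw [red_cons]
        exact ⟨by simpa using hv, isReduced_toWord⟩
      have := hA g2 a2 _ _ r2 (by
        rw [← mul_mk, mk_toWord, ← inv_mk, ← e2]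
        convert a3 using 1
        group)
      rw [← inv_mk, ← e2, mul_inv_cancel_right] at this
      exact this

theorem helly {ι : Type*} (T : ι → Set (FreeGroup Ω)) (s : Finset ι) (hT : ∀ i ∈ s, Conv (T i))
    (hp : ∀ i ∈ s, ∀ j ∈ s, ∃ g, g ∈ T i ∧ g ∈ T j) :
    ∀ A : Set (FreeGroup Ω), Conv A → A.Nonempty → (∀ i ∈ s, ∃ g, g ∈ A ∧ g ∈ T i) →
      ∃ g ∈ A, ∀ i ∈ s, g ∈ T i := by
  classical
  induction s using Finset.induction_on with
  | empty => intro A _ ⟨g, hg⟩ _; exact ⟨g, hg, by simp⟩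
  | insert j s hj ih =>
    intro A hA _ hi
    have hj' := Finset.mem_insert_self j s
    obtain ⟨g, hg, hg2⟩ := ih (fun i hi => hT i (Finset.mem_insert_of_mem hi))
      (fun i hi k hk => hp i (Finset.mem_insert_of_mem hi) k (Finset.mem_insert_of_mem hk))
      (A ∩ T j) (fun g hg u v r h => ⟨hA g hg.1 u v r h.1, hT j hj' g hg.2 u v r h.2⟩)
      (hi j hj') (by
        intro i his
        have hi' := Finset.mem_insert_of_mem (b := j) his
        obtain ⟨g1, x1, x2⟩ := hp j hj' i hi'
        obtain ⟨g2, y1, y2⟩ := hi i hi'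
        obtain ⟨g3, z1, z2⟩ := hi j hj'
        obtain ⟨m, m1, m2, m3⟩ := helly3 hA (hT j hj') (hT i hi') y1 z1 z2 y2 _ g1 rfl x1 x2
        exact ⟨m, ⟨m1, m2⟩, m3⟩)
    refine ⟨g, hg.1, fun i hi => ?_⟩
    rcases Finset.mem_insert.1 hi with rfl | h
    · exact hg.2
    · exact hg2 i h

end Pool.Agent.H337Z
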