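import Pool.Agent.H337Z.FreeTree

/-! Globalising partial bijections: a tree of copies of a set. -/

set_option autoImplicit false
open Classical FreeGroup SemidirectProduct

namespace Pool.Agent.H337Z

structure Mach (M : Type) [Group M] (V0 : Type) [MulAction M V0] (Θ : Type) where
  K : Θ → Subgroup M
  St : Θ → V0 → V0 → Prop
  E : V0 → V0 → Prop
  T : V0 → V0 → V0 → ℕ → Prop
  f1 : ∀ θ x y y', St θ x y → St θ x y' → y = y'
  f2 : ∀ θ x x' y, St θ x y → St θ x' y → x = x'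
  inv : ∀ θ (m : M) x y, m ∈ K θ → St θ x y → St θ (m • x) (m • y)
  Einv : ∀ (m : M) x y, E x y → E (m • x) (m • y)
  Esymm : ∀ x y, E x y → E y x
  Eirr : ∀ x, ¬ E x x
  Etr : ∀ θ x x' y y', St θ x x' → St θ y y' → (E x y ↔ E x' y')
  Tinv : ∀ (m : M) x y z n, T x y z n → T (m • x) (m • y) (m • z) n
  Ttr : ∀ θ x x' y y' z z' n, St θ x x' → St θ y y' → St θ z z' → E x y → E y z → E x z →
    (T x y z n ↔ T x' y' z' n)
  Tex : ∀ x y z, E x y → E y z → E x z → ∃ n, T x y z n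
  Tbd : ∀ x y z n, T x y z n → ∀ Y : Finset V0, x ∈ Y → y ∈ Y → z ∈ Y →
    (∀ a ∈ Y, ∀ b ∈ Y, a ≠ b → E a b) → Y.card ≤ n

namespace Mach
variable {M : Type} [Group M] {V0 : Type} [MulAction M V0] {Θ : Type} (A : Mach M V0 Θ)

abbrev Om := Σ θ : Θ, M ⧸ A.K θ

def St1 (ω : A.Om) (x y : V0) : Prop :=
  ∃ g : M, (g : M ⧸ A.K ω.1) = ω.2 ∧ A.St ω.1 (g⁻¹ • x) (g⁻¹ • y)

variable {A}

theorem St1.same {ω : A.Om} {x y : V0} (h : A.St1 ω x y) {g : M} (hg : (g : M ⧸ A.K ω.1) = ω.2) :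
    A.St ω.1 (g⁻¹ • x) (g⁻¹ • y) := by
  obtain ⟨g', h1, h2⟩ := h
  have := A.inv _ _ _ _ (QuotientGroup.eq.1 (hg.trans h1.symm)) h2
  simpa [smul_smul] using this

theorem St1.smul {ω : A.Om} {x y : V0} (h : A.St1 ω x y) (m : M) :
    A.St1 (m • ω) (m • x) (m • y) := by
  obtain ⟨θ, q⟩ := ω
  obtain ⟨g, h1, h2⟩ := h
  refine ⟨m * g, ?_, ?_⟩
  · show ((m * g : M) : M ⧸ A.K θ) = m • q
    have h1' : (g : M ⧸ A.K θ) = q := h1
    rw [← h1']; rfl
  · simpa [smul_smul] using h2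

theorem Eiff (m : M) (x y : V0) : A.E (m • x) (m • y) ↔ A.E x y :=
  ⟨fun h => by simpa using A.Einv m⁻¹ _ _ h, A.Einv m x y⟩

theorem Tiff (m : M) (x y z : V0) (n : ℕ) : A.T (m • x) (m • y) (m • z) n ↔ A.T x y z n :=
  ⟨fun h => by simpa using A.Tinv m⁻¹ _ _ _ _ h, A.Tinv m x y z n⟩

variable (A) in
def L (a : A.Om × Bool) (x y : V0) : Prop := cond a.2 (A.St1 a.1 x y) (A.St1 a.1 y x)

theorem L.rev {a : A.Om × Bool} {x y : V0} (h : A.L a x y) : A.L (a.1, !a.2) y x := by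
  obtain ⟨ω, b⟩ := a
  cases b <;> exact h

theorem L.fn {a : A.Om × Bool} {x y y' : V0} (h : A.L a x y) (h' : A.L a x y') : y = y' := by
  obtain ⟨ω, b⟩ := a
  cases b
  · obtain ⟨g, h1, h2⟩ := h
    exact MulAction.injective g⁻¹ (A.f2 _ _ _ _ h2 (St1.same h' h1))
  · obtain ⟨g, h1, h2⟩ := h
    exact MulAction.injective g⁻¹ (A.f1 _ _ _ _ h2 (St1.same h' h1))

theorem L.smul {a : A.Om × Bool} {x y : V0} (h : A.L a x y) (m : M) :
    A.L (m • a.1, a.2) (m • x) (m • y) := by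
  obtain ⟨ω, b⟩ := a
  cases b <;> exact St1.smul h m

theorem L.E {a : A.Om × Bool} {x x' y y' : V0} (h : A.L a x x') (h' : A.L a y y') (he : A.E x y) :
    A.E x' y' := by
  obtain ⟨ω, b⟩ := a
  cases b
  · obtain ⟨g, h1, h2⟩ := h
    exact (Eiff _ _ _).1 ((A.Etr _ _ _ _ _ h2 (St1.same h' h1)).2 (A.Einv _ _ _ he))
  · obtain ⟨g, h1, h2⟩ := h
    exact (Eiff _ _ _).1 ((A.Etr _ _ _ _ _ h2 (St1.same h' h1)).1 (A.Einv _ _ _ he))

theorem L.T {a : A.Om × Bool} {x x' y y' z z' : V0} {n : ℕ} (h : A.L a x x') (h' : A.L a y y')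
    (h'' : A.L a z z') (e1 : A.E x y) (e2 : A.E y z) (e3 : A.E x z) (ht : A.T x y z n) :
    A.T x' y' z' n := by
  have e1' := h.E h' e1
  have e2' := h'.E h'' e2
  have e3' := h.E h'' e3
  obtain ⟨ω, b⟩ := a
  cases b
  · obtain ⟨g, h1, h2⟩ := h
    exact (Tiff _ _ _ _ _).1 ((A.Ttr _ _ _ _ _ _ _ n h2 (St1.same h' h1) (St1.same h'' h1)
      (A.Einv _ _ _ e1') (A.Einv _ _ _ e2') (A.Einv _ _ _ e3')).2 (A.Tinv _ _ _ _ _ ht))
  · obtain ⟨g, h1, h2⟩ := h
    exact (Tiff _ _ _ _ _).1 ((A.Ttr _ _ _ _ _ _ _ n h2 (St1.same h' h1) (St1.same h'' h1)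
      (A.Einv _ _ _ e1) (A.Einv _ _ _ e2) (A.Einv _ _ _ e3)).1 (A.Tinv _ _ _ _ _ ht))

variable (A) in
def Run : List (A.Om × Bool) → V0 → V0 → Prop
  | [], x, y => x = y
  | a :: w, x, z => ∃ y, Run w x y ∧ A.L a y z

theorem run_append (u v : List (A.Om × Bool)) (x z : V0) :
    A.Run (u ++ v) x z ↔ ∃ y, A.Run v x y ∧ A.Run u y z := by
  induction u generalizing z with
  | nil => simp [Run]
  | cons a u ih =>
    simp only [List.cons_append, Run, ih]
    constructor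
    · rintro ⟨y, ⟨y', h1, h2⟩, h3⟩; exact ⟨y', h1, y, h2, h3⟩
    · rintro ⟨y', h1, y, h2, h3⟩; exact ⟨y, ⟨y', h1, h2⟩, h3⟩

theorem Run.invRev {w : List (A.Om × Bool)} {x y : V0} (h : A.Run w x y) :
    A.Run (invRev w) y x := by
  induction w generalizing y with
  | nil => exact h.symm
  | cons a w ih =>
    obtain ⟨z, h1, h2⟩ := h
    rw [invRev_cons, run_append]
    exact ⟨z, ⟨y, rfl, h2.rev⟩, ih h1⟩

theorem Run.red {w w' : List (A.Om × Bool)} (hr : Red w w') {x y : V0} (h : A.Run w x y) :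
    A.Run w' x y := by
  induction hr with
  | refl => exact h
  | tail _ hs ih =>
    cases hs with
    | @not L1 L2 a b =>
      rw [run_append] at ih ⊢
      obtain ⟨y3, ⟨y2, ⟨y1, h1, h2⟩, h3⟩, h4⟩ := ih
      have h5 := h2.rev
      simp only [Bool.not_not] at h5
      rw [h3.fn h5] at h4
      exact ⟨y1, h1, h4⟩

theorem Run.smul {w : List (A.Om × Bool)} {x y : V0} (h : A.Run w x y) (m : M) :
    A.Run (w.map fun a => (m • a.1, a.2)) (m • x) (m • y) := by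
  induction w generalizing y with
  | nil => have : x = y := h; subst this; rfl
  | cons a w ih =>
    obtain ⟨z, h1, h2⟩ := h
    exact ⟨_, ih h1, h2.smul m⟩

theorem Run.E {w : List (A.Om × Bool)} {x x' y y' : V0} (h : A.Run w x x') (h' : A.Run w y y')
    (he : A.E x y) : A.E x' y' := by
  induction w generalizing x' y' with
  | nil =>
    have h1 : x = x' := h
    have h2 : y = y' := h'
    rwa [← h1, ← h2]
  | cons a w ih =>
    obtain ⟨z, h1, h2⟩ := h
    obtain ⟨z', h1', h2'⟩ := h'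
    exact h2.E h2' (ih h1 h1')

theorem Run.T {w : List (A.Om × Bool)} {x x' y y' z z' : V0} {n : ℕ} (h : A.Run w x x')
    (h' : A.Run w y y') (h'' : A.Run w z z') (e1 : A.E x y) (e2 : A.E y z) (e3 : A.E x z)
    (ht : A.T x y z n) : A.T x' y' z' n := by
  induction w generalizing x' y' z' with
  | nil =>
    have h1 : x = x' := h
    have h2 : y = y' := h'
    have h3 : z = z' := h''
    rwa [← h1, ← h2, ← h3]
  | cons a w ih =>
    obtain ⟨u, h1, h2⟩ := h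
    obtain ⟨u', h1', h2'⟩ := h'
    obtain ⟨u'', h1'', h2''⟩ := h''
    exact h2.T h2' h2'' (h1.E h1' e1) (h1'.E h1'' e2) (h1.E h1'' e3) (ih h1 h1' h1'')

theorem Run.toWord {w : List (A.Om × Bool)} {x y : V0} (h : A.Run w x y) :
    A.Run (toWord (FreeGroup.mk w)) x y := h.red reduce.red

variable (A) in
def sto : Setoid (FreeGroup A.Om × V0) where
  r p q := A.Run (toWord (q.1⁻¹ * p.1)) p.2 q.2
  iseqv := ⟨fun p => by simp [Run], fun {p q} h => by
      have := h.invRev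
      rw [← toWord_inv] at this
      simpa using this, fun {p q r} h h' => by
      have := (run_append _ _ _ _).2 ⟨_, h, h'⟩
      have := this.toWord
      rw [← mul_mk, mk_toWord, mk_toWord] at this
      simpa [mul_assoc] using this⟩

variable (A) in
def V' := Quotient A.sto

variable (A) in
def pt (g : FreeGroup A.Om) (x : V0) : A.V' := Quotient.mk A.sto (g, x)

theorem pt_eq {g g' : FreeGroup A.Om} {x x' : V0} :
    A.pt g x = A.pt g' x' ↔ A.Run (toWord (g'⁻¹ * g)) x x' := Quotient.eq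

theorem pt_inj {g : FreeGroup A.Om} {x x' : V0} (h : A.pt g x = A.pt g x') : x = x' := by
  rw [pt_eq] at h
  simpa [Run] using h

instance : MulAction (SD A.Om M) A.V' where
  smul a := Quotient.map (fun p => (a • p.1, a.right • p.2)) (by
    intro p q h
    show A.Run (toWord ((a • q.1)⁻¹ * a • p.1)) _ _
    have : (a • q.1)⁻¹ * a • p.1 = map (fun ω => a.right • ω) (q.1⁻¹ * p.1) := by
      rw [sd_smul, sd_smul, ← phi_apply, _root_.map_mul, _root_.map_inv]; group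
    rw [this, toWord_map (MulAction.injective a.right)]
    exact Run.smul h _)
  one_smul := by
    rintro ⟨g, x⟩
    show A.pt ((1 : SD A.Om M) • g) ((1 : SD A.Om M).right • x) = A.pt g x
    simp
  mul_smul a b := by
    rintro ⟨g, x⟩
    show A.pt ((a * b) • g) ((a * b).right • x) = A.pt (a • b • g) (a.right • b.right • x)
    simp [mul_smul]

theorem smul_pt (a : SD A.Om M) (g : FreeGroup A.Om) (x : V0) :
    a • A.pt g x = A.pt (a • g) (a.right • x) := rfl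

variable (A) in
def E' (p q : A.V') : Prop := ∃ g x y, p = A.pt g x ∧ q = A.pt g y ∧ A.E x y

theorem E'_pt {g : FreeGroup A.Om} {x y : V0} (h : A.E' (A.pt g x) (A.pt g y)) : A.E x y := by
  obtain ⟨g', x', y', h1, h2, h3⟩ := h
  exact (pt_eq.1 h1.symm).E (pt_eq.1 h2.symm) h3

variable (A) in
def cop (p : A.V') : Set (FreeGroup A.Om) := {g | ∃ x, p = A.pt g x}

theorem cop_conv (p : A.V') : Conv (A.cop p) := by
  rintro g ⟨x, rfl⟩ u v hr ⟨x', h⟩
  have h1 := pt_eq.1 h.symm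
  rw [inv_mul_cancel_left, toWord_red hr, run_append] at h1
  obtain ⟨y, -, h2⟩ := h1
  refine ⟨y, (pt_eq.2 ?_).symm⟩
  rw [inv_mul_cancel_left]
  exact h2.toWord

theorem no_clique : ¬ ∃ f : ℕ → A.V', ∀ i j, i ≠ j → A.E' (f i) (f j) := by
  rintro ⟨f, hf⟩
  have h1 : ∀ n : ℕ, ∃ (g : FreeGroup A.Om) (x : ℕ → V0), ∀ i < n, f i = A.pt g (x i) := by
    intro n
    obtain ⟨g, -, hg⟩ := helly (fun i => A.cop (f i)) (Finset.range n) (fun i _ => cop_conv _) (by
      intro i _ j _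
      by_cases h : i = j
      · subst h
        obtain ⟨⟨g, x⟩, e⟩ := Quotient.exists_rep (f i)
        exact ⟨g, ⟨x, e.symm⟩, ⟨x, e.symm⟩⟩
      · obtain ⟨g, x, y, e1, e2, -⟩ := hf i j h
        exact ⟨g, ⟨x, e1⟩, ⟨y, e2⟩⟩) Set.univ (fun _ _ _ _ _ _ => trivial) ⟨1, trivial⟩ (by
      intro i _
      obtain ⟨⟨g, x⟩, e⟩ := Quotient.exists_rep (f i)
      exact ⟨g, trivial, ⟨x, e.symm⟩⟩)
    have h2 : ∀ i, ∃ x, i < n → f i = A.pt g x := by
      intro i
      by_cases h : i < n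
      · obtain ⟨x, hx⟩ := hg i (Finset.mem_range.2 h)
        exact ⟨x, fun _ => hx⟩
      · exact ⟨(Quotient.out (f 0)).2, fun h' => (h h').elim⟩
    choose x hx using h2
    exact ⟨g, x, hx⟩
  have h2 : ∀ n g (x : ℕ → V0), (∀ i < n, f i = A.pt g (x i)) → ∀ i < n, ∀ j < n, i ≠ j →
      A.E (x i) (x j) := by
    intro n g x hx i hi j hj h
    have := hf i j h
    rw [hx i hi, hx j hj] at this
    exact E'_pt this
  obtain ⟨g, x, hx⟩ := h1 3
  have e1 := h2 3 g x hx 0 (by omega) 1 (by omega) (by omega)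
  have e2 := h2 3 g x hx 1 (by omega) 2 (by omega) (by omega)
  have e3 := h2 3 g x hx 0 (by omega) 2 (by omega) (by omega)
  obtain ⟨n, hn⟩ := A.Tex _ _ _ e1 e2 e3
  obtain ⟨g', x', hx'⟩ := h1 (n + 3)
  have r : ∀ i < 3, A.Run (toWord (g'⁻¹ * g)) (x i) (x' i) := fun i hi =>
    pt_eq.1 ((hx i hi).symm.trans (hx' i (by omega)))
  have ht := (r 0 (by omega)).T (r 1 (by omega)) (r 2 (by omega)) e1 e2 e3 hn
  have hinj : Set.InjOn x' (Finset.range (n + 3) : Set ℕ) := by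
    intro i hi j hj e
    by_contra h
    have := h2 _ g' x' hx' i (by simpa using hi) j (by simpa using hj) h
    rw [e] at this
    exact A.Eirr _ this
  have := A.Tbd _ _ _ _ ht ((Finset.range (n + 3)).image x')
    (Finset.mem_image_of_mem _ (by simp)) (Finset.mem_image_of_mem _ (by simp))
    (Finset.mem_image_of_mem _ (by simp)) (by
      intro a ha b hb hne
      obtain ⟨i, hi, rfl⟩ := Finset.mem_image.1 ha
      obtain ⟨j, hj, rfl⟩ := Finset.mem_image.1 hb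
      exact h2 _ g' x' hx' i (by simpa using hi) j (by simpa using hj) (fun e => hne (e ▸ rfl)))
  rw [Finset.card_image_of_injOn hinj, Finset.card_range] at this
  omega

variable (A) in
theorem glob : ∃ (B : Type) (_ : Group B) (W : Type) (_ : MulAction B W) (ρ : M →* B) (th : Θ → B)
    (ι : V0 → W) (E' : W → W → Prop),
    (∀ m x, ρ m • ι x = ι (m • x)) ∧ (∀ θ m, m ∈ A.K θ → Commute (th θ) (ρ m)) ∧
    (∀ θ x y, A.St θ x y → th θ • ι x = ι y) ∧
    (∀ (b : B) p q, E' p q → E' (b • p) (b • q)) ∧ (∀ x y, A.E x y → E' (ι x) (ι y)) ∧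
    (∀ p q, E' p q → E' q p) ∧ (∀ p, ¬ E' p p) ∧
    ¬ ∃ f : ℕ → W, ∀ i j, i ≠ j → E' (f i) (f j) := by
  refine ⟨SD A.Om M, inferInstance, A.V', inferInstance, inr,
    fun θ => inl (of ⟨θ, ((1 : M) : M ⧸ A.K θ)⟩), A.pt 1, A.E', fun m x => ?_, fun θ m hm => ?_,
    fun θ x y h => ?_, ?_, fun x y h => ⟨1, x, y, rfl, rfl, h⟩, ?_, ?_, no_clique⟩
  · rw [smul_pt, sd_smul]; simp
  · have h1 : m • (⟨θ, ((1 : M) : M ⧸ A.K θ)⟩ : A.Om) = ⟨θ, ((1 : M) : M ⧸ A.K θ)⟩ := by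
      rw [Sigma.smul_mk, MulAction.Quotient.smul_mk]
      congr 1
      rw [QuotientGroup.eq]
      simpa using hm
    have h2 := inl_aut (φ := phi A.Om M) m (of ⟨θ, ((1 : M) : M ⧸ A.K θ)⟩)
    rw [phi_of, h1, _root_.map_inv] at h2
    show _ * _ = _ * _
    beta_reduce
    conv_lhs => rw [h2]
    group
  · rw [smul_pt, sd_smul, pt_eq]
    simp only [left_inl, right_inl, _root_.map_one, mul_one, inv_one, one_mul, toWord_of, one_smul]
    exact ⟨x, rfl, 1, rfl, by simpa using h⟩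
  · rintro b p q ⟨g, x, y, rfl, rfl, h⟩
    exact ⟨b • g, _, _, rfl, rfl, A.Einv _ _ _ h⟩
  · rintro p q ⟨g, x, y, rfl, rfl, h⟩
    exact ⟨g, y, x, rfl, rfl, A.Esymm _ _ h⟩
  · rintro p ⟨g, x, y, rfl, e, h⟩
    rw [pt_inj e] at h
    exact A.Eirr _ h

end Mach
end Pool.Agent.H337Z
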