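import Pool.Agent.H123Z.GSC.Defs

set_option autoImplicit false

namespace Pool.Agent.H123Z.GSC

namespace H337

open Polynomial

variable {ι : Type} [Fintype ι] [DecidableEq ι]

theorem pow_stab (hJ : JacobiR) (b : Matrix ι ι ℤ) (hb : ∀ k, 0 < k → Matrix.trace (b ^ k) = 1) :
    ∃ n, 0 < n ∧ b ^ (n + 1) = b ^ n := by
  let φ : Matrix ι ι ℤ →+* Matrix ι ι ℝ := (Int.castRingHom ℝ).mapMatrix
  have hφ : Function.Injective φ := Matrix.map_injective (RingHom.injective_int (Int.castRingHom ℝ))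
  have h1 := hJ ι (Fin 1) (φ b) 1 (fun k hk => by
    rw [← map_pow, one_pow, Matrix.trace_one]
    have := AddMonoidHom.map_trace (Int.castRingHom ℝ) (b ^ k)
    rw [hb k hk] at this
    simpa [φ] using this.symm)
  have h2 : (1 : Matrix (Fin 1) (Fin 1) ℝ).charpolyRev = 1 - X := by
    simp [Matrix.charpolyRev]
  have hn : 0 < Fintype.card ι := by
    rw [Fintype.card_pos_iff]
    by_contra h
    rw [not_nonempty_iff] at h
    have := hb 1 one_pos
    simp [Matrix.trace] at this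
  rw [h2, ← Matrix.reverse_charpoly, reverse, Matrix.charpoly_natDegree_eq_dim] at h1
  have h3 := congrArg (reflect (Fintype.card ι)) h1
  rw [reflect_reflect, reflect_sub, reflect_one, ← pow_one X, reflect_monomial,
    revAt_le hn] at h3
  have h4 := Matrix.aeval_self_charpoly (φ b)
  rw [h3] at h4
  simp only [pow_one, map_sub, map_pow, aeval_X, sub_eq_zero] at h4
  refine ⟨Fintype.card ι, hn, hφ ?_⟩
  rw [map_pow, map_pow, pow_succ, h4, ← pow_succ, Nat.sub_add_cancel hn, h4]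

theorem int_case (hJ : JacobiR) (b : Matrix ι ι ℤ) (hb : ∀ k, 0 < k → Matrix.trace (b ^ k) = 1) :
    ∃ (l : ℕ) (R : Matrix ι (Fin 1) ℤ) (S : Matrix (Fin 1) ι ℤ),
      0 < l ∧ b * R = R ∧ S * b = S ∧ R * S = b ^ l ∧ S * R = 1 := by
  obtain ⟨n, hn, h⟩ := pow_stab hJ b hb
  have h1 : ∀ k, b ^ (n + k) = b ^ n := by
    intro k
    induction k with
    | zero => rfl
    | succ k ih => rw [← add_assoc, pow_succ, ih, ← pow_succ, h]
  have h2 : IsIdempotentElem (Matrix.toLin' (b ^ n)) := by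
    show _ ∘ₗ _ = _
    rw [← Matrix.toLin'_mul, ← pow_add, h1]
  have h3 := (LinearMap.IsIdempotentElem.isProj_range _ h2).trace
  rw [Matrix.trace_toLin'_eq, hb n hn] at h3
  let β := Module.finBasisOfFinrankEq ℤ (LinearMap.range (Matrix.toLin' (b ^ n)))
    (n := 1) (by exact_mod_cast h3.symm)
  let R : Matrix ι (Fin 1) ℤ := Matrix.of fun i k => (β k).1 i
  let S : Matrix (Fin 1) ι ℤ := Matrix.of fun k j =>
    β.repr ⟨_, LinearMap.mem_range_self (Matrix.toLin' (b ^ n)) (Pi.single j 1)⟩ k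
  have e1 : R * S = b ^ n := by
    ext i j
    have := congrFun (congrArg Subtype.val
      (β.sum_repr ⟨_, LinearMap.mem_range_self (Matrix.toLin' (b ^ n)) (Pi.single j 1)⟩)) i
    simpa [R, S, Matrix.mul_apply, mul_comm, -Matrix.toLin'_pow] using this
  have e2 : b ^ n * R = R := by
    ext i k
    obtain ⟨y, hy⟩ := (β k).2
    have : Matrix.toLin' (b ^ n) (β k).1 = (β k).1 := by
      rw [← hy]; exact LinearMap.congr_fun h2 y
    simpa [R, Matrix.mul_apply, Matrix.mulVec, dotProduct, -Matrix.toLin'_pow] using congrFun this i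
  have e3 : S * R = 1 := by
    have h4 : (β 0).1 ≠ 0 := fun e => β.ne_zero 0 (Subtype.ext e)
    obtain ⟨i, hi⟩ := Function.ne_iff.1 h4
    have h5 : R * (S * R) = R := by rw [← Matrix.mul_assoc, e1, e2]
    have h6 := congrFun (congrFun h5 i) 0
    rw [Matrix.mul_apply, Fin.sum_univ_one] at h6
    ext k k'
    rw [Subsingleton.elim k 0, Subsingleton.elim k' 0, Matrix.one_apply_eq]
    exact mul_left_cancel₀ (show R i 0 ≠ 0 from hi) (h6.trans (mul_one _).symm)
  refine ⟨n, R, S, hn, ?_, ?_, e1, e3⟩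
  · rw [← e2, ← Matrix.mul_assoc, ← pow_succ', h]
  · have : S * b ^ n = S := by rw [← e1, ← Matrix.mul_assoc, e3, Matrix.one_mul]
    rw [← this, Matrix.mul_assoc, ← pow_succ, h]

end H337

theorem trivial_case (hJ : JacobiR) {ι G : Type} [Fintype ι] [DecidableEq ι] [Group G] [Fintype G]
    [Subsingleton G] (B : MZ ι G) (hB : ∀ k, 0 < k → (Matrix.trace (B ^ k)).coeff 1 = 1) :
    ∃ (l : ℕ) (R : Matrix ι (Fin 1) (MonoidAlgebra ℤ G)) (S : Matrix (Fin 1) ι (MonoidAlgebra ℤ G)),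
      0 < l ∧ B * R = R ∧ S * B = S ∧ R * S = B ^ l ∧ S * R = 1 := by
  let e : MonoidAlgebra ℤ G ≃+* ℤ := MonoidAlgebra.uniqueRingEquiv G
  obtain ⟨l, R, S, h0, h1, h2, h3, h4⟩ := H337.int_case hJ (e.mapMatrix B) (fun k hk => by
    rw [← map_pow]
    have := AddMonoidHom.map_trace e (B ^ k)
    exact this.symm.trans (hB k hk))
  have hb : (e.mapMatrix B).map e.symm = B := by ext1 i j; exact e.symm_apply_apply _
  have hl : ((e.mapMatrix B) ^ l).map e.symm = B ^ l := by
    rw [← map_pow]; ext1 i j; exact e.symm_apply_apply _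
  refine ⟨l, R.map e.symm, S.map e.symm, h0, ?_, ?_, ?_, ?_⟩
  · rw [← hb, ← Matrix.map_mul, h1]
  · rw [← hb, ← Matrix.map_mul, h2]
  · rw [← Matrix.map_mul, h3, hl]
  · rw [← Matrix.map_mul, h4, Matrix.map_one _ (map_zero _) (map_one _)]

end Pool.Agent.H123Z.GSC
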