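import Mathlib

/-! A minimal group of countable tightness that is not sequential. -/

set_option autoImplicit false
open Filter Topology Set

namespace Pool.Agent.H337Z.Heis

abbrev K := ZMod 2
abbrev E := ℕ →₀ K
abbrev F := Module.Dual K E

@[ext] structure H where
  a : K
  x : E
  f : F

noncomputable instance : Group H where
  mul g h := ⟨g.a + h.a + g.f h.x, g.x + h.x, g.f + h.f⟩
  one := ⟨0, 0, 0⟩
  inv g := ⟨-g.a + g.f g.x, -g.x, -g.f⟩
  mul_assoc g h k := H.ext (by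
      show g.a + h.a + g.f h.x + k.a + (g.f + h.f) k.x = g.a + (h.a + k.a + h.f k.x) + g.f (h.x + k.x)
      simp only [LinearMap.add_apply, map_add]; ring)
    (add_assoc _ _ _) (add_assoc _ _ _)
  one_mul g := H.ext (by show 0 + g.a + (0 : F) g.x = g.a; simp) (zero_add _) (zero_add _)
  mul_one g := H.ext (by show g.a + 0 + g.f 0 = g.a; simp) (add_zero _) (add_zero _)
  inv_mul_cancel g := H.ext (by
      show -g.a + g.f g.x + g.a + (-g.f) g.x = 0
      rw [LinearMap.neg_apply]; ring)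
    (neg_add_cancel _) (neg_add_cancel _)

@[simp] theorem mul_a (g h : H) : (g * h).a = g.a + h.a + g.f h.x := rfl
@[simp] theorem mul_x (g h : H) : (g * h).x = g.x + h.x := rfl
@[simp] theorem mul_f (g h : H) : (g * h).f = g.f + h.f := rfl
@[simp] theorem inv_a (g : H) : (g⁻¹).a = -g.a + g.f g.x := rfl
@[simp] theorem inv_x (g : H) : (g⁻¹).x = -g.x := rfl
@[simp] theorem inv_f (g : H) : (g⁻¹).f = -g.f := rfl
@[simp] theorem one_a : (1 : H).a = 0 := rfl
@[simp] theorem one_x : (1 : H).x = 0 := rfl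
@[simp] theorem one_f : (1 : H).f = 0 := rfl

def N (s : Finset F) : Set H := {g | g.a = 0 ∧ g.f = 0 ∧ ∀ φ ∈ s, φ g.x = 0}

theorem N_mono {s t : Finset F} (h : s ⊆ t) : N t ⊆ N s :=
  fun _ hg => ⟨hg.1, hg.2.1, fun φ hφ => hg.2.2 φ (h hφ)⟩

open Classical in
@[reducible] noncomputable def gfb : GroupFilterBasis H where
  sets := range N
  nonempty := range_nonempty _
  inter_sets := by
    rintro _ _ ⟨s, rfl⟩ ⟨t, rfl⟩
    exact ⟨_, ⟨s ∪ t, rfl⟩, subset_inter (N_mono Finset.subset_union_left)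
      (N_mono Finset.subset_union_right)⟩
  one' := by rintro _ ⟨s, rfl⟩; exact ⟨rfl, rfl, fun φ _ => map_zero φ⟩
  mul' := by
    rintro _ ⟨s, rfl⟩
    refine ⟨_, ⟨s, rfl⟩, ?_⟩
    rintro _ ⟨g, hg, h, hh, rfl⟩
    exact ⟨by simp [hg.1, hh.1, hg.2.1], by simp [hg.2.1, hh.2.1],
      fun φ hφ => by simp [hg.2.2 φ hφ, hh.2.2 φ hφ]⟩
  inv' := by
    rintro _ ⟨s, rfl⟩
    exact ⟨_, ⟨s, rfl⟩, fun g hg => ⟨by simp [hg.1, hg.2.1], by simp [hg.2.1],
      fun φ hφ => by simp [hg.2.2 φ hφ]⟩⟩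
  conj' := by
    rintro g _ ⟨s, rfl⟩
    refine ⟨_, ⟨insert g.f s, rfl⟩, fun h hh => ⟨?_, by simp [hh.2.1], fun φ hφ => ?_⟩⟩
    · simp only [mul_a, mul_f, inv_a, inv_x, hh.1, hh.2.1, hh.2.2 g.f (Finset.mem_insert_self _ _),
        add_zero, map_neg]
      ring
    · simp [hh.2.2 φ (Finset.mem_insert_of_mem hφ)]

noncomputable instance tau : TopologicalSpace H := gfb.topology

instance : IsTopologicalGroup H := gfb.isTopologicalGroup

theorem basis : (𝓝 (1 : H)).HasBasis (fun _ : Finset F => True) N := by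
  refine gfb.nhds_one_hasBasis.to_hasBasis ?_ (fun s _ => ⟨N s, ⟨s, rfl⟩, Subset.rfl⟩)
  rintro _ ⟨s, rfl⟩
  exact ⟨s, trivial, Subset.rfl⟩

theorem N_mem (s : Finset F) : N s ∈ 𝓝 (1 : H) := basis.mem_of_mem trivial

theorem sep {x : E} (hx : x ≠ 0) : ∃ φ : F, φ x ≠ 0 := by
  obtain ⟨φ, h, -⟩ := Submodule.exists_le_ker_of_notMem (K := K) (p := ⊥) (v := x) (by simpa using hx)
  exact ⟨φ, h⟩

instance : T2Space H := IsTopologicalGroup.t2Space_of_one_sep (fun g hg => by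
  by_cases hx : g.x = 0
  · exact ⟨_, N_mem ∅, fun h => hg (H.ext h.1 hx h.2.1)⟩
  · obtain ⟨φ, h⟩ := sep hx
    exact ⟨_, N_mem {φ}, fun k => h (k.2.2 φ (Finset.mem_singleton_self _))⟩)

theorem tight (S : Set H) (x : H) (hx : x ∈ closure S) :
    ∃ B ⊆ S, B.Countable ∧ x ∈ closure B := by
  have h1 : (N ∅).Countable :=
    Set.countable_of_injective_of_countable_image (f := H.x)
      (fun g hg h hh e => H.ext (hg.1.trans hh.1.symm) e (hg.2.1.trans hh.2.1.symm)) (to_countable _)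
  have h2 : (fun g => x⁻¹ * g) ⁻¹' N ∅ ∈ 𝓝 x :=
    (continuous_const_mul x⁻¹).continuousAt.preimage_mem_nhds (by simpa using N_mem ∅)
  refine ⟨S ∩ (fun g => x⁻¹ * g) ⁻¹' N ∅, inter_subset_left,
    (h1.preimage (mul_right_injective _)).mono inter_subset_right, ?_⟩
  rw [mem_closure_iff_nhds] at hx ⊢
  intro t ht
  obtain ⟨y, ⟨h3, h4⟩, h5⟩ := hx _ (inter_mem ht h2)
  exact ⟨y, h3, h5, h4⟩

theorem seq_zero (x : ℕ → E) (h : ∀ φ : F, ∀ᶠ n in atTop, φ (x n) = 0) : ∃ n, x n = 0 := by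
  obtain ⟨b, hb, hs, hl⟩ := exists_linearIndependent K (range x)
  have hl' : LinearIndepOn K id b := hl
  let φ : F := (Module.Basis.extend hl').constr K (fun _ => 1)
  have h1 : ∀ y ∈ b, φ y = 1 := fun y hy => by
    have := (Module.Basis.extend hl').constr_basis K (fun _ => (1 : K))
      ⟨y, Module.Basis.subset_extend hl' hy⟩
    rwa [Module.Basis.extend_apply_self] at this
  obtain ⟨M, hM⟩ := eventually_atTop.1 (h φ)
  have h2 : b.Finite := ((finite_lt_nat M).image x).subset (fun y hy => by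
    obtain ⟨n, rfl⟩ := hb hy
    refine ⟨n, (not_le (a := M) (b := n)).1 (fun hn => ?_), rfl⟩
    have := h1 _ hy
    rw [hM n hn] at this
    exact zero_ne_one this)
  have : Module.Finite K (Submodule.span K b) := Module.Finite.span_of_finite K h2
  have : Finite (Submodule.span K b) := Module.finite_of_finite K
  have h3 : (range x).Finite :=
    (toFinite (Submodule.span K b : Set E)).subset (hs ▸ Submodule.subset_span)
  by_contra hn
  push Not at hn
  have h4 : ∀ y ∈ range x, ∀ᶠ n in atTop, x n ≠ y := by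
    rintro _ ⟨m, rfl⟩
    obtain ⟨ψ, hψ⟩ := sep (hn m)
    exact (h ψ).mono (fun n e e' => hψ (e' ▸ e))
  obtain ⟨n, h5⟩ := ((eventually_all_finite h3).2 h4).exists
  exact h5 _ ⟨n, rfl⟩ rfl

theorem not_seq : ¬ SequentialSpace H := by
  intro h
  have h1 : IsSeqClosed ({1}ᶜ : Set H) := by
    intro u p hu hp e
    rw [mem_singleton_iff] at e
    subst e
    obtain ⟨M, hM⟩ := eventually_atTop.1 (hp.eventually (N_mem ∅))
    obtain ⟨n, hn⟩ := seq_zero (fun n => (u (n + M)).x) (fun φ =>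
      ((hp.comp (tendsto_add_atTop_nat M)).eventually (N_mem {φ})).mono
        (fun n k => k.2.2 φ (Finset.mem_singleton_self _)))
    have := hM (n + M) (by omega)
    exact hu (n + M) (H.ext this.1 hn this.2.1)
  obtain ⟨s, -, hs⟩ := basis.mem_iff.1 ((isClosed_compl_iff.1 h1.isClosed).mem_nhds rfl)
  obtain ⟨x, y, hne, e⟩ := Finite.exists_ne_map_eq_of_infinite (fun (x : E) (φ : s) => φ.1 x)
  have : (⟨0, x - y, 0⟩ : H) = 1 := hs ⟨rfl, rfl, fun φ hφ => by
    rw [map_sub, sub_eq_zero]; exact congrFun e ⟨φ, hφ⟩⟩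
  exact hne (sub_eq_zero.1 (congrArg H.x this))

theorem perp_fin (s : Finset F) : {f : F | ∀ x, (∀ φ ∈ s, φ x = 0) → f x = 0}.Finite := by
  let π : E → s → K := fun x φ => φ.1 x
  refine Finite.of_finite_image (f := fun (f : F) (v : s → K) => f (Function.invFun π v))
    (toFinite _) (fun f hf g hg e => LinearMap.ext (fun x => ?_))
  have h1 : ∀ φ ∈ s, φ (x - Function.invFun π (π x)) = 0 := fun φ hφ => by
    rw [map_sub, sub_eq_zero]
    exact (congrFun (Function.invFun_eq (f := π) ⟨x, rfl⟩) ⟨φ, hφ⟩).symm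
  have h2 := hf _ h1
  have h3 := hg _ h1
  rw [map_sub, sub_eq_zero] at h2 h3
  rw [h2, h3]; exact congrFun e _

noncomputable def c : H := ⟨1, 0, 0⟩

theorem K_cases (a : K) : a = 0 ∨ a = 1 := by revert a; decide

theorem comm_eq (g h : H) (e : g * h * g⁻¹ * h⁻¹ ≠ c) : g.f h.x = h.f g.x := by
  have : (g * h * g⁻¹ * h⁻¹).a = g.f h.x - h.f g.x := by
    simp only [mul_a, mul_f, mul_x, inv_a, inv_x, inv_f, map_neg, LinearMap.add_apply,
      LinearMap.neg_apply]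
    ring
  rcases K_cases (g.f h.x - h.f g.x) with k | k
  · exact sub_eq_zero.1 k
  · exact (e (H.ext (this.trans k) (by simp [c]) (by simp [c]))).elim

theorem N_mem' (σ : TopologicalSpace H) (h1 : @IsTopologicalGroup H σ _) (h2 : @T2Space H σ)
    (h3 : ∀ U ∈ @nhds H σ 1, ∃ s, N s ⊆ U) (s : Finset F) : N s ∈ @nhds H σ 1 := by
  let := σ
  have hc : ({c}ᶜ : Set H) ∈ 𝓝 (1 : H) := isOpen_compl_singleton.mem_nhds (fun e => by
    have : (0 : K) = 1 := congrArg H.a e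
    exact zero_ne_one this)
  have k1 : ∀ g : H, ∀ᶠ h in 𝓝 (1 : H), g.f h.x = h.f g.x := fun g => by
    have : Continuous (fun h : H => g * h * g⁻¹ * h⁻¹) := by fun_prop
    exact (this.continuousAt.eventually_mem (s := {c}ᶜ) (by
      rwa [mul_one, mul_inv_cancel, inv_one, mul_one])).mono (fun h e => comm_eq g h e)
  have k2 : ∀ᶠ p : H × H in 𝓝 1 ×ˢ 𝓝 1, p.1 * p.2 * p.1⁻¹ * p.2⁻¹ ≠ c ∧ p.1 * p.2 ≠ c := by
    rw [← nhds_prod_eq]
    have a1 : Continuous (fun p : H × H => p.1 * p.2 * p.1⁻¹ * p.2⁻¹) := by fun_prop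
    have a2 : Continuous (fun p : H × H => p.1 * p.2) := by fun_prop
    exact (a1.continuousAt.eventually_mem (s := {c}ᶜ) (by
      simp only [mul_one, inv_one]; exact hc)).and
      (a2.continuousAt.eventually_mem (s := {c}ᶜ) (by simp only [mul_one]; exact hc))
  obtain ⟨U, hU, k2⟩ := (eventually_prod_self_iff
    (r := fun g h : H => g * h * g⁻¹ * h⁻¹ ≠ c ∧ g * h ≠ c)).1 k2
  obtain ⟨t, ht⟩ := h3 U hU
  have k3 : ∀ φ : F, ∀ᶠ h in 𝓝 (1 : H), φ h.x = 0 := fun φ => by simpa using k1 ⟨0, 0, φ⟩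
  have k4 : ∀ f ∈ {f : F | ∀ x, (∀ φ ∈ t, φ x = 0) → f x = 0}, ∀ᶠ h in 𝓝 (1 : H),
      h.f = f → f = 0 := fun f _ => by
    by_cases hf : f = 0
    · exact Eventually.of_forall (fun _ _ => hf)
    · obtain ⟨x, hx⟩ := DFunLike.ne_iff.1 hf
      refine (k1 ⟨0, x, 0⟩).mono (fun h e e' => (hx ?_).elim)
      rw [← e']; simpa using e.symm
  filter_upwards [hU, (eventually_all_finite (perp_fin t)).2 k4,
    (eventually_all_finset t).2 (fun φ _ => k3 φ), (eventually_all_finset s).2 (fun φ _ => k3 φ)]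
    with h e1 e2 e3 e4
  have e5 : h.f = 0 := e2 h.f (fun x hx => by
    simpa using comm_eq _ _ (k2 h e1 ⟨0, x, 0⟩ (ht ⟨rfl, rfl, hx⟩)).1) rfl
  refine ⟨(K_cases h.a).resolve_right (fun e6 => ?_), e5, e4⟩
  refine (k2 h e1 ⟨0, -h.x, 0⟩ (ht ⟨rfl, rfl, fun φ hφ => by simp [e3 φ hφ]⟩)).2 ?_
  exact H.ext (by simp [c, e5, e6]) (by simp [c]) (by simp [c, e5])

theorem minimal (σ : TopologicalSpace H) (h1 : @IsTopologicalGroup H σ _) (h2 : @T2Space H σ)
    (h3 : tau ≤ σ) : σ = tau := by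
  refine IsTopologicalGroup.ext h1 inferInstance (le_antisymm ?_ (nhds_mono h3))
  refine basis.ge_iff.2 (fun s _ => N_mem' σ h1 h2 (fun U hU => ?_) s)
  obtain ⟨t, -, ht⟩ := basis.mem_iff.1 (nhds_mono h3 hU)
  exact ⟨t, ht⟩

end Pool.Agent.H337Z.Heis
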