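import Pool.Agent.H953Z.St

set_option autoImplicit false
open MeasureTheory Filter ProbabilityTheory Set

namespace Pool.Agent.H337Z.Loop

open Pool.Agent.H953Z

theorem shift_iter {α : Type} (x : ℤ → α) (t : ℕ) (u : ℤ) : (shift^[t] x) u = x (u + t) := by
  induction t generalizing u with
  | zero => simp
  | succ t ih =>
    rw [Function.iterate_succ_apply']
    show (shift^[t] x) (u + 1) = _
    rw [ih]; congr 1; push_cast; ring

theorem meas_shift {α : Type} [MeasurableSpace α] : Measurable (shift : (ℤ → α) → ℤ → α) :=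
  measurable_pi_lambda _ (fun _ => measurable_pi_apply _)

theorem Hn_ge {X A : Type} [MeasurableSpace X] [Fintype A] [MeasurableSpace A]
    [MeasurableSingletonClass A] (ν : Measure X) [IsProbabilityMeasure ν] {T : X → X}
    (hT : Measurable T) {p : X → A} (hp : Measurable p) (N : ℕ) (c : ℝ)
    (h : ∀ w : Fin N → A, (ν {z | ∀ i : Fin N, p (T^[(i : ℕ)] z) = w i}).toReal ≤ Real.exp (-c)) :
    c ≤ Hn ν T p N := by
  classical
  let Y : X → Fin N → A := fun z i => p (T^[(i : ℕ)] z)
  have hY : Measurable Y := measurable_pi_lambda _ (fun i => hp.comp (hT.iterate i))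
  have e : ∀ w, {z | ∀ i : Fin N, p (T^[(i : ℕ)] z) = w i} = Y ⁻¹' {w} := fun w => by
    ext z; simp [Y, funext_iff]
  have h1 := sum_measureReal_preimage_singleton (μ := ν) Finset.univ (f := Y)
    (fun w _ => hY (measurableSet_singleton w))
  simp only [Finset.coe_univ, preimage_univ, probReal_univ] at h1
  calc c = ∑ w : Fin N → A, ν.real (Y ⁻¹' {w}) * c := by rw [← Finset.sum_mul, h1, one_mul]
    _ ≤ _ := Finset.sum_le_sum (fun w _ => by
      have h2 := h w
      rw [e] at h2 ⊢
      show (ν (Y ⁻¹' {w})).toReal * c ≤ _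
      generalize hm : (ν (Y ⁻¹' {w})).toReal = m at h2
      have h0 : 0 ≤ m := hm ▸ ENNReal.toReal_nonneg
      rcases h0.eq_or_lt with rfl | h0
      · simp
      · have := (Real.log_le_iff_le_exp h0).2 h2
        rw [Real.negMulLog]; nlinarith)

theorem erg_zmod (n : ℕ) [NeZero n] : Ergodic (fun j : ZMod n => j + 1) (uniformOn univ) := by
  refine ⟨⟨measurable_from_top, ?_⟩, ⟨fun s _ hs => ?_⟩⟩
  · ext s hs
    rw [Measure.map_apply measurable_from_top hs, uniformOn_univ, uniformOn_univ,
      ← Measure.count_injective_image (add_left_injective (1 : ZMod n)),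
      image_preimage_eq _ (add_right_surjective (1 : ZMod n))]
  · rw [eventuallyConst_set]
    have h1 : ∀ (k : ℕ) (j : ZMod n), j + k ∈ s ↔ j ∈ s := by
      intro k
      induction k with
      | zero => simp
      | succ k ih =>
        intro j
        rw [← ih j]
        conv_rhs => rw [← hs]
        simp [add_assoc]
    by_cases h0 : (0 : ZMod n) ∈ s
    · exact Or.inl (Eventually.of_forall (fun j => by simpa using (h1 j.val 0).2 h0))
    · exact Or.inr (Eventually.of_forall (fun j hj => h0 ((h1 j.val 0).1 (by simpa using hj))))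

section
variable {n : ℕ} [NeZero n] {S : Finset (Fin (n + 1) → ℕ)}

def ix (j : ZMod n) : Fin (n + 1) := ⟨j.val, (ZMod.val_lt j).trans (Nat.lt_succ_self n)⟩

def phi (ω : ZMod n × (ℤ → S)) (t : ℤ) : ℕ :=
  (ω.2 (t - (ω.1 + t).val)).1 (ix (ω.1 + t))

theorem phi_eq (j : ZMod n) (a : ℤ → S) (s : ℤ) (hs : j + s = 0) (i : Fin n) :
    phi (j, a) (s + (i : ℕ)) = (a s).1 i.castSucc := by
  have h1 : (j + ((s + (i : ℕ) : ℤ) : ZMod n)).val = i := by
    push_cast
    rw [← add_assoc, hs, zero_add, ZMod.val_natCast, Nat.mod_eq_of_lt i.2]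
  have h2 : ix (j + ((s + (i : ℕ) : ℤ) : ZMod n)) = i.castSucc := Fin.ext h1
  simp only [phi, h1, h2, add_sub_cancel_right]

theorem phi_path {E : Set (ℕ × ℕ)} {v : ℕ}
    (hS : ∀ w ∈ S, w 0 = v ∧ w (Fin.last n) = v ∧ ∀ i : Fin n, (w i.castSucc, w i.succ) ∈ E)
    (ω : ZMod n × (ℤ → S)) : phi ω ∈ PathSet E := by
  obtain ⟨j, a⟩ := ω
  intro t
  let i : Fin n := ⟨(j + t).val, ZMod.val_lt _⟩
  have hs : j + ((t - (i : ℕ) : ℤ) : ZMod n) = 0 := by
    simp [i]
  have e1 := phi_eq j a _ hs i
  rw [sub_add_cancel] at e1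
  have e2 : phi (j, a) (t + 1) = (a (t - (i : ℕ))).1 i.succ := by
    by_cases hi : (i : ℕ) + 1 < n
    · have := phi_eq j a _ hs ⟨i + 1, hi⟩
      rw [show t + 1 = t - (i : ℕ) + ((i : ℕ) + 1 : ℕ) by push_cast; ring]
      exact this
    · have hn : n = i + 1 := by have := i.2; omega
      have := phi_eq j a (t - (i : ℕ) + n) (by
        rw [Int.cast_add, ← add_assoc, hs]; simp) ⟨0, NeZero.pos n⟩
      have e3 : i.succ = Fin.last n := Fin.ext (by simp; omega)
      rw [e3, (hS _ (a _).2).2.1, ← (hS _ (a (t - (i : ℕ) + n)).2).1]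
      rw [show t + 1 = t - (i : ℕ) + n + (0 : ℕ) by omega]
      exact this
  rw [e1, e2]
  exact (hS _ (a _).2).2.2 i

theorem phi_semi : Function.Semiconj (phi (n := n) (S := S))
    (fun p : ZMod n × (ℤ → S) => (p.1 + 1, shift p.2)) shift := by
  rintro ⟨j, a⟩
  funext t
  have e : j + 1 + (t : ZMod n) = j + ((t + 1 : ℤ) : ZMod n) := by push_cast; ring
  simp only [phi, shift, e]
  rw [sub_add_eq_add_sub]

end

theorem thm_loop : S_erg → S_loop := by
  intro herg E h hh hE v n S hS
  classical
  by_cases h1 : S.card ≤ 1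
  · exact le_trans (by exact_mod_cast h1) (Real.one_le_exp (by positivity))
  have hn : n ≠ 0 := by
    rintro rfl
    refine h1 (Finset.card_le_one.2 (fun a ha b hb => funext fun i => ?_))
    rw [Fin.fin_one_eq_zero i, (hS a ha).1, (hS b hb).1]
  have : NeZero n := ⟨hn⟩
  have hn0 : 0 < n := Nat.pos_of_ne_zero hn
  have : Nonempty S := (Finset.card_pos.1 (by omega)).to_subtype
  let _ : MeasurableSpace S := ⊤
  have : MeasurableSingletonClass S := ⟨fun _ => trivial⟩
  let κ : Measure (ℤ → S) := Measure.infinitePi fun _ : ℤ => (uniformOn univ : Measure S)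
  let P : Measure (ZMod n × (ℤ → S)) := (uniformOn univ : Measure (ZMod n)).prod κ
  have e1 := herg (ZMod n) S (uniformOn univ) (uniformOn univ) _ (erg_zmod n)
  have hφ : Measurable (phi (n := n) (S := S)) := measurable_pi_lambda _ (fun t =>
    measurable_from_prod_countable_right (fun j =>
      (measurable_from_top (f := fun w : S => w.1 (ix (j + t)))).comp (measurable_pi_apply (t - (j + t).val))))
  let ν := P.map phi
  have : IsProbabilityMeasure ν := Measure.isProbabilityMeasure_map hφ.aemeasurable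
  have e2 : Ergodic shift ν :=
    (hφ.measurePreserving P).ergodic_of_ergodic_semiconj e1 meas_shift phi_semi
  have e3 : ν (PathSet E) = 1 := by
    have hm : MeasurableSet (PathSet E) := by
      have : PathSet E = ⋂ t : ℤ, (fun x : ℤ → ℕ => (x t, x (t + 1))) ⁻¹' E := by
        ext x; simp [PathSet]
      rw [this]
      exact MeasurableSet.iInter (fun t => ((measurable_pi_apply t).prodMk
        (measurable_pi_apply (t + 1))) (to_countable E).measurableSet)
    rw [Measure.map_apply hφ hm, eq_univ_of_forall (s := phi ⁻¹' PathSet E) (fun ω => phi_path hS ω),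
      measure_univ]
  let res : S → Fin n → ℕ := fun w i => w.1 i.castSucc
  have hres : Function.Injective res := fun a b e => Subtype.ext (funext fun i => by
    induction i using Fin.lastCases with
    | last => rw [(hS _ a.2).2.1, (hS _ b.2).2.1]
    | cast i => exact congrFun e i)
  let g : (Fin n → ℕ) → S := Function.invFun res
  let eq := Fintype.equivFin (Fin n → S)
  let p : (ℤ → ℕ) → Fin (Fintype.card (Fin n → S)) :=
    fun x => eq (fun m => g (fun i => x ((m : ℕ) + (i : ℕ))))
  have hp : Measurable p :=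
    (measurable_of_countable (fun u : Fin n → Fin n → ℕ => eq (fun m => g (u m)))).comp
      (measurable_pi_lambda _ fun m => measurable_pi_lambda _ fun i => measurable_pi_apply _)
  have hZ : (1 : ℝ) < S.card := by exact_mod_cast not_le.1 h1
  have key : ∀ N : ℕ, Real.log S.card / n * N ≤ Hn ν shift p N := by
    intro N
    refine Hn_ge ν meas_shift hp N _ (fun w => ?_)
    have hm : MeasurableSet {z : ℤ → ℕ | ∀ i : Fin N, p (shift^[(i : ℕ)] z) = w i} := by
      rw [ofPred_forall]
      exact MeasurableSet.iInter (fun i => (hp.comp (meas_shift.iterate i)) (measurableSet_singleton _))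
    let M := (N + n - 1) / n
    have hM : ∀ q < M, n * q < N := fun q hq => by
      have h2 := Nat.mul_div_le (N + n - 1) n
      have h3 := Nat.mul_le_mul_left n (Nat.succ_le_of_lt hq)
      rw [Nat.mul_succ] at h3
      simp only [M] at h3
      omega
    have hM' : N ≤ n * M := by
      have h2 := Nat.div_add_mod (N + n - 1) n
      have h3 := Nat.mod_lt (N + n - 1) hn0
      simp only [M]
      omega
    have hb : ν {z : ℤ → ℕ | ∀ i : Fin N, p (shift^[(i : ℕ)] z) = w i} ≤
        ((S.card : ENNReal)⁻¹) ^ M := by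
      rw [Measure.map_apply hφ hm, Measure.prod_apply (hφ hm)]
      refine (lintegral_mono (g := fun _ => ((S.card : ENNReal)⁻¹) ^ M) (fun j => ?_)).trans (by simp)
      show κ _ ≤ _
      let m : Fin n := ⟨(-j).val, ZMod.val_lt _⟩
      have hk : ∀ a : ℤ → S, ∀ q : ℕ, eq.symm (p (shift^[n * q] (phi (j, a)))) m =
          a (((m : ℕ) + n * q : ℕ) : ℤ) := fun a q => by
        simp only [p, Equiv.symm_apply_apply, shift_iter]
        refine Eq.trans ?_ (Function.leftInverse_invFun hres _)
        congr 1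
        funext i
        have := phi_eq j a (((m : ℕ) + n * q : ℕ) : ℤ) (by simp [m]) i
        convert this using 2
        push_cast; ring
      rcases eq_empty_or_nonempty (Prod.mk j ⁻¹' (phi ⁻¹'
        {z : ℤ → ℕ | ∀ i : Fin N, p (shift^[(i : ℕ)] z) = w i})) with h0 | ⟨a0, h0⟩
      · rw [h0]; simp
      let T : Finset ℤ := (Finset.range M).image (fun q => (((m : ℕ) + n * q : ℕ) : ℤ))
      have hT : T.card = M := by
        rw [Finset.card_image_of_injective _ (fun a b e => by
          have : (m : ℕ) + n * a = m + n * b := by exact_mod_cast e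
          exact Nat.eq_of_mul_eq_mul_left hn0 (by omega)), Finset.card_range]
      refine (measure_mono (t := Set.pi T (fun s => {a0 s})) (fun a ha s hs => ?_)).trans ?_
      · obtain ⟨q, hq, rfl⟩ := Finset.mem_image.1 hs
        have hq' := hM q (Finset.mem_range.1 hq)
        have a1 : p (shift^[n * q] (phi (j, a))) = w ⟨_, hq'⟩ := ha ⟨_, hq'⟩
        have a2 : p (shift^[n * q] (phi (j, a0))) = w ⟨_, hq'⟩ := h0 ⟨_, hq'⟩
        rw [mem_singleton_iff, ← hk a, ← hk a0, a1, a2]
      · rw [Measure.infinitePi_pi _ (fun _ _ => measurableSet_singleton _)]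
        simp [uniformOn_univ, hT]
    refine (ENNReal.toReal_mono (ENNReal.pow_ne_top (ENNReal.inv_ne_top.2 (Nat.cast_ne_zero.2 (by omega)))) hb).trans ?_
    rw [ENNReal.toReal_pow, ENNReal.toReal_inv, ENNReal.toReal_natCast,
      ← Real.exp_log (inv_pos.2 (zero_lt_one.trans hZ)), ← Real.exp_nat_mul, Real.log_inv]
    refine Real.exp_le_exp.2 ?_
    have h5 : (N : ℝ) ≤ n * M := by exact_mod_cast hM'
    have h6 := Real.log_pos hZ
    have h7 : (0 : ℝ) < n := by exact_mod_cast hn0
    rw [mul_neg, neg_le_neg_iff, div_mul_eq_mul_div, div_le_iff₀ h7]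
    nlinarith
  have h6 := Real.log_pos hZ
  have h7 : (0 : ℝ) < n := by exact_mod_cast hn0
  have e4 : PosEnt shift ν := by
    refine ⟨_, fun i => p ⁻¹' {i}, fun i => hp (measurableSet_singleton i),
      fun i j hij => (disjoint_singleton.2 hij).preimage p, by ext x; simp,
      Real.log S.card / n, by positivity, fun N _ => (key N).trans (le_of_eq ?_)⟩
    refine Finset.sum_congr rfl (fun w _ => ?_)
    congr 3
    ext z; simp
  have e5 := hE ν inferInstance e2 e3 e4 _ p (fun i => hp (measurableSet_singleton i))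
  have e6 : Real.log S.card / n ≤ h := le_of_forall_pos_le_add (fun ε hε => by
    obtain ⟨N, hN, hN1⟩ := ((e5 ε hε).and (eventually_gt_atTop 0)).exists
    have h8 : (0 : ℝ) < N := by exact_mod_cast hN1
    have := (key N).trans hN
    rw [mul_comm] at this
    exact le_of_mul_le_mul_left this h8)
  rw [div_le_iff₀ h7] at e6
  exact (Real.log_le_iff_le_exp (zero_lt_one.trans hZ)).1 e6

end Pool.Agent.H337Z.Loop
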