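import Mathlib

/-! Invariant means on sets with a group action. -/

set_option autoImplicit false
open Classical Pointwise Filter Topology

namespace Pool.Agent.H337Z

/-- A finitely additive invariant probability on all subsets of `X`. -/
structure Mean (R : Type*) [Group R] (X : Type*) [MulAction R X] where
  μ : Set X → ℝ
  nonneg : ∀ A, 0 ≤ μ A
  univ : μ Set.univ = 1
  add : ∀ A B, Disjoint A B → μ (A ∪ B) = μ A + μ B
  inv : ∀ (g : R) A, μ (g • A) = μ A

namespace Mean
variable {R : Type*} [Group R] {X : Type*} [MulAction R X] (m : Mean R X)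

theorem compl (A : Set X) : m.μ Aᶜ = 1 - m.μ A := by
  have := m.add A Aᶜ disjoint_compl_right
  rw [Set.union_compl_self, m.univ] at this
  linarith

theorem empty : m.μ ∅ = 0 := by
  have := m.compl Set.univ
  rw [Set.compl_univ, m.univ] at this
  linarith

theorem mono {A B : Set X} (h : A ⊆ B) : m.μ A ≤ m.μ B := by
  have := m.add A (B \ A) Set.disjoint_sdiff_right
  rw [Set.union_sdiff_cancel h] at this
  have := m.nonneg (B \ A)
  linarith

theorem le_one (A : Set X) : m.μ A ≤ 1 := by
  rw [← m.univ]; exact m.mono (Set.subset_univ _)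

theorem disj2 {A B : Set X} (h : Disjoint A B) : m.μ A + m.μ B ≤ 1 := by
  rw [← m.add A B h]; exact m.le_one _

theorem disj3 {A B C : Set X} (h : Disjoint A B) (h1 : Disjoint A C) (h2 : Disjoint B C) :
    m.μ A + m.μ B + m.μ C ≤ 1 := by
  rw [← m.add A B h, ← m.add _ C (Set.disjoint_union_left.2 ⟨h1, h2⟩)]; exact m.le_one _

theorem nonempty {A : Set X} (h : 0 < m.μ A) : A.Nonempty := by
  rw [Set.nonempty_iff_ne_empty]
  rintro rfl
  rw [m.empty] at h
  exact lt_irrefl _ h

/-- push forward along an equivariant map -/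
def push {Y : Type*} [MulAction R Y] (f : X → Y) (hf : ∀ (g : R) x, f (g • x) = g • f x) :
    Mean R Y where
  μ B := m.μ (f ⁻¹' B)
  nonneg B := m.nonneg _
  univ := by rw [Set.preimage_univ, m.univ]
  add A B h := by rw [Set.preimage_union, m.add _ _ (h.preimage f)]
  inv g B := by
    rw [← m.inv g (f ⁻¹' B)]
    congr 1
    ext x
    rw [Set.mem_preimage, Set.mem_smul_set_iff_inv_smul_mem, Set.mem_smul_set_iff_inv_smul_mem,
      Set.mem_preimage, hf]

end Mean

/-- amenability: an invariant mean on the group itself -/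
def Am (R : Type*) [Group R] : Prop := Nonempty (Mean R R)

theorem Am.toSet {R : Type*} [Group R] (h : Am R) {X : Type*} [MulAction R X] (o : X) :
    Nonempty (Mean R X) := by
  obtain ⟨m⟩ := h
  exact ⟨m.push (fun g => g • o) (fun g x => by rw [smul_eq_mul, mul_smul])⟩

theorem am_of_mean {G : Type*} [Group G] (S : Subgroup G) (m : Mean S G) : Am S := by
  let rep : G → G := fun g => (Quotient.mk (QuotientGroup.rightRel S) g).out
  have hrep : ∀ g, g * (rep g)⁻¹ ∈ S := fun g => by
    have : (QuotientGroup.rightRel S).r (rep g) g := Quotient.exact (Quotient.out_eq _)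
    exact QuotientGroup.rightRel_apply.1 this
  have hrep2 : ∀ (s : S) g, rep (s * g) = rep g := fun s g => by
    have : Quotient.mk (QuotientGroup.rightRel S) (s * g) = Quotient.mk _ g := by
      apply Quotient.sound
      show (QuotientGroup.rightRel S).r _ _
      rw [QuotientGroup.rightRel_apply]
      simp
    simp only [rep, this]
  refine ⟨m.push (fun g => (⟨g * (rep g)⁻¹, hrep g⟩ : S)) (fun s g => ?_)⟩
  apply Subtype.ext
  show (s : G) * g * (rep (s * g))⁻¹ = s * (g * (rep g)⁻¹)
  rw [hrep2, mul_assoc]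

theorem exists_mean_of_folner {G : Type*} [Group G] (H : Subgroup G)
    (hF : ∀ F : Finset G, (∀ x ∈ F, x ∈ H) → ∀ ε : ℝ, 0 < ε →
      ∃ A : Finset G, A.Nonempty ∧ (∀ a ∈ A, a ∈ H) ∧
        ∀ x ∈ F, ((((A.image (fun a => x * a)) \ A).card : ℕ) : ℝ) ≤ ε * (A.card : ℝ))
    (S : Subgroup G) (hS : S ≤ H) : Nonempty (Mean S G) := by
  have h1 : ∀ i : Finset S × ℕ, ∃ A : Finset G, A.Nonempty ∧
      ∀ x ∈ i.1, ((((A.image (fun a => (x : G) * a)) \ A).card : ℕ) : ℝ)
        ≤ (1 / ((i.2 : ℝ) + 1)) * (A.card : ℝ) := by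
    intro i
    obtain ⟨A, hA, -, hA2⟩ := hF (i.1.image (fun x : S => (x : G))) (by
      intro x hx
      obtain ⟨y, -, rfl⟩ := Finset.mem_image.1 hx
      exact hS y.2) (1 / ((i.2 : ℝ) + 1)) (by positivity)
    exact ⟨A, hA, fun x hx => hA2 _ (Finset.mem_image_of_mem _ hx)⟩
  choose A hA hA2 using h1
  let f : Finset S × ℕ → Set G → ℝ := fun i B => ((A i).filter (· ∈ B)).card / (A i).card
  have hpos : ∀ i, (0 : ℝ) < (A i).card := fun i => by exact_mod_cast (hA i).card_pos
  let U : Ultrafilter (Finset S × ℕ) := Ultrafilter.of atTop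
  have hU : (U : Filter (Finset S × ℕ)) ≤ atTop := Ultrafilter.of_le _
  have hmem : ∀ i B, f i B ∈ Set.Icc (0 : ℝ) 1 := fun i B => by
    refine ⟨by positivity, ?_⟩
    rw [div_le_one (hpos i)]
    exact_mod_cast Finset.card_filter_le _ _
  have h2 : ∀ B, ∃ x, Tendsto (fun i => f i B) U (𝓝 x) := fun B => by
    obtain ⟨x, -, hx⟩ := isCompact_Icc.ultrafilter_le_nhds (U.map (fun i => f i B)) (by
      rw [Ultrafilter.coe_map, le_principal_iff, mem_map]
      exact univ_mem' (fun i => hmem i B))
    exact ⟨x, hx⟩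
  choose μ hμ using h2
  have hle : ∀ (g : S) B, μ (g • B) ≤ μ B := by
    intro g B
    have ht : Tendsto (fun i : Finset S × ℕ => f i B + 1 / ((i.2 : ℝ) + 1)) U (𝓝 (μ B + 0)) := by
      refine (hμ B).add ?_
      refine Tendsto.mono_left ?_ hU
      have : Tendsto (fun i : Finset S × ℕ => i.2) atTop atTop := by
        rw [← prod_atTop_atTop_eq]; exact tendsto_snd
      exact tendsto_one_div_add_atTop_nhds_zero_nat.comp this
    rw [add_zero] at ht
    refine le_of_tendsto_of_tendsto (hμ _) ht ?_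
    have hev : ∀ᶠ i : Finset S × ℕ in atTop, ({g⁻¹}, 0) ≤ i := eventually_ge_atTop _
    refine (hev.filter_mono hU).mono (fun i hi => ?_)
    have hg : g⁻¹ ∈ i.1 := hi.1 (Finset.mem_singleton_self _)
    have h3 := hA2 i _ hg
    have h4 : ((A i).filter (· ∈ g • B)).card ≤ ((A i).filter (· ∈ B)).card +
        (((A i).image (fun a => ((g⁻¹ : S) : G) * a)) \ A i).card := by
      rw [← Finset.card_image_of_injective _ (mul_right_injective ((g⁻¹ : S) : G))]
      refine le_trans (Finset.card_le_card ?_) (Finset.card_union_le _ _)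
      intro y hy
      obtain ⟨a, ha, rfl⟩ := Finset.mem_image.1 hy
      rw [Finset.mem_filter, Set.mem_smul_set_iff_inv_smul_mem] at ha
      rw [Finset.mem_union, Finset.mem_filter, Finset.mem_sdiff]
      by_cases h : ((g⁻¹ : S) : G) * a ∈ A i
      · exact Or.inl ⟨h, ha.2⟩
      · exact Or.inr ⟨Finset.mem_image_of_mem _ ha.1, h⟩
    show f i (g • B) ≤ f i B + 1 / ((i.2 : ℝ) + 1)
    simp only [f]
    rw [div_add' _ _ _ (hpos i).ne', div_le_div_iff_of_pos_right (hpos i)]
    have h5 : (((A i).filter (· ∈ g • B)).card : ℝ) ≤ ((A i).filter (· ∈ B)).card +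
        (((A i).image (fun a => ((g⁻¹ : S) : G) * a)) \ A i).card := by exact_mod_cast h4
    linarith
  refine ⟨⟨μ, fun B => ge_of_tendsto' (hμ B) (fun i => (hmem i B).1), ?_, ?_, ?_⟩⟩
  · refine tendsto_nhds_unique (hμ _) ?_
    have : (fun i => f i Set.univ) = fun _ => 1 := by
      funext i
      simp only [f, Set.mem_univ, Finset.filter_true]
      exact div_self (hpos i).ne'
    rw [this]; exact tendsto_const_nhds
  · intro B C h
    refine tendsto_nhds_unique (hμ _) ?_
    have : (fun i => f i (B ∪ C)) = fun i => f i B + f i C := by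
      funext i
      simp only [f]
      rw [← add_div, ← Nat.cast_add, ← Finset.card_union_of_disjoint, ← Finset.filter_or]
      · congr 2
        congr 1
        ext x
        simp only [Finset.mem_filter, Set.mem_union]
      · rw [Finset.disjoint_filter]
        intro x _ hx hx'
        exact Set.disjoint_left.1 h hx hx'
    rw [this]; exact (hμ B).add (hμ C)
  · intro g B
    refine le_antisymm (hle g B) ?_
    have := hle g⁻¹ (g • B)
    rwa [inv_smul_smul] at this

theorem am_of_folner {G : Type*} [Group G] (H : Subgroup G)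
    (hF : ∀ F : Finset G, (∀ x ∈ F, x ∈ H) → ∀ ε : ℝ, 0 < ε →
      ∃ A : Finset G, A.Nonempty ∧ (∀ a ∈ A, a ∈ H) ∧
        ∀ x ∈ F, ((((A.image (fun a => x * a)) \ A).card : ℕ) : ℝ) ≤ ε * (A.card : ℝ))
    (S : Subgroup G) (hS : S ≤ H) : Am S := by
  obtain ⟨m⟩ := exists_mean_of_folner H hF S hS
  exact am_of_mean S m

end Pool.Agent.H337Z
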