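import Pool.Agent.H337Z.Glob
import Pool.Agent.H337Z.Arith

/-! The concrete machine. -/

set_option autoImplicit false
open Classical

namespace Pool.Agent.H337Z

abbrev U := Fin 5 → ℚ
abbrev MM := Equiv.Perm U

inductive Sta | o | L | R | L2 | R2 | L3 | R3
  deriving DecidableEq

instance : Inhabited Sta := ⟨Sta.o⟩

inductive Rul | a | b | c
  deriving DecidableEq

open Sta

def tau (v : U) : MM := Equiv.addLeft v

@[simp] theorem tau_apply (v x : U) : tau v x = v + x := rfl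
theorem tau_add (u v : U) : tau (u + v) = tau u * tau v := by ext x i; simp [add_assoc]
theorem tau_zero : tau 0 = 1 := by ext x i; simp
theorem tau_neg (u : U) : tau (-u) = (tau u)⁻¹ := by
  rw [eq_inv_iff_mul_eq_one, ← tau_add, neg_add_cancel, tau_zero]

def Cc : Sta → Sta → U → Prop
  | o, o, v => v 3 = 0 ∧ v 4 = 0
  | L, L, v => v 3 = 0
  | R, R, v => v 3 = v 4
  | L, R, _ => True
  | R, L, _ => True
  | _, _, _ => False

def AN (i j : Sta) (N : ℤ) (v : U) : Prop := EN N (v 0 + v 3) (v 1) (v 2) ∧ Cc i j v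

def A2 (v : U) : Prop := v 0 = 0 ∧ ∃ N M : ℤ, v 4 + 8 * N = M ∧ v 1 = N * v 3 ∧ v 2 = N ^ 2 * v 3 ∧
  ∃ (m : ℕ) (d : ℤ), IsCoprime d M ∧ 2 ^ m * v 3 = d

def A3 (v : U) : Prop := v 0 = 0 ∧ v 1 = 0 ∧ v 2 = 0 ∧ ∃ a b : ℤ, IsCoprime a b ∧ v 3 = a ∧ v 4 = b

def AA : Sta → Sta → U → Prop
  | L2, R2, v => A2 v
  | R2, L2, v => A2 (-v)
  | L3, R3, v => A3 v
  | R3, L3, v => A3 v
  | i, j, v => ∃ N, AN i j N v

def addPres {ι : Type} (P : ι → U → Prop) : Subgroup MM where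
  carrier := {g | (∀ x y, g (x + y) = g x + g y) ∧ ∀ i v, P i v ↔ P i (g v)}
  one_mem' := ⟨fun _ _ => rfl, fun _ _ => Iff.rfl⟩
  mul_mem' := fun {a b} ha hb => ⟨fun x y => by simp [hb.1, ha.1],
    fun i v => (hb.2 i v).trans (ha.2 i _)⟩
  inv_mem' := fun {a} ha => ⟨fun x y => a.injective (by simp [ha.1]),
    fun i v => by rw [ha.2 i (a⁻¹ v)]; simp⟩

theorem add_zero' {g : MM} (h : ∀ x y, g (x + y) = g x + g y) : g 0 = 0 := by
  have := h 0 0
  simpa using this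

def transl (w : U) : Subgroup MM where
  carrier := {g | ∃ j : ℚ, g = tau (j • w)}
  one_mem' := ⟨0, by rw [zero_smul, tau_zero]⟩
  mul_mem' := by rintro _ _ ⟨j, rfl⟩ ⟨k, rfl⟩; exact ⟨j + k, by rw [add_smul, tau_add]⟩
  inv_mem' := by rintro _ ⟨j, rfl⟩; exact ⟨-j, by rw [neg_smul, tau_neg]⟩

def sh (c n : ℤ) (v : U) : U :=
  ![v 0, v 1 + n * v 3, v 2 + 2 * n * v 1 + n ^ 2 * v 3, v 3, v 4 + c * n]

theorem sh_sh (c n m : ℤ) (v : U) : sh c n (sh c m v) = sh c (n + m) v := by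
  funext i; fin_cases i <;> simp [sh] <;> ring

theorem sh_zero (c : ℤ) (v : U) : sh c 0 v = v := by
  funext i; fin_cases i <;> simp [sh]

def shG (c : ℤ) : Subgroup MM where
  carrier := {g | ∃ n : ℤ, ∀ v, g v = sh c n v}
  one_mem' := ⟨0, fun v => (sh_zero c v).symm⟩
  mul_mem' := by rintro a b ⟨n, hn⟩ ⟨m, hm⟩; exact ⟨n + m, fun v => by simp [hn, hm, sh_sh]⟩
  inv_mem' := by
    rintro a ⟨n, hn⟩
    exact ⟨-n, fun v => a.injective (by
      rw [hn (sh c (-n) v), sh_sh, add_neg_cancel, sh_zero]; simp)⟩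

def KK : Sta → Subgroup MM
  | o => addPres (AN o o)
  | L => transl ![0, 0, 0, 0, 1]
  | R => transl ![-1, 0, 0, 1, 1]
  | L2 => shG 0
  | R2 => shG 8
  | L3 => addPres (fun _ : Unit => A3)
  | R3 => addPres (fun _ : Unit => A3)

theorem AN_move {i j : Sta} {k k' : MM} (hk : k ∈ KK i) (hk' : k' ∈ KK j) {v v' : U}
    (e : tau v' * k' = k * tau v) {N : ℤ} (h : AN i j N v) : AN i j N v' := by
  have e0 : v' + k' 0 = k v := by simpa using DFunLike.congr_fun e 0
  obtain ⟨h1, h2⟩ := h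
  cases i <;> cases j <;> simp only [Cc] at h2
  · rw [add_zero' hk'.1, add_zero] at e0
    rw [e0]; exact (hk.2 N v).1 ⟨h1, h2⟩
  all_goals
    obtain ⟨a, rfl⟩ := hk
    obtain ⟨b, rfl⟩ := hk'
    have e1 := congrFun e0 0
    have e2 := congrFun e0 1
    have e3 := congrFun e0 2
    have e4 := congrFun e0 3
    have e5 := congrFun e0 4
    simp at e1 e2 e3 e4 e5
    refine ⟨?_, ?_⟩
    · convert h1 using 1 <;> linarith
    · first | trivial | (simp only [Cc]; linarith)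

theorem A2_move {k k' : MM} (hk : k ∈ shG 0) (hk' : k' ∈ shG 8) {v v' : U}
    (e : tau v' * k' = k * tau v) (h : A2 v) : A2 v' := by
  obtain ⟨n, hn⟩ := hk
  obtain ⟨m, hm⟩ := hk'
  have e0 := DFunLike.congr_fun e 0
  have e0' := congrFun (DFunLike.congr_fun e ![0, 0, 0, 1, 0]) 1
  simp only [Equiv.Perm.mul_apply, tau_apply, hn, hm] at e0 e0'
  have e1 := congrFun e0 0
  have e2 := congrFun e0 1
  have e3 := congrFun e0 2
  have e4 := congrFun e0 3
  have e5 := congrFun e0 4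
  simp [sh] at e1 e2 e3 e4 e5 e0'
  have hnm : (m : ℚ) = n := by linarith
  obtain ⟨h0, N, M, h1, h2, h3, p, d, h4, h5⟩ := h
  refine ⟨by linarith, N + n, M, by push_cast; linarith, by rw [e2, e4, h2]; push_cast; ring,
    by rw [e3, e4, h2, h3]; push_cast; ring, p, d, h4, by rw [e4, h5]⟩

theorem AA_move {i j : Sta} {k k' : MM} (hk : k ∈ KK i) (hk' : k' ∈ KK j) {v v' : U}
    (e : tau v' * k' = k * tau v) (h : AA i j v) : AA i j v' := by
  have e0 : v' + k' 0 = k v := by simpa using DFunLike.congr_fun e 0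
  cases i <;> cases j <;> simp only [AA] at h ⊢
  case L2.R2 => exact A2_move hk hk' e h
  case R2.L2 =>
    refine A2_move (k := k') (k' := k) hk' hk ?_ h
    rw [tau_neg, tau_neg, inv_mul_eq_iff_eq_mul, ← mul_assoc, e]; group
  case L3.R3 =>
    rw [add_zero' hk'.1, add_zero] at e0
    rw [e0]; exact (hk.2 () v).1 h
  case R3.L3 =>
    rw [add_zero' hk'.1, add_zero] at e0
    rw [e0]; exact (hk.2 () v).1 h
  all_goals
    obtain ⟨N, h⟩ := h
    exact ⟨N, AN_move hk hk' e h⟩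

theorem AN_neg {i j : Sta} {N : ℤ} {v : U} (h : AN i j N v) : AN j i N (-v) := by
  obtain ⟨h1, h2⟩ := h
  refine ⟨by convert h1.neg using 1 <;> simp [add_comm], ?_⟩
  cases i <;> cases j <;> simp_all [Cc]

theorem A3_neg {v : U} (h : A3 v) : A3 (-v) := by
  obtain ⟨h0, h1, h2, a, b, h3, h4, h5⟩ := h
  exact ⟨by simp [h0], by simp [h1], by simp [h2], -a, -b, h3.neg_neg, by simp [h4], by simp [h5]⟩

theorem AA_neg {i j : Sta} {v : U} (h : AA i j v) : AA j i (-v) := by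
  cases i <;> cases j <;> simp only [AA] at h ⊢
  case L2.R2 => simpa using h
  case R2.L2 => exact h
  case L3.R3 => exact A3_neg h
  case R3.L3 => exact A3_neg h
  all_goals
    obtain ⟨N, h⟩ := h
    exact ⟨N, AN_neg h⟩

abbrev V0 := Σ i : Sta, MM ⧸ KK i

def pt (i : Sta) (g : MM) : V0 := ⟨i, g⟩

theorem smul_pt (m : MM) (i : Sta) (g : MM) : m • pt i g = pt i (m * g) := rfl

theorem pt_eq {i j : Sta} {g g' : MM} : pt i g = pt j g' ↔ i = j ∧ g⁻¹ * g' ∈ KK i := by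
  constructor
  · intro h
    obtain ⟨rfl, h2⟩ := Sigma.mk.inj_iff.1 h
    exact ⟨rfl, QuotientGroup.eq.1 (eq_of_heq h2)⟩
  · rintro ⟨rfl, h⟩
    unfold pt
    rw [QuotientGroup.eq.2 h]

def PP (i : Sta) (u : U) : V0 := pt i (tau u)

theorem tau_PP (w : U) (i : Sta) (u : U) : tau w • PP i u = PP i (w + u) := by
  rw [PP, smul_pt, ← tau_add]; rfl

def Rel (B : Sta → Sta → U → Prop) (p q : V0) : Prop :=
  ∃ i j g v, B i j v ∧ p = pt i g ∧ q = pt j (g * tau v)

theorem Rel.smul {B : Sta → Sta → U → Prop} {p q : V0} (h : Rel B p q) (m : MM) :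
    Rel B (m • p) (m • q) := by
  obtain ⟨i, j, g, v, h, rfl, rfl⟩ := h
  exact ⟨i, j, m * g, v, h, rfl, by rw [smul_pt, mul_assoc]⟩

theorem rel_pt {B : Sta → Sta → U → Prop}
    (hB : ∀ {i j : Sta} {k k' : MM}, k ∈ KK i → k' ∈ KK j → ∀ {v v' : U},
      tau v' * k' = k * tau v → B i j v → B i j v') (g : MM) (i j : Sta) (u w : U) :
    Rel B (pt i (g * tau u)) (pt j (g * tau w)) ↔ B i j (w - u) := by
  constructor
  · rintro ⟨i', j', g', v, h, h1, h2⟩
    obtain ⟨rfl, k1⟩ := pt_eq.1 h1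
    obtain ⟨rfl, k2⟩ := pt_eq.1 h2
    refine hB k1 k2 ?_ h
    rw [sub_eq_neg_add, tau_add, tau_neg]; group
  · intro h
    exact ⟨i, j, g * tau u, w - u, h, rfl, by rw [mul_assoc, ← tau_add, add_sub_cancel]⟩

theorem E_pt (g : MM) (i j : Sta) (u w : U) :
    Rel AA (pt i (g * tau u)) (pt j (g * tau w)) ↔ AA i j (w - u) :=
  rel_pt AA_move g i j u w

theorem EN_pt (N : ℤ) (g : MM) (i j : Sta) (u w : U) :
    Rel (fun i j => AN i j N) (pt i (g * tau u)) (pt j (g * tau w)) ↔ AN i j N (w - u) :=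
  rel_pt (fun hk hk' _ _ e h => AN_move hk hk' e h) g i j u w

theorem E_PP (i j : Sta) (u w : U) : Rel AA (PP i u) (PP j w) ↔ AA i j (w - u) := by
  have := E_pt 1 i j u w
  rw [one_mul, one_mul] at this; exact this

theorem EN_PP (N : ℤ) (i j : Sta) (u w : U) :
    Rel (fun i j => AN i j N) (PP i u) (PP j w) ↔ AN i j N (w - u) := by
  have := EN_pt N 1 i j u w
  rw [one_mul, one_mul] at this; exact this

def ZZ : Sta → U → Prop
  | L, v => v 0 = 0 ∧ v 1 = 0 ∧ v 2 = 0 ∧ v 3 = 0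
  | R, v => v 0 = - v 4 ∧ v 1 = 0 ∧ v 2 = 0 ∧ v 3 = v 4
  | _, v => v = 0

theorem tau_mem {i : Sta} {v : U} (h : tau v ∈ KK i) : ZZ i v := by
  have key : ∀ c, tau v ∈ shG c → v = 0 := by
    rintro c ⟨n, hn⟩
    have e0 := hn 0
    have e1 := congrFun (hn ![0, 0, 0, 1, 0]) 1
    have e2 := congrFun e0 1
    simp [sh] at e0 e1 e2
    have : n = 0 := by
      have : (n : ℚ) = 0 := by linarith
      exact_mod_cast this
    rw [e0, this]
    funext i; fin_cases i <;> simp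
  cases i
  · simpa [ZZ] using add_zero' h.1
  · obtain ⟨j, hj⟩ := h
    have : v = j • ![0, 0, 0, 0, 1] := by simpa only [tau_apply, add_zero] using DFunLike.congr_fun hj 0
    rw [this]; simp [ZZ]
  · obtain ⟨j, hj⟩ := h
    have : v = j • ![-1, 0, 0, 1, 1] := by simpa only [tau_apply, add_zero] using DFunLike.congr_fun hj 0
    rw [this]; simp [ZZ]
  · exact key _ h
  · exact key _ h
  · simpa [ZZ] using add_zero' h.1
  · simpa [ZZ] using add_zero' h.1

theorem PP_eq {i j : Sta} {u w : U} (h : PP i u = PP j w) : i = j ∧ ZZ i (w - u) := by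
  obtain ⟨rfl, h'⟩ := pt_eq.1 h
  refine ⟨rfl, tau_mem ?_⟩
  rwa [sub_eq_neg_add, tau_add, tau_neg]

def DD : Rul → U → Prop
  | Rul.a, u => (∃ n : ℤ, u 0 = 2 * n) ∧ u 3 = 0 ∧ u 4 = 0
  | Rul.b, u => u 0 = 0 ∧ u 4 = 0
  | Rul.c, u => u 0 = 0 ∧ u 1 = 0 ∧ u 2 = 0 ∧ (∃ n : ℤ, u 3 = 2 * n) ∧ ∃ n : ℤ, u 4 = n

theorem DD_add {θ : Rul} {u w : U} (h : DD θ u) (h' : DD θ w) : DD θ (u + w) := by
  cases θ
  · obtain ⟨⟨n, h1⟩, h2, h3⟩ := h
    obtain ⟨⟨m, k1⟩, k2, k3⟩ := h'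
    exact ⟨⟨n + m, by simp [h1, k1]; ring⟩, by simp [h2, k2], by simp [h3, k3]⟩
  · exact ⟨by simp [h.1, h'.1], by simp [h.2, h'.2]⟩
  · obtain ⟨h1, h2, h3, ⟨n, h4⟩, p, h5⟩ := h
    obtain ⟨k1, k2, k3, ⟨m, k4⟩, q, k5⟩ := h'
    exact ⟨by simp [h1, k1], by simp [h2, k2], by simp [h3, k3], ⟨n + m, by simp [h4, k4]; ring⟩,
      p + q, by simp [h5, k5]⟩

theorem DD_neg {θ : Rul} {u : U} (h : DD θ u) : DD θ (-u) := by
  cases θ
  · obtain ⟨⟨n, h1⟩, h2, h3⟩ := h
    exact ⟨⟨-n, by simp [h1]⟩, by simp [h2], by simp [h3]⟩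
  · exact ⟨by simp [h.1], by simp [h.2]⟩
  · obtain ⟨h1, h2, h3, ⟨n, h4⟩, p, h5⟩ := h
    exact ⟨by simp [h1], by simp [h2], by simp [h3], ⟨-n, by simp [h4]⟩, -p, by simp [h5]⟩

theorem DD_zero (θ : Rul) : DD θ 0 := by
  cases θ
  · exact ⟨⟨0, by simp⟩, rfl, rfl⟩
  · exact ⟨rfl, rfl⟩
  · exact ⟨rfl, rfl, rfl, ⟨0, by simp⟩, 0, by simp⟩

theorem DD_sub {θ : Rul} {u w : U} (h : DD θ u) (h' : DD θ w) : DD θ (w - u) := by
  rw [sub_eq_add_neg]; exact DD_add h' (DD_neg h)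

def KR (θ : Rul) : Subgroup MM where
  carrier := {g | ∃ u, DD θ u ∧ g = tau u}
  one_mem' := ⟨0, DD_zero θ, tau_zero.symm⟩
  mul_mem' := by rintro _ _ ⟨u, h, rfl⟩ ⟨w, h', rfl⟩; exact ⟨u + w, DD_add h h', (tau_add _ _).symm⟩
  inv_mem' := by rintro _ ⟨u, h, rfl⟩; exact ⟨-u, DD_neg h, (tau_neg _).symm⟩

def src : Rul → Bool → Sta
  | Rul.a, _ => o
  | Rul.b, false => L
  | Rul.b, true => R
  | Rul.c, false => L2
  | Rul.c, true => R2

def tgt : Rul → Bool → Sta
  | Rul.a, false => L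
  | Rul.a, true => R
  | Rul.b, false => L2
  | Rul.b, true => R2
  | Rul.c, false => L3
  | Rul.c, true => R3

def offs : Rul → Bool → Fin 5 → ℤ
  | Rul.a, true => ![1, 0, 0, 0, 0]
  | Rul.c, true => ![0, 0, 0, 1, 0]
  | _, _ => 0

def offt : Rul → Bool → Fin 5 → ℤ
  | Rul.a, true => ![1, 0, 0, 0, 0]
  | Rul.b, true => ![0, 0, 0, 0, 3]
  | Rul.c, true => ![0, 0, 0, 1, 0]
  | _, _ => 0

def cst (v : Fin 5 → ℤ) : U := fun i => v i

@[simp] theorem cst_apply (v : Fin 5 → ℤ) (i : Fin 5) : cst v i = v i := rfl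

def StM (θ : Rul) (p q : V0) : Prop :=
  ∃ u s, DD θ u ∧ p = PP (src θ s) (u + cst (offs θ s)) ∧ q = PP (tgt θ s) (u + cst (offt θ s))

theorem vec_ext {u w : U} (h0 : u 0 = w 0) (h1 : u 1 = w 1) (h2 : u 2 = w 2) (h3 : u 3 = w 3)
    (h4 : u 4 = w 4) : u = w := by
  funext i; fin_cases i <;> assumption

theorem odd_ne (n m : ℤ) : (2 * n : ℚ) + 1 ≠ 2 * m := by
  intro h
  have : 2 * n + 1 = 2 * m := by exact_mod_cast h
  omega

theorem src_inj {θ : Rul} {u w : U} {s s' : Bool} (h : DD θ u) (h' : DD θ w)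
    (e : PP (src θ s) (u + cst (offs θ s)) = PP (src θ s') (w + cst (offs θ s'))) :
    s = s' ∧ u = w := by
  obtain ⟨e1, e2⟩ := PP_eq e
  cases θ <;> cases s <;> cases s' <;> simp only [src, ZZ, reduceCtorEq, sub_eq_zero] at e1 e2
  · exact ⟨rfl, (add_right_cancel e2).symm⟩
  · obtain ⟨⟨n, h1⟩, -⟩ := h
    obtain ⟨⟨m, k1⟩, -⟩ := h'
    have := congrFun e2 0
    simp [offs, h1, k1] at this
    exact (odd_ne _ _ this).elim
  · obtain ⟨⟨n, h1⟩, -⟩ := h
    obtain ⟨⟨m, k1⟩, -⟩ := h'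
    have := congrFun e2 0
    simp [offs, h1, k1] at this
    exact (odd_ne _ _ this.symm).elim
  · exact ⟨rfl, (add_right_cancel e2).symm⟩
  · simp [offs] at e2
    exact ⟨rfl, vec_ext (by linarith [e2.1]) (by linarith [e2.2.1]) (by linarith [e2.2.2.1])
      (by linarith [e2.2.2.2]) (h.2.trans h'.2.symm)⟩
  · simp [offs, h.2, h'.2] at e2
    exact ⟨rfl, vec_ext (by linarith [e2.1]) (by linarith [e2.2.1]) (by linarith [e2.2.2.1])
      (by linarith [e2.2.2.2]) (h.2.trans h'.2.symm)⟩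
  · exact ⟨rfl, (add_right_cancel e2).symm⟩
  · exact ⟨rfl, (add_right_cancel e2).symm⟩

theorem tgt_inj {θ : Rul} {u w : U} {s s' : Bool} (h : DD θ u) (h' : DD θ w)
    (e : PP (tgt θ s) (u + cst (offt θ s)) = PP (tgt θ s') (w + cst (offt θ s'))) :
    s = s' ∧ u = w := by
  obtain ⟨e1, e2⟩ := PP_eq e
  cases θ <;> cases s <;> cases s' <;> simp only [tgt, ZZ, reduceCtorEq, sub_eq_zero] at e1 e2
  · simp [offt] at e2
    exact ⟨rfl, vec_ext (by linarith [e2.1]) (by linarith [e2.2.1]) (by linarith [e2.2.2.1])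
      (by linarith [e2.2.2.2]) (h.2.2.trans h'.2.2.symm)⟩
  · simp [offt, h.2.2, h'.2.2] at e2
    exact ⟨rfl, vec_ext (by linarith [e2.1]) (by linarith [e2.2.1]) (by linarith [e2.2.2.1])
      (by linarith [e2.2.2.2]) (h.2.2.trans h'.2.2.symm)⟩
  all_goals exact ⟨rfl, (add_right_cancel e2).symm⟩

theorem EN_zero {N : ℤ} {b c : ℚ} : ¬ EN N 0 b c := fun h => h.ne rfl

theorem A2_iff {w : U} (h0 : w 0 = 0) (h4 : w 4 = 0) :
    (∃ N, EN N (w 3) (w 1) (w 2)) ↔ A2 (w + cst ![0, 0, 0, 0, 3]) := by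
  constructor
  · rintro ⟨N, m, d, k1, k2, k3, k4⟩
    exact ⟨by simp [h0], N, 8 * N + 3, by simp [h4]; ring, by simpa using k3, by simpa using k4,
      m, d, k1, by simpa using k2⟩
  · rintro ⟨-, N, M, k0, k3, k4, m, d, k1, k2⟩
    have : M = 8 * N + 3 := by
      simp [h4] at k0
      have : (M : ℚ) = 8 * N + 3 := by linarith
      exact_mod_cast this
    exact ⟨N, m, d, this ▸ k1, by simpa using k2, by simpa using k3, by simpa using k4⟩

theorem A3_iff {w : U} (h : DD Rul.c w) :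
    A2 (w + cst ![0, 0, 0, 1, 0]) ↔ A3 (w + cst ![0, 0, 0, 1, 0]) := by
  obtain ⟨h0, h1, h2, ⟨n, h3⟩, p, h4⟩ := h
  constructor
  · rintro ⟨-, N, M, k0, k3, -, m, d, k1, k2⟩
    simp [h1, h3, h4] at k0 k3 k2
    have hN : N = 0 := by
      rcases k3 with k3 | k3
      · exact k3
      · exact (odd_ne n 0 (by simpa using k3)).elim
    subst hN
    have e1 : p = M := by exact_mod_cast (by simpa using k0 : (p : ℚ) = M)
    have e2 : 2 ^ m * (2 * n + 1) = d := by exact_mod_cast k2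
    refine ⟨by simp [h0], by simp [h1], by simp [h2], 2 * n + 1, p, ?_, by simp [h3], by simp [h4]⟩
    rw [← e2] at k1
    rw [e1]; exact k1.of_mul_left_right
  · rintro ⟨-, -, -, a, b, k1, k2, k3⟩
    exact ⟨by simp [h0], 0, b, by simpa using k3, by simp [h1], by simp [h2], 0, a, k1,
      by simpa using k2⟩

theorem ANtr_a {w : U} (h : DD Rul.a w) (s s' : Bool) (N : ℤ) :
    AN o o N (w + cst (offs Rul.a s') - cst (offs Rul.a s)) ↔
    AN (tgt Rul.a s) (tgt Rul.a s') N (w + cst (offt Rul.a s') - cst (offt Rul.a s)) := by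
  cases s <;> cases s' <;> simp [AN, Cc, offs, offt, tgt, h.2.1, h.2.2]

theorem AAtr {θ : Rul} {w : U} (h : DD θ w) (s s' : Bool) :
    AA (src θ s) (src θ s') (w + cst (offs θ s') - cst (offs θ s)) ↔
    AA (tgt θ s) (tgt θ s') (w + cst (offt θ s') - cst (offt θ s)) := by
  have c0 : cst 0 = 0 := by funext i; simp
  cases θ
  · have := fun N => ANtr_a h s s' N
    cases s <;> cases s' <;> exact exists_congr this
  · cases s <;> cases s'
    · simp [AA, AN, Cc, offs, offt, src, tgt, h.1, c0]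
      intro N h1 h2
      rw [h2] at h1; exact EN_zero h1
    · simp only [AA, AN, Cc, offs, offt, src, tgt, c0, add_zero, sub_zero, h.1, zero_add, and_true]
      exact A2_iff h.1 h.2
    · simp only [AA, AN, Cc, offs, offt, src, tgt, c0, add_zero, sub_zero, h.1, zero_add, and_true]
      rw [neg_sub, sub_eq_neg_add, ← A2_iff (by simp [h.1]) (by simp [h.2])]
      exact ⟨fun ⟨N, k⟩ => ⟨N, k.neg⟩, fun ⟨N, k⟩ => ⟨N, by simpa using k.neg⟩⟩
    · simp [AA, AN, Cc, offs, offt, src, tgt, h.1, h.2, c0]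
      intro N h1 h2
      rw [h2] at h1; exact EN_zero h1
  · cases s <;> cases s'
    · simp [AA, AN, Cc, src, tgt]
    · simp only [AA, offs, offt, src, tgt, c0, sub_zero]
      exact A3_iff h
    · simp only [AA, offs, offt, src, tgt, c0, add_zero]
      rw [neg_sub, sub_eq_neg_add, A3_iff (DD_neg h)]
      refine ⟨fun k => ?_, fun k => ?_⟩
      · convert A3_neg k using 1; abel
      · convert A3_neg k using 1; abel
    · simp [AA, AN, Cc, src, tgt]

def Low : Sta → Prop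
  | o => True
  | L => True
  | R => True
  | _ => False

theorem tri_low {i j k : Sta} {u v w : U} (h1 : AA i j u) (h2 : AA j k v) (h3 : AA i k w) :
    ∃ N, AN i j N u := by
  cases i <;> cases j <;> first
    | exact h1
    | (exfalso; cases k <;> simp [AA, AN, Cc] at h2 h3)

theorem no_tri {θ : Rul} (hθ : θ ≠ Rul.a) {w : U} (h : DD θ w) (s : Bool) :
    ¬ AA (src θ s) (src θ s) w := by
  have := AAtr h s s
  simp only [add_sub_cancel_right] at this
  rw [this]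
  cases θ <;> cases s <;> simp_all [AA, AN, Cc, tgt]

theorem rel_st {B : Sta → Sta → U → Prop} {p q : V0} (h : Rel B p q) : ∃ v, B p.1 q.1 v := by
  obtain ⟨i, j, g, v, h, rfl, rfl⟩ := h
  exact ⟨v, h⟩

theorem add_sub_e (u w a b : U) : w + a - (u + b) = (w - u) + a - b := by abel

def mach : Mach MM V0 Rul where
  K := KR
  St := StM
  E := Rel AA
  T x y _ n := ∃ N : ℤ, n = (8 * N + 3).natAbs ∧ Rel (fun i j => AN i j N) x y
  f1 := by
    rintro θ x y y' ⟨u, s, h, rfl, rfl⟩ ⟨w, s', h', e, rfl⟩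
    obtain ⟨rfl, rfl⟩ := src_inj h h' e
    rfl
  f2 := by
    rintro θ x x' y ⟨u, s, h, rfl, rfl⟩ ⟨w, s', h', rfl, e⟩
    obtain ⟨rfl, rfl⟩ := tgt_inj h h' e
    rfl
  inv := by
    rintro θ m x y ⟨w, hw, rfl⟩ ⟨u, s, h, rfl, rfl⟩
    exact ⟨w + u, s, DD_add hw h, by rw [tau_PP, add_assoc], by rw [tau_PP, add_assoc]⟩
  Einv m x y h := h.smul m
  Esymm := by
    rintro x y ⟨i, j, g, v, h, rfl, rfl⟩
    exact ⟨j, i, g * tau v, -v, AA_neg h, rfl, by rw [tau_neg]; group⟩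
  Eirr := by
    rintro ⟨i, q⟩ h
    obtain ⟨g, rfl⟩ := QuotientGroup.mk_surjective q
    have := (E_pt g i i 0 0).1 (by rw [tau_zero, mul_one]; exact h)
    cases i <;> simp [AA, AN, EN_zero] at this
  Etr := by
    rintro θ x x' y y' ⟨u, s, h, rfl, rfl⟩ ⟨w, s', h', rfl, rfl⟩
    rw [E_PP, E_PP, add_sub_e, add_sub_e]
    exact AAtr (DD_sub h h') s s'
  Tinv := by
    rintro m x y z n ⟨N, h1, h2⟩
    exact ⟨N, h1, h2.smul m⟩
  Ttr := by
    rintro θ x x' y y' z z' n ⟨u, s, h, rfl, rfl⟩ ⟨w, s', h', rfl, rfl⟩ ⟨r, s'', h'', rfl, rfl⟩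
      e1 e2 e3
    by_cases hθ : θ = Rul.a
    · subst hθ
      refine exists_congr (fun N => and_congr_right (fun _ => ?_))
      rw [EN_PP, EN_PP, add_sub_e, add_sub_e]
      exact ANtr_a (DD_sub h h') s s' N
    · exfalso
      rw [E_PP, add_sub_e] at e1 e2 e3
      cases s <;> cases s' <;> cases s'' <;> first
        | exact no_tri hθ (DD_sub h h') _ (by simpa using e1)
        | exact no_tri hθ (DD_sub h' h'') _ (by simpa using e2)
        | exact no_tri hθ (DD_sub h h'') _ (by simpa using e3)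
  Tex := by
    rintro x y z ⟨i, j, g, v, h, rfl, rfl⟩ e2 e3
    obtain ⟨v2, h2⟩ := rel_st e2
    obtain ⟨v3, h3⟩ := rel_st e3
    obtain ⟨N, hN⟩ := tri_low h h2 h3
    exact ⟨_, N, rfl, i, j, g, v, hN, rfl, rfl⟩
  Tbd := by
    rintro x y z n ⟨N, rfl, i, j, g, v, h, rfl, rfl⟩ Y hx hy - hY
    have hi : Low i := by
      have := h.2
      cases i <;> cases j <;> simp_all [Cc, Low]
    have h1 : ∀ p ∈ Y, ∃ k w, Low k ∧ p = pt k (g * tau w) := by
      intro p hp
      by_cases e : pt i g = p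
      · exact ⟨i, 0, hi, by rw [tau_zero, mul_one, e]⟩
      · obtain ⟨i', k, g', w, a1, a3, rfl⟩ := hY _ hx p hp e
        obtain ⟨rfl, a2⟩ := pt_eq.1 a3
        clear a3
        have hk : Low k := by cases i <;> cases k <;> simp_all [Low, AA, AN, Cc]
        have e2 : g' = g * (g⁻¹ * g') := by group
        generalize g⁻¹ * g' = m at a2 e2
        subst e2
        cases i
        · have : k = o := by cases k <;> simp_all [Low, AA, AN, Cc]
          subst this
          refine ⟨o, m w, hk, (pt_eq.2 ⟨rfl, ?_⟩).symm⟩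
          have : m * tau w = tau (m w) * m := by
            ext1 x; simp [a2.1]
          rw [mul_assoc, this]
          simpa using a2
        · obtain ⟨b, rfl⟩ := a2
          exact ⟨k, _, hk, by rw [mul_assoc, ← tau_add]⟩
        · obtain ⟨b, rfl⟩ := a2
          exact ⟨k, _, hk, by rw [mul_assoc, ← tau_add]⟩
        all_goals exact hi.elim
    choose! k w hk hw using h1
    refine arith Y (fun p => w p 0 + w p 3) (fun p => w p 1) (fun p => w p 2) hx hy ?_ ?_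
    · have : Rel (fun i j => AN i j N) (pt i g) (pt j (g * tau v)) := ⟨i, j, g, v, h, rfl, rfl⟩
      rw [hw _ hx, hw _ hy, EN_pt] at this
      have h5 := this.1
      simp only [Pi.sub_apply] at h5
      convert h5 using 1
      ring
    · intro p hp q hq hne
      have := hY p hp q hq hne
      rw [hw _ hp, hw _ hq, E_pt] at this
      have a1 := hk p hp
      have a2 := hk q hq
      have : ∃ N', AN (k p) (k q) N' (w q - w p) := by
        revert this a1 a2
        cases k p <;> cases k q <;> simp [Low, AA]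
      obtain ⟨N', h'⟩ := this
      refine ⟨N', ?_⟩
      have h5 := h'.1
      simp only [Pi.sub_apply] at h5
      convert h5 using 1
      ring

end Pool.Agent.H337Z
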