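import Pool.Agent.H337Z.Big

/-! A finite presentation of the semidirect product. -/

set_option autoImplicit false
open Classical FreeGroup SemidirectProduct

namespace Pool.Agent.H337Z

variable {Y : Type} (RQ : Set (FreeGroup Y)) (c : FreeGroup Y)

def AdjQ (q q' : PresentedGroup RQ) : Prop :=
  IsConj (PresentedGroup.mk RQ c) (q⁻¹ * q') ∨ IsConj (PresentedGroup.mk RQ c) (q'⁻¹ * q)

def act (h : FreeGroup Y × FreeGroup Y) (q : PresentedGroup RQ) : PresentedGroup RQ :=
  PresentedGroup.mk RQ h.1 * q * (PresentedGroup.mk RQ h.2)⁻¹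

theorem act_one (q : PresentedGroup RQ) : act RQ 1 q = q := by simp [act]

theorem act_mul (h h' : FreeGroup Y × FreeGroup Y) (q : PresentedGroup RQ) :
    act RQ (h * h') q = act RQ h (act RQ h' q) := by simp [act, mul_assoc]

theorem act_adj (h : FreeGroup Y × FreeGroup Y) {q q' : PresentedGroup RQ} (H : AdjQ RQ c q q') :
    AdjQ RQ c (act RQ h q) (act RQ h q') := by
  have key : ∀ a b : PresentedGroup RQ, IsConj (PresentedGroup.mk RQ c) (a⁻¹ * b) →
      IsConj (PresentedGroup.mk RQ c) ((act RQ h a)⁻¹ * act RQ h b) := by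
    intro a b H
    refine H.trans (isConj_iff.2 ⟨PresentedGroup.mk RQ h.2, ?_⟩)
    unfold act; group
  exact H.imp (key _ _) (key _ _)

noncomputable def rho (h : FreeGroup Y × FreeGroup Y) : Raag (AdjQ RQ c) →* Raag (AdjQ RQ c) :=
  rlift (fun q => gen _ (act RQ h q)) (fun _ _ H => gen_comm (act_adj RQ c h H))

theorem rho_gen (h : FreeGroup Y × FreeGroup Y) (q : PresentedGroup RQ) :
    rho RQ c h (gen _ q) = gen _ (act RQ h q) := rlift_gen _ _ _

theorem rho_mul (h h' : FreeGroup Y × FreeGroup Y) (g : Raag (AdjQ RQ c)) :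
    rho RQ c (h * h') g = rho RQ c h (rho RQ c h' g) :=
  raag_ext (ψ := (rho RQ c h).comp (rho RQ c h')) (fun v => by simp [rho_gen, act_mul]) g

theorem rho_one (g : Raag (AdjQ RQ c)) : rho RQ c 1 g = g :=
  raag_ext (ψ := MonoidHom.id _) (fun v => by simp [rho_gen, act_one]) g

noncomputable def psi : FreeGroup Y × FreeGroup Y →* MulAut (Raag (AdjQ RQ c)) :=
  MonoidHom.mk' (fun h => MonoidHom.toMulEquiv (rho RQ c h) (rho RQ c h⁻¹)
    (by ext1 g; simp [← rho_mul, rho_one]) (by ext1 g; simp [← rho_mul, rho_one]))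
    (fun h h' => by ext g; exact rho_mul RQ c h h' g)

theorem psi_gen (h : FreeGroup Y × FreeGroup Y) (q : PresentedGroup RQ) :
    psi RQ c h (gen _ q) = gen _ (act RQ h q) := rho_gen RQ c h q

abbrev GG := Raag (AdjQ RQ c) ⋊[psi RQ c] (FreeGroup Y × FreeGroup Y)

def Lw : FreeGroup Y →* FreeGroup (Option (Y ⊕ Y)) := map (fun y => some (Sum.inl y))
def Rw : FreeGroup Y →* FreeGroup (Option (Y ⊕ Y)) := map (fun y => some (Sum.inr y))

def cm {G : Type*} [Group G] (a b : G) : G := a * b * (b * a)⁻¹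

theorem map_cm {G G' : Type*} [Group G] [Group G'] (f : G →* G') (a b : G) :
    f (cm a b) = cm (f a) (f b) := by simp [cm]

theorem cm_eq_one {G : Type*} [Group G] {a b : G} : cm a b = 1 ↔ Commute a b := by
  rw [cm, mul_inv_eq_one]; rfl

def relsG : Set (FreeGroup (Option (Y ⊕ Y))) :=
  Set.range (fun p : Y × Y => cm (Lw (of p.1)) (Rw (of p.2))) ∪
  Set.range (fun y : Y => cm (of none) (Lw (of y) * Rw (of y))) ∪
  (fun r => cm (of none) (Lw r)) '' RQ ∪ {cm (of none) (Lw c * of none * (Lw c)⁻¹)}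

theorem relsG_fin [Finite Y] (h : RQ.Finite) : (relsG RQ c).Finite :=
  (((Set.finite_range _).union (Set.finite_range _)).union (h.image _)).union
    (Set.finite_singleton _)

noncomputable def fG : Option (Y ⊕ Y) → GG RQ c
  | none => inl (gen _ 1)
  | some (Sum.inl y) => inr (of y, 1)
  | some (Sum.inr y) => inr (1, of y)

theorem lift_Lw (a : FreeGroup Y) : FreeGroup.lift (fG RQ c) (Lw a) = inr (a, 1) :=
  DFunLike.congr_fun (ext_hom ((FreeGroup.lift (fG RQ c)).comp Lw)
    (inr.comp (MonoidHom.inl _ _)) (fun y => by simp [Lw, fG])) a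

theorem lift_Rw (a : FreeGroup Y) : FreeGroup.lift (fG RQ c) (Rw a) = inr (1, a) :=
  DFunLike.congr_fun (ext_hom ((FreeGroup.lift (fG RQ c)).comp Rw)
    (inr.comp (MonoidHom.inr _ _)) (fun y => by simp [Rw, fG])) a

theorem conj_gen (h : FreeGroup Y × FreeGroup Y) (q : PresentedGroup RQ) :
    (inr h * inl (gen _ q) * (inr h)⁻¹ : GG RQ c) = inl (gen _ (act RQ h q)) := by
  rw [← psi_gen, inl_aut, _root_.map_inv]

theorem comm_gen (h : FreeGroup Y × FreeGroup Y) (hh : act RQ h 1 = 1) :
    Commute (inl (gen _ 1) : GG RQ c) (inr h) := by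
  have := conj_gen RQ c h 1
  rw [hh] at this
  show _ * _ = _ * _
  conv_lhs => rw [← this]
  group

noncomputable def Phi : PresentedGroup (relsG RQ c) →* GG RQ c :=
  PresentedGroup.toGroup (f := fG RQ c) (by
    rintro r (((⟨p, rfl⟩ | ⟨y, rfl⟩) | ⟨r, hr, rfl⟩) | rfl) <;>
      simp only [map_cm, cm_eq_one, _root_.map_mul, _root_.map_inv, lift_Lw, lift_Rw,
        lift_apply_of, fG]
    · refine Commute.map ?_ _
      show _ * _ = _ * _
      simp
    · rw [← _root_.map_mul]
      exact comm_gen RQ c _ (by simp [act])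
    · exact comm_gen RQ c _ (by simp [act, PresentedGroup.one_of_mem hr])
    · rw [conj_gen]
      have h1 : AdjQ RQ c 1 (act RQ (c, 1) 1) := Or.inl (by
        simp only [act, _root_.map_one, inv_one, one_mul, mul_one]; exact IsConj.refl _)
      exact (gen_comm h1).map inl)

def zG : PresentedGroup (relsG RQ c) := PresentedGroup.of none
def lamG : FreeGroup Y →* PresentedGroup (relsG RQ c) := (PresentedGroup.mk _).comp Lw
def rhoG : FreeGroup Y →* PresentedGroup (relsG RQ c) := (PresentedGroup.mk _).comp Rw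

theorem rel_comm {a b : FreeGroup (Option (Y ⊕ Y))} (h : cm a b ∈ relsG RQ c) :
    Commute (PresentedGroup.mk (relsG RQ c) a) (PresentedGroup.mk (relsG RQ c) b) := by
  rw [← cm_eq_one, ← map_cm]; exact PresentedGroup.one_of_mem h

theorem lam_rho_comm (a b : FreeGroup Y) : Commute (lamG RQ c a) (rhoG RQ c b) := by
  induction a using FreeGroup.induction_on with
  | C1 => rw [_root_.map_one]; exact Commute.one_left _
  | of y =>
    induction b using FreeGroup.induction_on with
    | C1 => rw [_root_.map_one]; exact Commute.one_right _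
    | of y' => exact rel_comm RQ c (Or.inl (Or.inl (Or.inl ⟨(y, y'), rfl⟩)))
    | inv_of y' ih => rw [_root_.map_inv]; exact ih.inv_right
    | mul x x' h1 h2 => rw [_root_.map_mul]; exact h1.mul_right h2
  | inv_of y ih => rw [_root_.map_inv]; exact ih.inv_left
  | mul x x' h1 h2 => rw [_root_.map_mul]; exact h1.mul_left h2

noncomputable def chiH : FreeGroup Y × FreeGroup Y →* PresentedGroup (relsG RQ c) :=
  MonoidHom.noncommCoprod (lamG RQ c) (rhoG RQ c) (lam_rho_comm RQ c)

theorem chiH_apply (h : FreeGroup Y × FreeGroup Y) :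
    chiH RQ c h = lamG RQ c h.1 * rhoG RQ c h.2 := rfl

theorem z_diag (a : FreeGroup Y) : Commute (zG RQ c) (chiH RQ c (a, a)) := by
  induction a using FreeGroup.induction_on with
  | C1 => rw [Prod.mk_one_one, _root_.map_one]; exact Commute.one_right _
  | of y =>
    have := rel_comm RQ c (Or.inl (Or.inl (Or.inr ⟨y, rfl⟩)))
    rw [_root_.map_mul] at this
    exact this
  | inv_of y ih => rw [← Prod.inv_mk, _root_.map_inv]; exact ih.inv_right
  | mul x x' h1 h2 => rw [← Prod.mk_mul_mk, _root_.map_mul]; exact h1.mul_right h2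

theorem z_ker {a : FreeGroup Y} (ha : PresentedGroup.mk RQ a = 1) :
    Commute (zG RQ c) (chiH RQ c (a, 1)) := by
  let K : Subgroup (FreeGroup Y) := (Subgroup.centralizer {zG RQ c}).comap
    ((chiH RQ c).comp (MonoidHom.inl _ _))
  have hK : ∀ a, a ∈ K ↔ Commute (zG RQ c) (chiH RQ c (a, 1)) := fun a => by
    simp only [K, Subgroup.mem_comap, Subgroup.mem_centralizer_iff, Set.mem_singleton_iff,
      forall_eq]
    rfl
  have : K.Normal := ⟨fun a ha w => by
    rw [hK] at ha ⊢
    have : ((w * a * w⁻¹, 1) : FreeGroup Y × FreeGroup Y) = (w, w) * (a, 1) * (w, w)⁻¹ := by simp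
    rw [this, _root_.map_mul, _root_.map_mul, _root_.map_inv]
    exact ((z_diag RQ c w).mul_right ha).mul_right (z_diag RQ c w).inv_right⟩
  rw [← hK]
  refine Subgroup.normalClosure_le_normal (N := K) (fun r hr => ?_)
    (PresentedGroup.mk_eq_one_iff.1 ha)
  rw [SetLike.mem_coe, hK, chiH_apply, _root_.map_one, mul_one]
  exact rel_comm RQ c (Or.inl (Or.inr ⟨r, hr, rfl⟩))

theorem z_stab {h : FreeGroup Y × FreeGroup Y} (hh : act RQ h 1 = 1) :
    Commute (zG RQ c) (chiH RQ c h) := by
  have : h = (h.1 * h.2⁻¹, 1) * (h.2, h.2) := by simp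
  rw [this, _root_.map_mul]
  refine (z_ker RQ c ?_).mul_right (z_diag RQ c _)
  simpa [act] using hh

noncomputable def zq (q : PresentedGroup RQ) : PresentedGroup (relsG RQ c) :=
  chiH RQ c ((PresentedGroup.mk_surjective RQ q).choose, 1) * zG RQ c *
    (chiH RQ c ((PresentedGroup.mk_surjective RQ q).choose, 1))⁻¹

theorem zq_act1 (h : FreeGroup Y × FreeGroup Y) :
    zq RQ c (act RQ h 1) = chiH RQ c h * zG RQ c * (chiH RQ c h)⁻¹ := by
  unfold zq
  set a := (PresentedGroup.mk_surjective RQ (act RQ h 1)).choose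
  have ha : PresentedGroup.mk RQ a = act RQ h 1 :=
    (PresentedGroup.mk_surjective RQ (act RQ h 1)).choose_spec
  have := (z_stab RQ c (h := h⁻¹ * (a, 1)) (by
    rw [act_mul]
    have : act RQ (a, 1) 1 = act RQ h 1 := by simp [act, ha]
    rw [this, ← act_mul, inv_mul_cancel, act_one])).eq
  rw [_root_.map_mul, _root_.map_inv] at this
  calc _ = chiH RQ c h * ((chiH RQ c h)⁻¹ * chiH RQ c (a, 1) * zG RQ c) * (chiH RQ c (a, 1))⁻¹ := by
        group
    _ = _ := by rw [← this]; group

theorem zq_act (h : FreeGroup Y × FreeGroup Y) (q : PresentedGroup RQ) :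
    zq RQ c (act RQ h q) = chiH RQ c h * zq RQ c q * (chiH RQ c h)⁻¹ := by
  obtain ⟨a, rfl⟩ := PresentedGroup.mk_surjective RQ q
  have : PresentedGroup.mk RQ a = act RQ (a, 1) 1 := by simp [act]
  rw [this, ← act_mul, zq_act1, zq_act1, _root_.map_mul]; group

theorem zq_one : zq RQ c 1 = zG RQ c := by
  have := zq_act1 RQ c 1
  simpa [act_one] using this

theorem zq_comm (q q' : PresentedGroup RQ) (H : AdjQ RQ c q q') :
    Commute (zq RQ c q) (zq RQ c q') := by
  have key : ∀ a b : PresentedGroup RQ, IsConj (PresentedGroup.mk RQ c) (a⁻¹ * b) →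
      Commute (zq RQ c a) (zq RQ c b) := by
    intro a b H
    obtain ⟨g, hg⟩ := isConj_iff.1 H
    obtain ⟨a, rfl⟩ := PresentedGroup.mk_surjective RQ a
    obtain ⟨g, rfl⟩ := PresentedGroup.mk_surjective RQ g
    have h1 : PresentedGroup.mk RQ a = act RQ (a * g, g) 1 := by simp [act]
    have h2 : b = act RQ (a * g, g) (act RQ (c, 1) 1) := by
      simp only [act, _root_.map_mul, _root_.map_one, mul_one, inv_one]
      rw [mul_assoc, mul_assoc, ← mul_assoc (PresentedGroup.mk RQ g), hg]; group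
    rw [h2, h1, zq_act1, zq_act, zq_act1]
    have h3 : Commute (zG RQ c) (chiH RQ c (c, 1) * zG RQ c * (chiH RQ c (c, 1))⁻¹) := by
      have := rel_comm RQ c (Or.inr rfl)
      rw [chiH_apply, _root_.map_one, mul_one]
      rw [_root_.map_mul, _root_.map_mul, _root_.map_inv] at this
      exact this
    exact h3.conj _
  rcases H with H | H
  · exact key _ _ H
  · exact (key _ _ H).symm

noncomputable def chi : GG RQ c →* PresentedGroup (relsG RQ c) :=
  SemidirectProduct.lift (rlift (zq RQ c) (zq_comm RQ c)) (chiH RQ c) (by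
    intro h
    refine PresentedGroup.ext (fun q => ?_)
    show rlift (zq RQ c) (zq_comm RQ c) (psi RQ c h (gen _ q)) =
      chiH RQ c h * rlift (zq RQ c) (zq_comm RQ c) (gen _ q) * (chiH RQ c h)⁻¹
    rw [psi_gen, rlift_gen, rlift_gen, zq_act])

theorem Phi_mk (w : FreeGroup (Option (Y ⊕ Y))) :
    Phi RQ c (PresentedGroup.mk _ w) = FreeGroup.lift (fG RQ c) w := rfl

theorem Phi_chiH (h : FreeGroup Y × FreeGroup Y) : Phi RQ c (chiH RQ c h) = inr h := by
  rw [chiH_apply, _root_.map_mul]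
  show Phi RQ c (PresentedGroup.mk _ _) * Phi RQ c (PresentedGroup.mk _ _) = _
  rw [Phi_mk, Phi_mk, lift_Lw, lift_Rw, ← _root_.map_mul]; simp

noncomputable def isoG : PresentedGroup (relsG RQ c) ≃* GG RQ c :=
  MonoidHom.toMulEquiv (Phi RQ c) (chi RQ c) (by
    refine PresentedGroup.ext (fun a => ?_)
    show chi RQ c (Phi RQ c (PresentedGroup.mk _ (of a))) = PresentedGroup.mk _ (of a)
    rw [Phi_mk, lift_apply_of]
    rcases a with _ | y | y
    · simp only [fG, chi, lift_inl, rlift_gen, zq_one]; rfl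
    · simp only [fG, chi, lift_inr, chiH_apply, _root_.map_one, mul_one]; rfl
    · simp only [fG, chi, lift_inr, chiH_apply, _root_.map_one, one_mul]; rfl) (by
    refine SemidirectProduct.hom_ext (PresentedGroup.ext (fun q => ?_)) ?_
    · show Phi RQ c (chi RQ c (inl (gen _ q))) = inl (gen _ q)
      obtain ⟨a, rfl⟩ := PresentedGroup.mk_surjective RQ q
      have : PresentedGroup.mk RQ a = act RQ (a, 1) 1 := by simp [act]
      rw [this, chi, lift_inl, rlift_gen, zq_act1, _root_.map_mul, _root_.map_mul, _root_.map_inv,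
        Phi_chiH, ← conj_gen]
      rfl
    · refine MonoidHom.ext (fun h => ?_)
      show Phi RQ c (chi RQ c (inr h)) = inr h
      rw [chi, lift_inr, Phi_chiH])

theorem thmA [Finite Y] (hfin : RQ.Finite) (hc : PresentedGroup.mk RQ c ≠ 1)
    (hcl : ¬ ∃ f : ℕ → PresentedGroup RQ, ∀ i j, i < j → AdjQ RQ c (f i) (f j))
    (hbig : ∀ k, ∃ q : Fin k → PresentedGroup RQ, ∀ i j, i ≠ j → AdjQ RQ c (q i) (q j)) :
    ∃ (n : ℕ) (rels : Finset (FreeGroup (Fin n))),
      (∀ k : ℕ, ∃ ι : Multiplicative (Fin k → ℤ) →*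
        PresentedGroup (↑rels : Set (FreeGroup (Fin n))), Function.Injective ι) ∧
      ∀ H : Subgroup (PresentedGroup (↑rels : Set (FreeGroup (Fin n)))), (∀ S ≤ H, Am S) →
        ∃ C k : ℕ, ∀ r : ℕ,
          ({x : PresentedGroup (↑rels : Set (FreeGroup (Fin n))) |
              x ∈ H ∧ ∃ w : FreeGroup (Fin n),
                w.toWord.length ≤ r ∧
                PresentedGroup.mk (↑rels : Set (FreeGroup (Fin n))) w = x}).ncard
            ≤ C * (1 + r) ^ k := by
  obtain ⟨n, ⟨e⟩⟩ := Finite.exists_equiv_fin (Option (Y ⊕ Y))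
  have hf : (freeGroupCongr e '' relsG RQ c).Finite := (relsG_fin RQ c hfin).image _
  refine ⟨n, hf.toFinset, ?_⟩
  rw [hf.coe_toFinset]
  let Φ := (PresentedGroup.equivPresentedGroup (relsG RQ c) e).symm.trans (isoG RQ c)
  have hi : ∀ v, ¬ AdjQ RQ c v v := by
    intro v h
    apply hc
    rcases h with h | h <;> simpa using h
  refine ⟨fun k => ?_, fun H hH => ?_⟩
  · obtain ⟨q, hq⟩ := hbig k
    obtain ⟨ι, hι⟩ := raag_Z hi k q hq
    exact ⟨Φ.symm.toMonoidHom.comp (inl.comp ι), Φ.symm.injective.comp (inl_injective.comp hι)⟩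
  · exact growth (fun _ _ h => h.symm) hi hcl (psi RQ c) (fun h => ⟨act RQ h, psi_gen RQ c h⟩)
      _ Φ.toMonoidHom Φ.injective H hH

end Pool.Agent.H337Z
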