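import Pool.Agent.H337Z.Model
import Pool.Agent.H337Z.Pres

/-! The finite presentation and the derivation of large cliques. -/

set_option autoImplicit false
open Classical

namespace Pool.Agent.H337Z

inductive Lin | t | a | A | B
  deriving DecidableEq

instance : Fintype Lin := ⟨{Lin.t, Lin.a, Lin.A, Lin.B}, by intro x; cases x <;> simp⟩
instance : Fintype Rul := ⟨{Rul.a, Rul.b, Rul.c}, by intro x; cases x <;> simp⟩
instance : Fintype Sta := ⟨{Sta.o, Sta.L, Sta.R, Sta.L2, Sta.R2, Sta.L3, Sta.R3},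
  by intro x; cases x <;> simp⟩

abbrev ZV := Fin 5 → ℤ
abbrev YY := Fin 5 ⊕ Lin ⊕ Rul ⊕ Sta
abbrev FY := FreeGroup YY

def eY (i : Fin 5) : FY := FreeGroup.of (Sum.inl i)
def gY (γ : Lin) : FY := FreeGroup.of (Sum.inr (Sum.inl γ))
def hY (θ : Rul) : FY := FreeGroup.of (Sum.inr (Sum.inr (Sum.inl θ)))
def zY (i : Sta) : FY := FreeGroup.of (Sum.inr (Sum.inr (Sum.inr i)))

def TY (v : ZV) : FY := eY 0 ^ v 0 * eY 1 ^ v 1 * eY 2 ^ v 2 * eY 3 ^ v 3 * eY 4 ^ v 4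
def ZY (i : Sta) (v : ZV) : FY := TY v * zY i * (TY v)⁻¹

def lin : Lin → ZV → ZV
  | Lin.t, v => ![2 * v 0, 2 * v 1, 2 * v 2, 2 * v 3, 2 * v 4]
  | Lin.a, v => ![v 0, v 1 + v 3, v 2 + 2 * v 1 + v 3, v 3, v 4]
  | Lin.A, v => ![v 0, v 1, v 2, v 3, v 4 + v 3]
  | Lin.B, v => ![v 0, v 1, v 2, v 3 + v 4, v 4]

theorem lin_add (γ : Lin) (u v : ZV) : lin γ (u + v) = lin γ u + lin γ v := by
  cases γ <;> funext i <;> fin_cases i <;> simp [lin] <;> ring

theorem lin_zero (γ : Lin) : lin γ 0 = 0 := by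
  cases γ <;> funext i <;> fin_cases i <;> simp [lin]

def dgen : Rul → Fin 3 → ZV
  | Rul.a => ![![2, 0, 0, 0, 0], ![0, 1, 0, 0, 0], ![0, 0, 1, 0, 0]]
  | Rul.b => ![![0, 1, 0, 0, 0], ![0, 0, 1, 0, 0], ![0, 0, 0, 1, 0]]
  | Rul.c => ![![0, 0, 0, 2, 0], ![0, 0, 0, 0, 1], ![0, 0, 0, 0, 1]]

def stS : Fin 9 → Sta := ![Sta.o, Sta.L, Sta.R, Sta.L2, Sta.R2, Sta.L3, Sta.L3, Sta.R3, Sta.R3]
def stW : Fin 9 → FY := ![gY Lin.t, TY ![0, 0, 0, 0, 1], TY ![-1, 0, 0, 1, 1], gY Lin.a,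
  TY ![0, 0, 0, 0, 8] * gY Lin.a, gY Lin.A, gY Lin.B, gY Lin.A, gY Lin.B]

abbrev II := (Fin 5 × Fin 5) ⊕ (Lin × Fin 5) ⊕ (Rul × Fin 3) ⊕ (Rul × Bool) ⊕ Fin 9

def relL : II → FY
  | Sum.inl (i, j) => eY i * eY j
  | Sum.inr (Sum.inl (γ, i)) => gY γ * TY (Pi.single i 1)
  | Sum.inr (Sum.inr (Sum.inl (θ, k))) => hY θ * TY (dgen θ k)
  | Sum.inr (Sum.inr (Sum.inr (Sum.inl (θ, s)))) => hY θ * ZY (src θ s) (offs θ s)
  | Sum.inr (Sum.inr (Sum.inr (Sum.inr k))) => stW k * zY (stS k)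

def relR : II → FY
  | Sum.inl (i, j) => eY j * eY i
  | Sum.inr (Sum.inl (γ, i)) => TY (lin γ (Pi.single i 1)) * gY γ
  | Sum.inr (Sum.inr (Sum.inl (θ, k))) => TY (dgen θ k) * hY θ
  | Sum.inr (Sum.inr (Sum.inr (Sum.inl (θ, s)))) => ZY (tgt θ s) (offt θ s) * hY θ
  | Sum.inr (Sum.inr (Sum.inr (Sum.inr k))) => zY (stS k) * stW k

def RQ : Set FY := Set.range (fun k => relL k * (relR k)⁻¹)

def cY : FY := (ZY Sta.L3 0)⁻¹ * ZY Sta.R3 ![0, 0, 0, 1, 0]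

theorem RQ_fin : RQ.Finite := Set.finite_range _

theorem TY_single (i : Fin 5) : TY (Pi.single i 1) = eY i := by
  fin_cases i <;> simp [TY]

theorem TY_zero : TY 0 = 1 := by simp [TY]

theorem zv_ind (S : AddSubgroup ZV) (h : ∀ i, Pi.single i 1 ∈ S) (v : ZV) : v ∈ S := by
  rw [← Finset.univ_sum_single v]
  refine S.sum_mem (fun i _ => ?_)
  have : (Pi.single i (v i) : ZV) = v i • (Pi.single i 1 : ZV) := by
    rw [← Pi.single_smul]; simp
  rw [this]; exact S.zsmul_mem (h i) _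

section
variable {G : Type} [Group G] {φ : FY →* G}

theorem T_add (h : ∀ i j, Commute (φ (eY i)) (φ (eY j))) (u v : ZV) :
    φ (TY (u + v)) = φ (TY u) * φ (TY v) := by
  have c : ∀ i j (m n : ℤ), Commute (φ (eY i) ^ m) (φ (eY j) ^ n) :=
    fun i j m n => (h i j).zpow_zpow m n
  simp only [TY, Pi.add_apply, zpow_add, map_mul, map_zpow]
  rw [(c 0 1 (v 0) (u 1)).mul_mul_mul_comm,
    ((c 0 2 (v 0) (u 2)).mul_left (c 1 2 (v 1) (u 2))).mul_mul_mul_comm,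
    (((c 0 3 (v 0) (u 3)).mul_left (c 1 3 (v 1) (u 3))).mul_left (c 2 3 (v 2) (u 3))).mul_mul_mul_comm,
    ((((c 0 4 (v 0) (u 4)).mul_left (c 1 4 (v 1) (u 4))).mul_left (c 2 4 (v 2) (u 4))).mul_left
      (c 3 4 (v 3) (u 4))).mul_mul_mul_comm]

theorem T_neg (h : ∀ i j, Commute (φ (eY i)) (φ (eY j))) (u : ZV) :
    φ (TY (-u)) = (φ (TY u))⁻¹ := by
  rw [eq_inv_iff_mul_eq_one, ← T_add h, neg_add_cancel, TY_zero, map_one]

variable (hR : ∀ k, φ (relL k) = φ (relR k))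
include hR

theorem r_ee (i j : Fin 5) : Commute (φ (eY i)) (φ (eY j)) := by
  have := hR (Sum.inl (i, j))
  simp only [relL, relR, map_mul] at this
  exact this

theorem r_lin (γ : Lin) (v : ZV) : φ (gY γ) * φ (TY v) = φ (TY (lin γ v)) * φ (gY γ) := by
  let S : AddSubgroup ZV :=
    { carrier := {v | φ (gY γ) * φ (TY v) = φ (TY (lin γ v)) * φ (gY γ)}
      zero_mem' := by simp [lin_zero, TY_zero]
      add_mem' := fun {u v} hu hv => by
        simp only [Set.mem_ofPred_eq] at hu hv ⊢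
        rw [lin_add, T_add (r_ee hR), T_add (r_ee hR), ← mul_assoc, hu, mul_assoc, hv, mul_assoc]
      neg_mem' := fun {u} hu => by
        simp only [Set.mem_ofPred_eq] at hu ⊢
        have : lin γ (-u) = - lin γ u := by
          rw [eq_neg_iff_add_eq_zero, ← lin_add, neg_add_cancel, lin_zero]
        rw [this, T_neg (r_ee hR), T_neg (r_ee hR), eq_inv_mul_iff_mul_eq, ← mul_assoc, ← hu]
        simp }
  refine zv_ind S (fun i => ?_) v
  have := hR (Sum.inr (Sum.inl (γ, i)))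
  simp only [relL, relR, map_mul] at this
  exact this

/-- vectors whose translation commutes with `g` -/
def cmS (g : G) : AddSubgroup ZV where
  carrier := {v | Commute g (φ (TY v))}
  zero_mem' := by simp [TY_zero]
  add_mem' := fun {u v} hu hv => by
    simp only [Set.mem_ofPred_eq] at hu hv ⊢
    rw [T_add (r_ee hR)]; exact hu.mul_right hv
  neg_mem' := fun {u} hu => by
    simp only [Set.mem_ofPred_eq] at hu ⊢
    rw [T_neg (r_ee hR)]; exact hu.inv_right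

theorem r_th (θ : Rul) (a b c : ℤ) :
    Commute (φ (hY θ)) (φ (TY (a • dgen θ 0 + b • dgen θ 1 + c • dgen θ 2))) := by
  have : ∀ k, dgen θ k ∈ cmS hR (φ (hY θ)) := fun k => by
    have := hR (Sum.inr (Sum.inr (Sum.inl (θ, k))))
    simp only [relL, relR, map_mul] at this
    exact this
  exact add_mem (add_mem (zsmul_mem (this 0) a) (zsmul_mem (this 1) b)) (zsmul_mem (this 2) c)

theorem r_st (k : Fin 9) : Commute (φ (stW k)) (φ (zY (stS k))) := by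
  have := hR (Sum.inr (Sum.inr (Sum.inr (Sum.inr k))))
  simp only [relL, relR, map_mul] at this
  exact this

theorem Z_T (x : ZV) (i : Sta) (u : ZV) :
    φ (TY x) * φ (ZY i u) * (φ (TY x))⁻¹ = φ (ZY i (x + u)) := by
  simp only [ZY, map_mul, map_inv, T_add (r_ee hR)]; group

theorem Z_th (θ : Rul) (s : Bool) (a b c : ℤ) {u v : ZV}
    (hu : u = a • dgen θ 0 + b • dgen θ 1 + c • dgen θ 2 + offs θ s)
    (hv : v = a • dgen θ 0 + b • dgen θ 1 + c • dgen θ 2 + offt θ s) :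
    φ (hY θ) * φ (ZY (src θ s) u) * (φ (hY θ))⁻¹ = φ (ZY (tgt θ s) v) := by
  have h1 : φ (hY θ) * φ (ZY (src θ s) (offs θ s)) = φ (ZY (tgt θ s) (offt θ s)) * φ (hY θ) := by
    simpa only [relL, relR, map_mul] using hR (Sum.inr (Sum.inr (Sum.inr (Sum.inl (θ, s)))))
  have h2 := r_th hR θ a b c
  rw [hu, hv, ← Z_T hR, ← Z_T hR, mul_inv_eq_iff_eq_mul, ← mul_assoc, ← mul_assoc, h2.eq,
    mul_assoc _ (φ (hY θ)), h1, mul_assoc, mul_assoc, mul_assoc, mul_assoc, h2.inv_right.eq]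

theorem Z_lin (γ : Lin) (i : Sta) (x : ZV) (h : Commute (φ (TY x * gY γ)) (φ (zY i))) (u : ZV) :
    φ (gY γ) * φ (ZY i u) * (φ (gY γ))⁻¹ = φ (ZY i (lin γ u - x)) := by
  have h1 := r_lin hR γ u
  rw [← mul_inv_eq_iff_eq_mul] at h1
  have h2 := h.eq
  rw [← mul_inv_eq_iff_eq_mul, map_mul] at h2
  simp only [ZY, map_mul, map_inv, sub_eq_add_neg, T_add (r_ee hR), T_neg (r_ee hR), ← h1]
  conv_rhs => rw [← h2]
  group

theorem Z_lin0 (γ : Lin) (i : Sta) (h : Commute (φ (gY γ)) (φ (zY i))) (u : ZV) :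
    φ (gY γ) * φ (ZY i u) * (φ (gY γ))⁻¹ = φ (ZY i (lin γ u)) := by
  rw [Z_lin hR γ i 0 (by rwa [TY_zero, one_mul]), sub_zero]

theorem Z_stab (i : Sta) (x : ZV) (h : Commute (φ (TY x)) (φ (zY i))) (n : ℤ) (u : ZV) :
    φ (ZY i (u + n • x)) = φ (ZY i u) := by
  have h1 : Commute (φ (zY i)) (φ (TY (n • x))) := zsmul_mem (S := AddSubgroup ZV)
    (K := cmS hR (φ (zY i))) h.symm n
  simp only [ZY, map_mul, map_inv, T_add (r_ee hR)]
  rw [mul_assoc (φ (TY u)), ← h1.eq]; group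

omit hR in
variable (φ) in
def P2 (i : Sta) (u : ZV) (j : Sta) (w : ZV) : Prop :=
  IsConj (φ cY) ((φ (ZY i u))⁻¹ * φ (ZY j w))

omit hR in
theorem P2_iff (g : G) {i i' j j' : Sta} {u u' w w' : ZV}
    (h1 : g * φ (ZY i u) * g⁻¹ = φ (ZY i' u')) (h2 : g * φ (ZY j w) * g⁻¹ = φ (ZY j' w')) :
    P2 φ i u j w ↔ P2 φ i' u' j' w' := by
  have : IsConj ((φ (ZY i u))⁻¹ * φ (ZY j w)) ((φ (ZY i' u'))⁻¹ * φ (ZY j' w')) :=
    isConj_iff.2 ⟨g, by rw [← h1, ← h2]; group⟩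
  exact ⟨fun h => h.trans this, fun h => h.trans this.symm⟩

theorem step7 (a b : ℤ) (h : IsCoprime a b) : P2 φ Sta.L3 0 Sta.R3 ![0, 0, 0, a, b] := by
  refine sl2_ind (fun a b => P2 φ Sta.L3 0 Sta.R3 ![0, 0, 0, a, b]) ?_ (fun a b => ?_)
    (fun a b => ?_) a b h
  · show IsConj _ _
    rw [cY, map_mul, map_inv]
  · exact P2_iff _ ((Z_lin0 hR Lin.A _ (r_st hR 5) 0).trans (by rw [lin_zero]; rfl))
      (Z_lin0 hR Lin.A _ (r_st hR 7) _)
  · exact P2_iff _ ((Z_lin0 hR Lin.B _ (r_st hR 6) 0).trans (by rw [lin_zero]; rfl))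
      (Z_lin0 hR Lin.B _ (r_st hR 8) _)

theorem step5 (N : ℕ) (d ν : ℤ) (h : P2 φ Sta.L2 0 Sta.R2 ![0, 0, 0, d, ν + 8 * N]) :
    P2 φ Sta.L2 0 Sta.R2 ![0, N * d, N ^ 2 * d, d, ν] := by
  induction N generalizing ν with
  | zero => simpa using h
  | succ N ih =>
    have := ih (ν + 8) (by convert h using 6; push_cast; ring)
    refine (P2_iff _ ((Z_lin0 hR Lin.a _ (r_st hR 3) 0).trans (by rw [lin_zero]; rfl))
      ((Z_lin hR Lin.a _ _ (r_st hR 4) _).trans ?_)).1 this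
    congr 2
    funext i; fin_cases i <;> simp [lin] <;> ring

theorem step_odd (N : ℕ) (n : ℤ) (h : IsCoprime (2 * n + 1) (8 * N + 3 : ℤ)) :
    P2 φ Sta.o 0 Sta.o ![2 * n + 1, N * (2 * n + 1), N ^ 2 * (2 * n + 1), 0, 0] := by
  have s7 := step7 hR _ _ h
  have s6 : P2 φ Sta.L2 0 Sta.R2 ![0, 0, 0, 2 * n + 1, 3 + 8 * N] :=
    (P2_iff _ (Z_th hR Rul.c false 0 0 0 (by simp [offs]) (by simp [offt]))
      (Z_th hR Rul.c true n (8 * N + 3) 0
        (by funext i; fin_cases i <;> simp [offs, dgen] <;> ring)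
        (by funext i; fin_cases i <;> simp [offt, dgen] <;> ring))).2 s7
  have s5 := step5 hR N _ _ s6
  have s4 : P2 φ Sta.L 0 Sta.R ![0, N * (2 * n + 1), N ^ 2 * (2 * n + 1), 2 * n + 1, 0] :=
    (P2_iff _ (Z_th hR Rul.b false 0 0 0 (by simp [offs]) (by simp [offt]))
      (Z_th hR Rul.b true (N * (2 * n + 1)) (N ^ 2 * (2 * n + 1)) (2 * n + 1)
        (by funext i; fin_cases i <;> simp [offs, dgen])
        (by funext i; fin_cases i <;> simp [offt, dgen]))).2 s5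
  have s3 : P2 φ Sta.L 0 Sta.R ![2 * n + 1, N * (2 * n + 1), N ^ 2 * (2 * n + 1), 0, 0] := by
    refine (P2_iff (φ (TY ![0, 0, 0, 0, 2 * n + 1])) ?_ ?_).1 s4
    · rw [Z_T hR, ← Z_stab hR Sta.L _ (r_st hR 1) (-(2 * n + 1))]
      congr 2
      funext i; fin_cases i <;> simp
    · rw [Z_T hR, ← Z_stab hR Sta.R _ (r_st hR 2) (-(2 * n + 1))]
      congr 2
      funext i; fin_cases i <;> simp
  exact (P2_iff _ (Z_th hR Rul.a false 0 0 0 (by simp [offs]) (by simp [offt]))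
      (Z_th hR Rul.a true n (N * (2 * n + 1)) (N ^ 2 * (2 * n + 1))
        (by funext i; fin_cases i <;> simp [offs, dgen] <;> ring)
        (by funext i; fin_cases i <;> simp [offt, dgen] <;> ring))).2 s3

theorem step_all (N : ℕ) (d : ℤ) (h : IsCoprime d (8 * N + 3 : ℤ)) :
    P2 φ Sta.o 0 Sta.o ![d, N * d, N ^ 2 * d, 0, 0] := by
  induction hn : d.natAbs using Nat.strong_induction_on generalizing d with
  | _ n ih =>
  obtain ⟨k, rfl | rfl⟩ := Int.even_or_odd' d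
  · have hk : k ≠ 0 := by
      rintro rfl
      rw [mul_zero, isCoprime_zero_left] at h
      exact not_unit N h
    have := ih k.natAbs (by omega) k h.of_mul_left_right rfl
    refine (P2_iff _ ((Z_lin0 hR Lin.t _ (r_st hR 0) 0).trans (by rw [lin_zero]; rfl))
      ((Z_lin0 hR Lin.t _ (r_st hR 0) _).trans ?_)).1 this
    congr 2
    funext i; fin_cases i <;> simp [lin] <;> ring
  · exact step_odd hR N k h

theorem big (k : ℕ) : ∃ q : Fin k → G, ∀ i j, i ≠ j → IsConj (φ cY) ((q i)⁻¹ * q j) := by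
  obtain ⟨p, hp, hp1, hp2⟩ := Nat.forall_exists_prime_gt_and_eq_mod (q := 8) (a := 3)
    (by decide) k
  have hp3 : p % 8 = 3 := by
    have := (ZMod.natCast_eq_natCast_iff' p 3 8).1 (by simpa using hp2)
    simpa using this
  have hN : (8 * (p / 8 : ℕ) + 3 : ℤ) = p := by omega
  refine ⟨fun i => φ (ZY Sta.o ![i, (p / 8 : ℕ) * i, (p / 8 : ℕ) ^ 2 * i, 0, 0]), fun i j hij => ?_⟩
  have h1 : IsCoprime ((j : ℤ) - i) (8 * (p / 8 : ℕ) + 3 : ℤ) := by
    rw [hN]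
    refine ((Nat.prime_iff_prime_int.1 hp1).irreducible.coprime_iff_not_dvd.2 (fun hd => ?_)).symm
    have := Int.eq_zero_of_abs_lt_dvd hd (by
      have := i.2
      have := j.2
      rw [abs_lt]; omega)
    exact hij (Fin.ext (by omega))
  refine (P2_iff _ ((Z_T hR _ _ _).trans (by rw [add_zero])) ((Z_T hR _ _ _).trans ?_)).1
    (step_all hR _ _ h1)
  congr 2
  funext i; fin_cases i <;> simp <;> ring

end

end Pool.Agent.H337Z
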