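import Pool.Agent.H337Z.QDer

/-! The model of the presentation: no infinite clique. -/

set_option autoImplicit false
open Classical SemidirectProduct

namespace Pool.Agent.H337Z

def linQ : Lin → U → U
  | Lin.t, v => ![2 * v 0, 2 * v 1, 2 * v 2, 2 * v 3, 2 * v 4]
  | Lin.a, v => ![v 0, v 1 + v 3, v 2 + 2 * v 1 + v 3, v 3, v 4]
  | Lin.A, v => ![v 0, v 1, v 2, v 3, v 4 + v 3]
  | Lin.B, v => ![v 0, v 1, v 2, v 3 + v 4, v 4]

def linI : Lin → U → U
  | Lin.t, v => ![v 0 / 2, v 1 / 2, v 2 / 2, v 3 / 2, v 4 / 2]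
  | Lin.a, v => ![v 0, v 1 - v 3, v 2 - 2 * v 1 + v 3, v 3, v 4]
  | Lin.A, v => ![v 0, v 1, v 2, v 3, v 4 - v 3]
  | Lin.B, v => ![v 0, v 1, v 2, v 3 - v 4, v 4]

def linM (γ : Lin) : MM where
  toFun := linQ γ
  invFun := linI γ
  left_inv v := by cases γ <;> funext i <;> fin_cases i <;> simp [linQ, linI] <;> ring
  right_inv v := by cases γ <;> funext i <;> fin_cases i <;> simp [linQ, linI] <;> ring

theorem linM_apply (γ : Lin) (v : U) : linM γ v = linQ γ v := rfl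

theorem linQ_add (γ : Lin) (u v : U) : linQ γ (u + v) = linQ γ u + linQ γ v := by
  cases γ <;> funext i <;> fin_cases i <;> simp [linQ] <;> ring

theorem linQ_cst (γ : Lin) (v : ZV) : linQ γ (cst v) = cst (lin γ v) := by
  cases γ <;> funext i <;> fin_cases i <;> simp [linQ, lin]

theorem linM_tau (γ : Lin) (v : ZV) : linM γ * tau (cst v) = tau (cst (lin γ v)) * linM γ := by
  ext1 x; simp [linM_apply, linQ_add, linQ_cst]

theorem cst_add (u v : ZV) : cst (u + v) = cst u + cst v := by funext i; simp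
theorem cst_zero : cst 0 = 0 := by funext i; simp
theorem cst_neg (u : ZV) : cst (-u) = - cst u := by funext i; simp

theorem t_mem : linM Lin.t ∈ KK Sta.o := by
  refine ⟨linQ_add Lin.t, fun N v => ?_⟩
  simp only [AN, Cc, linM_apply, linQ]
  rw [EN.two]
  simp [mul_add]

theorem a_mem : linM Lin.a ∈ KK Sta.L2 :=
  ⟨1, fun v => by funext i; fin_cases i <;> simp [linM_apply, linQ, sh]⟩

theorem a8_mem : tau (cst ![0, 0, 0, 0, 8]) * linM Lin.a ∈ KK Sta.R2 :=
  ⟨1, fun v => by funext i; fin_cases i <;> simp [linM_apply, linQ, sh, add_comm]⟩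

theorem A_mem : linM Lin.A ∈ addPres (fun _ : Unit => A3) := by
  refine ⟨linQ_add Lin.A, fun _ v => ⟨?_, ?_⟩⟩
  · rintro ⟨h0, h1, h2, a, b, h3, h4, h5⟩
    exact ⟨h0, h1, h2, a, b + a, by simpa using h3.add_mul_left_right 1, h4,
      by simp [linM_apply, linQ, h4, h5]⟩
  · rintro ⟨h0, h1, h2, a, b, h3, h4, h5⟩
    simp [linM_apply, linQ] at h4 h5
    exact ⟨h0, h1, h2, a, b + a * (-1), h3.add_mul_left_right _, h4, by push_cast; linarith⟩

theorem B_mem : linM Lin.B ∈ addPres (fun _ : Unit => A3) := by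
  refine ⟨linQ_add Lin.B, fun _ v => ⟨?_, ?_⟩⟩
  · rintro ⟨h0, h1, h2, a, b, h3, h4, h5⟩
    exact ⟨h0, h1, h2, a + b, b, by simpa using h3.add_mul_left_left 1,
      by simp [linM_apply, linQ, h4, h5], h5⟩
  · rintro ⟨h0, h1, h2, a, b, h3, h4, h5⟩
    simp [linM_apply, linQ] at h4 h5
    exact ⟨h0, h1, h2, a + b * (-1), b, h3.add_mul_left_left _, by push_cast; linarith, h5⟩

theorem dgen_DD (θ : Rul) (k : Fin 3) : DD θ (cst (dgen θ k)) := by
  cases θ <;> fin_cases k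
  · exact ⟨⟨1, by simp [dgen]⟩, by simp [dgen], by simp [dgen]⟩
  · exact ⟨⟨0, by simp [dgen]⟩, by simp [dgen], by simp [dgen]⟩
  · exact ⟨⟨0, by simp [dgen]⟩, by simp [dgen], by simp [dgen]⟩
  · exact ⟨by simp [dgen], by simp [dgen]⟩
  · exact ⟨by simp [dgen], by simp [dgen]⟩
  · exact ⟨by simp [dgen], by simp [dgen]⟩
  · exact ⟨by simp [dgen], by simp [dgen], by simp [dgen], ⟨1, by simp [dgen]⟩, 0, by simp [dgen]⟩
  · exact ⟨by simp [dgen], by simp [dgen], by simp [dgen], ⟨0, by simp [dgen]⟩, 1, by simp [dgen]⟩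
  · exact ⟨by simp [dgen], by simp [dgen], by simp [dgen], ⟨0, by simp [dgen]⟩, 1, by simp [dgen]⟩

section dl
variable {W : Type}

noncomputable def dl (x : W) : W → ℤˣ := fun w => if w = x then -1 else 1

theorem dl_inv (x : W) : (dl x)⁻¹ = dl x := by
  funext w; by_cases h : w = x <;> simp [dl, h]

theorem dl_sq (x : W) : dl x * dl x = 1 := by
  nth_rewrite 1 [← dl_inv x]; exact inv_mul_cancel _

theorem dl_smul {B : Type} [Group B] [MulAction B W] (b : B) (x : W) :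
    mulAutArrow b (dl x) = dl (b • x) := by
  funext w
  show dl x (b⁻¹ • w) = _
  simp only [dl, inv_smul_eq_iff]

theorem neg_ne : (-1 : ℤˣ) ≠ 1 := by decide

theorem pair_eq {a b u v : W} (h : dl a * dl b = dl u * dl v) (huv : u ≠ v) :
    (a = u ∧ b = v) ∨ (a = v ∧ b = u) := by
  have h1 := congrFun h u
  have h2 := congrFun h v
  simp only [Pi.mul_apply, dl, if_true, huv, huv.symm, if_false] at h1 h2
  by_cases e1 : u = a <;> by_cases e2 : u = b <;> by_cases e3 : v = a <;> by_cases e4 : v = b <;>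
    simp_all [neg_ne, neg_ne.symm]

theorem meet {x y x' y' u v : W} (h : dl x * dl y * (dl x' * dl y') = dl u * dl v)
    (hx' : x' ≠ y') (hx : x ≠ y) : (x = x' ∨ x = y') ∨ (y = x' ∨ y = y') := by
  by_contra hn
  push Not at hn
  obtain ⟨⟨n1, n2⟩, n3, n4⟩ := hn
  have h1 := congrFun h x
  have h2 := congrFun h y
  have h3 := congrFun h x'
  simp only [Pi.mul_apply, dl, if_true, hx, hx.symm, hx', n1, n2, n3, n4, n1.symm, n3.symm,
    if_false] at h1 h2 h3
  by_cases e1 : x = u <;> by_cases e2 : x = v <;> by_cases e3 : y = u <;> by_cases e4 : y = v <;>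
    by_cases e5 : x' = u <;> by_cases e6 : x' = v <;> simp_all [neg_ne, neg_ne.symm]

theorem star (E : W → W → Prop) (hs : ∀ p q, E p q → E q p) (hi : ∀ p, ¬ E p p)
    (s : ℕ → W → ℤˣ) (h1 : ∀ i, ∃ x y, E x y ∧ s i = dl x * dl y)
    (h2 : ∀ i j, i < j → ∃ x y, E x y ∧ s i * s j = dl x * dl y) :
    ∃ f : ℕ → W, ∀ i j, i ≠ j → E (f i) (f j) := by
  have ne : ∀ {p q}, E p q → p ≠ q := fun h e => hi _ (e ▸ h)
  obtain ⟨x, y, hxy, e0⟩ := h1 0
  have key : ∀ p, {i | ∃ z, s i = dl p * dl z}.Infinite → ∃ f : ℕ → W, ∀ i j, i ≠ j → E (f i) (f j) := by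
    intro p hp
    have hz : ∀ i, ∃ z, s (Nat.nth (fun i => ∃ z, s i = dl p * dl z) i) = dl p * dl z :=
      Nat.nth_mem_of_infinite hp
    choose z hz using hz
    have k : ∀ i j, i < j → E (z i) (z j) := by
      intro i j hij
      obtain ⟨u, v, huv, e⟩ := h2 _ _ (Nat.nth_strictMono hp hij)
      rw [hz, hz, mul_mul_mul_comm, dl_sq, one_mul] at e
      rcases pair_eq e (ne huv) with ⟨rfl, rfl⟩ | ⟨rfl, rfl⟩
      · exact huv
      · exact hs _ _ huv
    exact ⟨z, fun i j hij => (lt_or_gt_of_ne hij).elim (k i j) (fun h => hs _ _ (k j i h))⟩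
  by_contra hn
  have f1 := Set.not_infinite.1 (fun h => hn (key x h))
  have f2 := Set.not_infinite.1 (fun h => hn (key y h))
  refine Set.infinite_univ (((f1.union f2).insert 0).subset (fun i _ => ?_))
  rcases Nat.eq_zero_or_pos i with rfl | hi0
  · exact Or.inl rfl
  obtain ⟨x', y', hxy', e1⟩ := h1 i
  obtain ⟨u, v, -, e2⟩ := h2 0 i hi0
  rw [e0, e1] at e2
  rcases meet e2 (ne hxy') (ne hxy) with (rfl | rfl) | (rfl | rfl)
  · exact Or.inr (Or.inl ⟨_, e1⟩)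
  · exact Or.inr (Or.inl ⟨_, e1.trans (mul_comm _ _)⟩)
  · exact Or.inr (Or.inr ⟨_, e1⟩)
  · exact Or.inr (Or.inr ⟨_, e1.trans (mul_comm _ _)⟩)

end dl

section model
variable {B : Type} [Group B] {W : Type} [MulAction B W] (ρ : MM →* B) (th : Rul → B) (ι : V0 → W)

abbrev GW (B : Type) [Group B] (W : Type) [MulAction B W] := (W → ℤˣ) ⋊[mulAutArrow] B

noncomputable def fW : YY → GW B W
  | Sum.inl i => inr (ρ (tau (cst (Pi.single i 1))))
  | Sum.inr (Sum.inl γ) => inr (ρ (linM γ))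
  | Sum.inr (Sum.inr (Sum.inl θ)) => inr (th θ)
  | Sum.inr (Sum.inr (Sum.inr i)) => inl (dl (ι (PP i 0)))

noncomputable def psW : FY →* GW B W := FreeGroup.lift (fW ρ th ι)

theorem ps_e (i : Fin 5) : psW ρ th ι (eY i) = inr (ρ (tau (cst (Pi.single i 1)))) :=
  FreeGroup.lift_apply_of
theorem ps_g (γ : Lin) : psW ρ th ι (gY γ) = inr (ρ (linM γ)) := FreeGroup.lift_apply_of
theorem ps_h (θ : Rul) : psW ρ th ι (hY θ) = inr (th θ) := FreeGroup.lift_apply_of
theorem ps_z (i : Sta) : psW ρ th ι (zY i) = inl (dl (ι (PP i 0))) := FreeGroup.lift_apply_of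

theorem ps_ee (i j : Fin 5) : Commute (psW ρ th ι (eY i)) (psW ρ th ι (eY j)) := by
  rw [ps_e, ps_e]
  refine Commute.map (Commute.map ?_ _) _
  show _ * _ = _ * _
  rw [← tau_add, ← tau_add, add_comm]

theorem ps_T (v : ZV) : psW ρ th ι (TY v) = inr (ρ (tau (cst v))) := by
  let S : AddSubgroup ZV :=
    { carrier := {v | psW ρ th ι (TY v) = inr (ρ (tau (cst v)))}
      zero_mem' := by simp [TY_zero, cst_zero, tau_zero]
      add_mem' := fun {u v} hu hv => by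
        simp only [Set.mem_ofPred_eq] at hu hv ⊢
        rw [T_add (ps_ee ρ th ι), hu, hv, cst_add, tau_add, map_mul, map_mul]
      neg_mem' := fun {u} hu => by
        simp only [Set.mem_ofPred_eq] at hu ⊢
        rw [T_neg (ps_ee ρ th ι), hu, cst_neg, tau_neg, map_inv, map_inv] }
  refine zv_ind S (fun i => ?_) v
  show psW ρ th ι (TY _) = _
  rw [TY_single, ps_e]

theorem conj_dl (b : B) (x : W) :
    (inr b * inl (dl x) * (inr b)⁻¹ : GW B W) = inl (dl (b • x)) := by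
  rw [← dl_smul, inl_aut, map_inv]

theorem conj_any (g : GW B W) (a : W → ℤˣ) : g * inl a * g⁻¹ = inl (mulAutArrow g.right a) := by
  conv_lhs => rw [← inl_left_mul_inr_right g]
  rw [mul_inv_rev, mul_assoc, mul_assoc, ← mul_assoc (inl a), ← mul_assoc (inr _),
    ← mul_assoc (inr _), ← map_inv inr, ← inl_aut, ← map_inv, ← map_mul, ← map_mul, mul_comm,
    inv_mul_cancel_right]

variable {ρ ι}
variable (h1 : ∀ m x, ρ m • ι x = ι (m • x))
include h1

theorem ps_Z (i : Sta) (v : ZV) : psW ρ th ι (ZY i v) = inl (dl (ι (PP i (cst v)))) := by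
  rw [ZY, map_mul, map_mul, map_inv, ps_T, ps_z, conj_dl, h1, tau_PP, add_zero]

theorem ps_st {i : Sta} {w : FY} {m : MM} (hm : m ∈ KK i) (hw : psW ρ th ι w = inr (ρ m)) :
    psW ρ th ι (w * zY i) = psW ρ th ι (zY i * w) := by
  rw [map_mul, map_mul, hw, ps_z, ← mul_inv_eq_iff_eq_mul, conj_dl, h1]
  congr 3
  rw [PP, smul_pt, pt_eq, tau_zero]
  simpa using hm

theorem ps_rel (h2 : ∀ θ m, m ∈ KR θ → Commute (th θ) (ρ m))
    (h3 : ∀ θ x y, StM θ x y → th θ • ι x = ι y) (k : II) :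
    psW ρ th ι (relL k) = psW ρ th ι (relR k) := by
  rcases k with ⟨i, j⟩ | ⟨γ, i⟩ | ⟨θ, k⟩ | ⟨θ, s⟩ | k <;> simp only [relL, relR]
  · rw [map_mul, map_mul]; exact ps_ee ρ th ι i j
  · rw [map_mul, map_mul, ps_g, ps_T, ps_T, ← map_mul, ← map_mul, linM_tau, map_mul, map_mul]
  · rw [map_mul, map_mul, ps_h, ps_T]
    exact (h2 θ _ ⟨_, dgen_DD θ k, rfl⟩).map inr
  · rw [map_mul, map_mul, ps_h, ps_Z th h1, ps_Z th h1, ← mul_inv_eq_iff_eq_mul, conj_dl,
      h3 θ _ _ ⟨0, s, DD_zero θ, by rw [zero_add], by rw [zero_add]⟩]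
  · fin_cases k
    · exact ps_st th h1 t_mem (ps_g _ _ _ _)
    · exact ps_st th h1 (i := Sta.L) ⟨1, by congr 1; funext i; fin_cases i <;> simp⟩ (ps_T _ _ _ _)
    · exact ps_st th h1 (i := Sta.R) ⟨1, by congr 1; funext i; fin_cases i <;> simp⟩ (ps_T _ _ _ _)
    · exact ps_st th h1 a_mem (ps_g _ _ _ _)
    · exact ps_st th h1 a8_mem (by
        show psW ρ th ι (TY _ * gY _) = _
        rw [map_mul, ps_T, ps_g, map_mul, map_mul])
    · exact ps_st th h1 (i := Sta.L3) A_mem (ps_g _ _ _ _)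
    · exact ps_st th h1 (i := Sta.L3) B_mem (ps_g _ _ _ _)
    · exact ps_st th h1 (i := Sta.R3) A_mem (ps_g _ _ _ _)
    · exact ps_st th h1 (i := Sta.R3) B_mem (ps_g _ _ _ _)

end model

theorem mk_rel (k : II) : PresentedGroup.mk RQ (relL k) = PresentedGroup.mk RQ (relR k) := by
  rw [← mul_inv_eq_one, ← map_inv, ← map_mul]
  exact PresentedGroup.one_of_mem ⟨k, rfl⟩

theorem thmB : PresentedGroup.mk RQ cY ≠ 1 ∧
    (¬ ∃ f : ℕ → PresentedGroup RQ, ∀ i j, i < j → AdjQ RQ cY (f i) (f j)) ∧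
    ∀ k, ∃ q : Fin k → PresentedGroup RQ, ∀ i j, i ≠ j → AdjQ RQ cY (q i) (q j) := by
  obtain ⟨B, _, W, _, ρ, th, ι, E, h1, h2, h3, h4, h5, h6, h7, h8⟩ := mach.glob
  let ψ : PresentedGroup RQ →* GW B W := PresentedGroup.toGroup (f := fW ρ th ι) (by
    rintro _ ⟨k, rfl⟩
    show psW ρ th ι _ = 1
    rw [map_mul, map_inv, ps_rel th h1 h2 h3, mul_inv_cancel])
  have hc : ∃ x y, E x y ∧ ψ (PresentedGroup.mk RQ cY) = inl (dl x * dl y) := by
    refine ⟨_, _, h5 (PP Sta.L3 (cst 0)) (PP Sta.R3 (cst ![0, 0, 0, 1, 0])) ?_, ?_⟩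
    · refine (E_PP _ _ _ _).2 ⟨by simp, by simp, by simp, 1, 0, isCoprime_one_left, by simp, by simp⟩
    · show psW ρ th ι cY = _
      rw [cY, map_mul, map_inv, ps_Z th h1, ps_Z th h1, ← map_inv, dl_inv, map_mul]
  obtain ⟨x0, y0, e0, hc⟩ := hc
  have hadj : ∀ q q', AdjQ RQ cY q q' → ∃ x y, E x y ∧ ψ (q⁻¹ * q') = inl (dl x * dl y) := by
    have k : ∀ g, IsConj (PresentedGroup.mk RQ cY) g → ∃ x y, E x y ∧ ψ g = inl (dl x * dl y) := by
      intro g hg
      obtain ⟨a, rfl⟩ := isConj_iff.1 hg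
      exact ⟨_, _, h4 (ψ a).right _ _ e0, by
        rw [map_mul, map_mul, map_inv, hc, conj_any, map_mul, dl_smul, dl_smul]⟩
    rintro q q' (h | h)
    · exact k _ h
    · obtain ⟨x, y, e, h⟩ := k _ h
      refine ⟨x, y, e, ?_⟩
      rw [← inv_inj, ← map_inv, mul_inv_rev, inv_inv, h, ← map_inv, mul_inv, dl_inv, dl_inv]
  refine ⟨fun h => ?_, ?_, fun k => ?_⟩
  · rw [h, map_one, eq_comm, map_eq_one_iff _ inl_injective, mul_eq_one_iff_eq_inv, dl_inv] at hc
    have := congrFun hc x0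
    have ne : x0 ≠ y0 := fun e => h7 _ (e ▸ e0)
    simp [dl, ne, neg_ne] at this
  · rintro ⟨f, hf⟩
    have k : ∀ i, ∃ x y, E x y ∧ ψ ((f 0)⁻¹ * f (i + 1)) = inl (dl x * dl y) :=
      fun i => hadj _ _ (hf 0 (i + 1) (Nat.succ_pos i))
    choose x y e k using k
    refine h8 (star E h6 h7 (fun i => dl (x i) * dl (y i)) (fun i => ⟨_, _, e i, rfl⟩)
      (fun i j hij => ?_))
    obtain ⟨u, v, e', k'⟩ := hadj _ _ (hf (i + 1) (j + 1) (by omega))
    refine ⟨u, v, e', inl_injective (φ := (mulAutArrow : B →* MulAut (W → ℤˣ))) ?_⟩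
    rw [← k', map_mul, ← k j]
    have : (inl (dl (x i) * dl (y i)) : GW B W) = (ψ ((f 0)⁻¹ * f (i + 1)))⁻¹ := by
      rw [k, ← map_inv, mul_inv, dl_inv, dl_inv]
    rw [this, ← map_inv, ← map_mul]
    congr 1; group
  · obtain ⟨q, hq⟩ := big mk_rel k
    exact ⟨q, fun i j hij => Or.inl (hq i j hij)⟩

end Pool.Agent.H337Z
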