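import Pool.Agent.H337Z.FreeTree

/-! Amenable subgroups of right-angled Artin groups over graphs without infinite cliques. -/

set_option autoImplicit false
open Classical Pointwise FreeGroup

namespace Pool.Agent.H337Z

theorem encode {α β : Type*} (S : Finset α) (F : α → β) {n : ℕ} (h : (S.image F).card ≤ n) :
    ∃ f : α → ℕ, (∀ g ∈ S, f g < n) ∧ ∀ g ∈ S, ∀ g' ∈ S, f g = f g' → F g = F g' := by
  let e := (S.image F).equivFin
  refine ⟨fun g => if hg : F g ∈ S.image F then (e ⟨_, hg⟩ : ℕ) else 0, fun g hg => ?_,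
    fun g hg g' hg' H => ?_⟩
  · simp only [dif_pos (Finset.mem_image_of_mem F hg)]
    exact lt_of_lt_of_le (Fin.is_lt _) h
  · simp only [dif_pos (Finset.mem_image_of_mem F hg), dif_pos (Finset.mem_image_of_mem F hg')] at H
    exact congrArg Subtype.val (e.injective (Fin.ext H))

section
variable {Ω : Type*} [DecidableEq Ω] {M : Type*} [Group M] [MulAction M Ω]

/-- fixes an edge of the tree -/
def FixE (g : SD Ω M) : Prop := ∃ (y : FreeGroup Ω) (ω : Ω), g • y = y ∧ g.right • ω = ω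

theorem sd_tree {R : Type*} [Group R] (hR : Am R) (κ : R →* SD Ω M) :
    (∃ x : FreeGroup Ω, ∀ g, κ g • x = x) ∨
    ∃ D : ℕ, (∀ (S : Finset R) (r : ℕ), (∀ g ∈ S, norm (κ g).left ≤ r) →
        ∃ f : R → ℕ, (∀ g ∈ S, f g < 4 * (r + D)) ∧
          ∀ g ∈ S, ∀ g' ∈ S, f g = f g' → FixE (κ (g⁻¹ * g'))) ∧
      ∀ g : R, (κ g).left = 1 → FixE (κ (g * g)) := by
  let _ : MulAction R (FreeGroup Ω) := MulAction.compHom _ κ
  have hs : ∀ (g : R) (x : FreeGroup Ω), g • x = κ g • x := fun _ _ => rfl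
  have hI : (freeWalls Ω).Inv R := fun g h hh => sd_inv (κ g) h hh
  have h1 : ∀ g : R, g • (1 : FreeGroup Ω) = (κ g).left := fun g => by
    rw [hs, sd_smul, _root_.map_one, mul_one]
  have hst : ∀ (g : R) h, h ∈ (freeWalls Ω).W → g • h = h → FixE (κ g) := by
    intro g h hh e
    obtain ⟨x', x, a, e1, e2⟩ := Walls.stab hI hh e
    exact sd_fix_edge (κ g) x' x a e1 e2
  obtain ⟨m⟩ := hR.toSet (X := FreeGroup Ω) 1
  rcases Walls.tree hI m 1 with H | ⟨D, H1, H2⟩
  · exact Or.inl H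
  · refine Or.inr ⟨D + 2, fun S r hS => ?_, fun g hg => ?_⟩
    · obtain ⟨h, hh, hc⟩ := H1 S (r + 1) (fun g hg => by
        rw [h1]
        have := d_one_le (κ g).left
        have := hS g hg
        omega)
      obtain ⟨f, f1, f2⟩ := encode S (fun g => g • h) (n := 4 * (r + (D + 2))) (by
        refine le_trans hc (le_of_eq ?_); ring)
      refine ⟨f, f1, fun g hg g' hg' e => hst _ h hh ?_⟩
      have : g • h = g' • h := f2 g hg g' hg' e
      rw [mul_smul, ← this, inv_smul_smul]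
    · obtain ⟨h, hh, e⟩ := H2 g (by rw [h1, hg])
      exact hst _ h hh e

theorem sd_sq (g : SD Ω M) (x : FreeGroup Ω) (h : (g * g) • x = x) :
    ∃ y : FreeGroup Ω, g • y = y :=
  Walls.fix_of_sq sd_inv g (sd_noinv g) _ x rfl (by rw [← mul_smul]; exact h)

end

theorem free_growth {Y : Type*} [DecidableEq Y] {R : Type*} [Group R] (hR : Am R) (p : R →* FreeGroup Y) :
    ∃ D : ℕ, ∀ (S : Finset R) (r : ℕ), (∀ g ∈ S, norm (p g) ≤ r) →
      ∃ f : R → ℕ, (∀ g ∈ S, f g < 4 * (r + D)) ∧ ∀ g ∈ S, ∀ g' ∈ S, f g = f g' → p g = p g' := by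
  have hs : ∀ (g : R) (x : FreeGroup Y),
      ((SemidirectProduct.inl : FreeGroup Y →* SD Y (Equiv.Perm Y)).comp p g) • x = p g * x := by
    intro g x
    rw [sd_smul]; simp
  rcases sd_tree hR ((SemidirectProduct.inl : FreeGroup Y →* SD Y (Equiv.Perm Y)).comp p) with
    ⟨x, H⟩ | ⟨D, H, -⟩
  · refine ⟨1, fun S r _ => ⟨fun _ => 0, fun _ _ => by simp, fun g _ g' _ _ => ?_⟩⟩
    have h1 := H g
    have h2 := H g'
    rw [hs, mul_eq_right] at h1 h2
    rw [h1, h2]
  · refine ⟨D, fun S r hS => ?_⟩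
    obtain ⟨f, f1, f2⟩ := H S r hS
    refine ⟨f, f1, fun g hg g' hg' e => ?_⟩
    obtain ⟨y, -, h1, -⟩ := f2 g hg g' hg' e
    rw [hs, mul_eq_right, _root_.map_mul, _root_.map_inv, inv_mul_eq_one] at h1
    exact h1

variable {V : Type*} (Adj : V → V → Prop)

def raagRels : Set (FreeGroup V) :=
  {r | ∃ u v, Adj u v ∧ r = of u * of v * (of v * of u)⁻¹}

abbrev Raag := PresentedGroup (raagRels Adj)

def gen (v : V) : Raag Adj := PresentedGroup.of v

variable {Adj}

theorem gen_comm {u v : V} (h : Adj u v) : Commute (gen Adj u) (gen Adj v) :=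
  PresentedGroup.mk_eq_mk_of_mul_inv_mem (rels := raagRels Adj) ⟨u, v, h, rfl⟩

def rlift {G : Type*} [Group G] (f : V → G) (h : ∀ u v, Adj u v → Commute (f u) (f v)) :
    Raag Adj →* G :=
  PresentedGroup.toGroup (f := f) (by
    rintro r ⟨u, v, ha, rfl⟩
    simp only [_root_.map_mul, _root_.map_inv, lift_apply_of]
    rw [(h u v ha).eq, mul_inv_cancel])

@[simp] theorem rlift_gen {G : Type*} [Group G] (f : V → G)
    (h : ∀ u v, Adj u v → Commute (f u) (f v)) (v : V) : rlift f h (gen Adj v) = f v :=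
  PresentedGroup.toGroup.of _

theorem raag_ext {G : Type*} [Group G] {φ ψ : Raag Adj →* G}
    (h : ∀ v, φ (gen Adj v) = ψ (gen Adj v)) (g : Raag Adj) : φ g = ψ g :=
  DFunLike.congr_fun (PresentedGroup.ext h) g

theorem raag_ind {P : Raag Adj → Prop} (h1 : P 1) (hg : ∀ v, P (gen Adj v))
    (hm : ∀ x y, P x → P y → P (x * y)) (hi : ∀ x, P x → P x⁻¹) (g : Raag Adj) : P g := by
  have : g ∈ Subgroup.closure (Set.range (PresentedGroup.of : V → Raag Adj)) := by
    rw [PresentedGroup.closure_range_of]; trivial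
  induction this using Subgroup.closure_induction with
  | mem x hx => obtain ⟨v, rfl⟩ := hx; exact hg v
  | one => exact h1
  | mul x y _ _ hx hy => exact hm x y hx hy
  | inv x _ hx => exact hi x hx

variable (Adj) in
noncomputable def ret (S : Set V) : Raag Adj →* Raag Adj :=
  rlift (fun v => if v ∈ S then gen Adj v else 1) (by
    intro u v h
    split_ifs
    · exact gen_comm h
    · exact Commute.one_right _
    · exact Commute.one_left _
    · exact Commute.one_left _)

theorem ret_gen (S : Set V) (v : V) : ret Adj S (gen Adj v) = if v ∈ S then gen Adj v else 1 :=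
  rlift_gen _ _ _

theorem ret_ret (S S' : Set V) (g : Raag Adj) : ret Adj S (ret Adj S' g) = ret Adj (S ∩ S') g := by
  refine raag_ext (φ := (ret Adj S).comp (ret Adj S')) (fun v => ?_) g
  simp only [MonoidHom.comp_apply, ret_gen, Set.mem_inter_iff]
  by_cases h : v ∈ S' <;> simp [h, ret_gen]

theorem ret_mono {S S' : Set V} (h : S ⊆ S') {g : Raag Adj} (hg : ret Adj S g = g) :
    ret Adj S' g = g := by
  rw [← hg, ret_ret, Set.inter_eq_right.2 h]

theorem ret_empty (g : Raag Adj) : ret Adj ∅ g = 1 :=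
  raag_ext (ψ := 1) (fun v => by simp [ret_gen]) g

theorem exists_supp (g : Raag Adj) : ∃ S : Finset V, ret Adj S g = g := by
  induction g using raag_ind with
  | h1 => exact ⟨∅, _root_.map_one _⟩
  | hg v => exact ⟨{v}, by simp [ret_gen]⟩
  | hm x y hx hy =>
    obtain ⟨S, hS⟩ := hx
    obtain ⟨S', hS'⟩ := hy
    refine ⟨S ∪ S', ?_⟩
    rw [_root_.map_mul, ret_mono (by simp) hS, ret_mono (by simp) hS']
  | hi x hx =>
    obtain ⟨S, hS⟩ := hx
    exact ⟨S, by rw [_root_.map_inv, hS]⟩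

variable (Adj) in
def lk (v : V) : Set V := {u | Adj u v}

theorem comm_lk (v : V) (g : Raag Adj) : Commute (ret Adj (lk Adj v) g) (gen Adj v) := by
  induction g using raag_ind with
  | h1 => rw [_root_.map_one]; exact Commute.one_left _
  | hg u =>
    rw [ret_gen]
    split_ifs with h
    · exact gen_comm h
    · exact Commute.one_left _
  | hm x y hx hy => rw [_root_.map_mul]; exact hx.mul_left hy
  | hi x hx => rw [_root_.map_inv]; exact hx.inv_left

def Ell (v : V) (g : Raag Adj) : Prop := ∃ y, ret Adj {v}ᶜ (y⁻¹ * g * y) = y⁻¹ * g * y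

theorem Ell.conj {v : V} {g : Raag Adj} (h : Ell v g) (x : Raag Adj) : Ell v (x⁻¹ * g * x) := by
  obtain ⟨y, hy⟩ := h
  refine ⟨x⁻¹ * y, ?_⟩
  have : (x⁻¹ * y)⁻¹ * (x⁻¹ * g * x) * (x⁻¹ * y) = y⁻¹ * g * y := by group
  rw [this, hy]

theorem eq_one_of_ell (S : Finset V) : ∀ g : Raag Adj, ret Adj S g = g → (∀ v, Ell v g) → g = 1 := by
  induction S using Finset.induction_on with
  | empty => intro g h _; rw [← h, Finset.coe_empty, ret_empty]
  | insert v S hv ih =>
    intro g h he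
    obtain ⟨y, hy⟩ := he v
    set x := ret Adj ((insert v S : Finset V) : Set V) y with hx
    have h1 : x⁻¹ * g * x = ret Adj ((insert v S : Finset V) : Set V) (y⁻¹ * g * y) := by
      rw [_root_.map_mul, _root_.map_mul, _root_.map_inv, h]
    have h2 : x⁻¹ * g * x = 1 := by
      refine ih _ ?_ (fun u => (he u).conj x)
      rw [h1, ← hy, ret_ret, ret_ret, ret_ret]
      congr 2
      ext u
      simp only [Set.mem_inter_iff, Finset.coe_insert, Set.mem_insert_iff, Finset.mem_coe,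
        Set.mem_compl_iff, Set.mem_singleton_iff]
      tauto
    calc g = x * (x⁻¹ * g * x) * x⁻¹ := by group
      _ = 1 := by rw [h2]; group

variable (Adj) in
noncomputable def Cv (v : V) : Subgroup (Raag Adj) :=
  (ret Adj (lk Adj v)).eqLocus (ret Adj {v}ᶜ)

theorem mem_Cv {v : V} {g : Raag Adj} : g ∈ Cv Adj v ↔ ret Adj (lk Adj v) g = ret Adj {v}ᶜ g :=
  Iff.rfl

variable (Adj) in
abbrev Om (v : V) := Raag Adj ⧸ Cv Adj v

variable (hs : ∀ u v, Adj u v → Adj v u) (hi : ∀ v, ¬ Adj v v)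

open SemidirectProduct

include hi in
theorem lk_sub (v : V) : lk Adj v ⊆ {v}ᶜ := fun u hu e => by
  rw [Set.mem_singleton_iff] at e
  subst e
  exact hi _ hu

include hi in
theorem ret_lk_pi (v : V) (g : Raag Adj) :
    ret Adj (lk Adj v) (ret Adj {v}ᶜ g) = ret Adj (lk Adj v) g := by
  rw [ret_ret, Set.inter_eq_left.2 (lk_sub hi v)]

theorem pi_pi (v : V) (g : Raag Adj) : ret Adj {v}ᶜ (ret Adj {v}ᶜ g) = ret Adj {v}ᶜ g := by
  rw [ret_ret, Set.inter_self]

include hi in
theorem pi_smul (v : V) (g : Raag Adj) (ω : Om Adj v) : ret Adj {v}ᶜ g • ω = g • ω := by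
  obtain ⟨a, rfl⟩ := QuotientGroup.mk_surjective ω
  rw [MulAction.Quotient.smul_mk, MulAction.Quotient.smul_mk, QuotientGroup.eq, mem_Cv]
  simp only [smul_eq_mul, _root_.map_mul, _root_.map_inv, ret_lk_pi hi, pi_pi, inv_mul_cancel]

noncomputable def kap (v : V) : Raag Adj →* SD (Om Adj v) (Raag Adj) :=
  rlift (fun u => if u = v then inl (of ((1 : Raag Adj) : Om Adj v)) else inr (gen Adj u)) (by
    have key : ∀ u, Adj u v → Commute (inl (of ((1 : Raag Adj) : Om Adj v)) : SD (Om Adj v) (Raag Adj))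
        (inr (gen Adj u)) := by
      intro u hu
      have h1 : gen Adj u • ((1 : Raag Adj) : Om Adj v) = ((1 : Raag Adj) : Om Adj v) := by
        rw [MulAction.Quotient.smul_mk, QuotientGroup.eq, mem_Cv]
        have h2 : u ∈ lk Adj v := hu
        have h3 : u ∈ ({v}ᶜ : Set V) := lk_sub hi v h2
        simp only [smul_eq_mul, mul_one, _root_.map_inv, ret_gen, if_pos h2, if_pos h3]
      have h2 := inl_aut (φ := phi (Om Adj v) (Raag Adj)) (gen Adj u) (of ((1 : Raag Adj) : Om Adj v))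
      rw [phi_of, h1, _root_.map_inv] at h2
      show _ * _ = _ * _
      conv_lhs => rw [h2]
      group
    intro u u' h
    split_ifs with h1 h2 h2
    · exact Commute.refl _
    · subst h1; exact key u' (hs _ _ h)
    · subst h2; exact (key u h).symm
    · exact (gen_comm h).map _)

theorem kap_gen (v u : V) : kap hs hi v (gen Adj u) =
    if u = v then inl (of ((1 : Raag Adj) : Om Adj v)) else inr (gen Adj u) := rlift_gen _ _ _

theorem kap_right (v : V) (g : Raag Adj) : (kap hs hi v g).right = ret Adj {v}ᶜ g := by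
  refine raag_ext (φ := rightHom.comp (kap hs hi v)) (fun u => ?_) g
  simp only [MonoidHom.comp_apply, kap_gen, ret_gen, Set.mem_compl_iff, Set.mem_singleton_iff]
  by_cases h : u = v <;> simp [h]

theorem kap_pi (v : V) (g : Raag Adj) : kap hs hi v (ret Adj {v}ᶜ g) = inr (ret Adj {v}ᶜ g) := by
  refine raag_ext (φ := (kap hs hi v).comp (ret Adj {v}ᶜ)) (ψ := inr.comp (ret Adj {v}ᶜ))
    (fun u => ?_) g
  simp only [MonoidHom.comp_apply, ret_gen, Set.mem_compl_iff, Set.mem_singleton_iff]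
  by_cases h : u = v <;> simp [h, kap_gen]

noncomputable def ev0 (v : V) (ω : Om Adj v) : Raag Adj :=
  Quotient.liftOn' ω (fun a => ret Adj {v}ᶜ a * gen Adj v * (ret Adj {v}ᶜ a)⁻¹) (by
    intro a b hab
    rw [QuotientGroup.leftRel_apply, mem_Cv] at hab
    have h1 := (comm_lk v (a⁻¹ * b)).eq
    rw [hab, _root_.map_mul, _root_.map_inv] at h1
    calc _ = ret Adj {v}ᶜ a * (gen Adj v * ((ret Adj {v}ᶜ a)⁻¹ * ret Adj {v}ᶜ b)) *
          (ret Adj {v}ᶜ b)⁻¹ := by group
      _ = _ := by rw [← h1]; group)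

theorem ev0_mk (v : V) (a : Raag Adj) :
    ev0 v (a : Om Adj v) = ret Adj {v}ᶜ a * gen Adj v * (ret Adj {v}ᶜ a)⁻¹ := rfl

noncomputable def ev (v : V) : FreeGroup (Om Adj v) →* Raag Adj := lift (ev0 v)

theorem kap_ev (v : V) (x : FreeGroup (Om Adj v)) : kap hs hi v (ev v x) = inl x := by
  refine DFunLike.congr_fun (ext_hom ((kap hs hi v).comp (ev v)) inl (fun ω => ?_)) x
  obtain ⟨a, rfl⟩ := QuotientGroup.mk_surjective ω
  simp only [MonoidHom.comp_apply, ev, lift_apply_of, ev0_mk, _root_.map_mul, _root_.map_inv,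
    kap_pi, kap_gen, if_true]
  rw [← _root_.map_inv, ← inl_aut, phi_of, pi_smul hi, MulAction.Quotient.smul_mk]
  simp

theorem ev_left (v : V) (g : Raag Adj) : g = ev v (kap hs hi v g).left * ret Adj {v}ᶜ g := by
  let E : SD (Om Adj v) (Raag Adj) →* Raag Adj := SemidirectProduct.lift (ev v) (ret Adj {v}ᶜ) (by
    intro m
    refine ext_hom _ _ (fun ω => ?_)
    obtain ⟨a, rfl⟩ := QuotientGroup.mk_surjective ω
    simp only [MonoidHom.comp_apply, MulEquiv.coe_toMonoidHom, phi_of, MulAction.Quotient.smul_mk,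
      ev, lift_apply_of, ev0_mk, smul_eq_mul, _root_.map_mul, MulAut.conj_apply]
    group)
  have h1 : E (kap hs hi v g) = g := by
    refine raag_ext (φ := E.comp (kap hs hi v)) (ψ := MonoidHom.id _) (fun u => ?_) g
    simp only [MonoidHom.comp_apply, kap_gen, MonoidHom.id_apply]
    split_ifs with h
    · subst h
      simp [E, ev, ev0_mk]
    · simp [E, ret_gen, h]
  conv_lhs => rw [← h1, ← inl_left_mul_inr_right (kap hs hi v g)]
  rw [_root_.map_mul, kap_right]
  simp only [E, lift_inl, lift_inr, pi_pi]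

theorem fix_conj (v : V) (g : Raag Adj) (x : FreeGroup (Om Adj v)) (h : kap hs hi v g • x = x) :
    ret Adj {v}ᶜ ((ev v x)⁻¹ * g * ev v x) = (ev v x)⁻¹ * g * ev v x ∧
    ret Adj {v}ᶜ ((ev v x)⁻¹ * g * ev v x) = ret Adj {v}ᶜ g := by
  constructor
  · have h1 : (kap hs hi v ((ev v x)⁻¹ * g * ev v x)).left = 1 := by
      rw [sd_smul] at h
      rw [_root_.map_mul, _root_.map_mul, _root_.map_inv, kap_ev, ← _root_.map_inv inl]
      simp only [mul_left, left_inl,
        mul_right, right_inl, _root_.map_one, one_mul, MulAut.one_apply]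
      rw [mul_assoc, h, inv_mul_cancel]
    conv_rhs => rw [ev_left hs hi v ((ev v x)⁻¹ * g * ev v x), h1]
    simp
  · have h2 : ret Adj {v}ᶜ (ev v x) = 1 := by rw [← kap_right hs hi, kap_ev]; rfl
    simp [h2]

theorem ell_of_fix (v : V) (g : Raag Adj) (x : FreeGroup (Om Adj v)) (h : kap hs hi v g • x = x) :
    Ell v g := ⟨_, (fix_conj hs hi v g x h).1⟩

theorem fix_of_ell (v : V) (g : Raag Adj) (h : Ell v g) :
    ∃ x : FreeGroup (Om Adj v), kap hs hi v g • x = x := by
  obtain ⟨y, hy⟩ := h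
  refine ⟨kap hs hi v y • 1, ?_⟩
  have h1 : kap hs hi v (y⁻¹ * g * y) • (1 : FreeGroup (Om Adj v)) = 1 := by
    rw [← hy, kap_pi, sd_smul]; simp
  rw [← mul_smul, ← _root_.map_mul]
  have : g * y = y * (y⁻¹ * g * y) := by group
  rw [this, _root_.map_mul, mul_smul, h1]

include hs hi in
theorem ell_of_sq (v : V) (g : Raag Adj) (h : Ell v (g * g)) : Ell v g := by
  obtain ⟨x, hx⟩ := fix_of_ell hs hi v _ h
  rw [_root_.map_mul] at hx
  obtain ⟨y, hy⟩ := sd_sq _ x hx
  exact ell_of_fix hs hi v g y hy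

theorem ell_of_fixE (v : V) (g : Raag Adj) (h : FixE (kap hs hi v g)) (u : V) (hu : ¬ Adj u v) :
    Ell u g := by
  obtain ⟨x, ω, h1, h2⟩ := h
  obtain ⟨e1, e2⟩ := fix_conj hs hi v g x h1
  obtain ⟨a, rfl⟩ := QuotientGroup.mk_surjective ω
  set g' := (ev v x)⁻¹ * g * ev v x with hg'
  rw [kap_right, ← e2, e1, MulAction.Quotient.smul_mk, eq_comm, QuotientGroup.eq, mem_Cv,
    smul_eq_mul] at h2
  refine ⟨ev v x * ret Adj {v}ᶜ a, ?_⟩
  have h3 : (ev v x * ret Adj {v}ᶜ a)⁻¹ * g * (ev v x * ret Adj {v}ᶜ a) =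
      ret Adj (lk Adj v) (a⁻¹ * (g' * a)) := by
    rw [h2, _root_.map_mul, _root_.map_mul, _root_.map_inv, e1, hg']; group
  rw [h3, ret_ret, Set.inter_eq_right.2]
  intro w hw e
  rw [Set.mem_singleton_iff] at e
  subst e
  exact hu hw

def Len (g : Raag Adj) (r : ℕ) : Prop :=
  ∃ w : List (V × Bool), w.length ≤ r ∧ PresentedGroup.mk (raagRels Adj) (FreeGroup.mk w) = g

theorem norm_kap (v : V) {g : Raag Adj} {r : ℕ} (h : Len g r) : norm (kap hs hi v g).left ≤ r := by
  obtain ⟨w, h1, rfl⟩ := h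
  refine le_trans ?_ h1
  clear h1
  induction w with
  | nil => rw [← one_eq_mk]; simp
  | cons a w ih =>
    rw [← List.singleton_append, ← mul_mk, _root_.map_mul, _root_.map_mul, mul_left]
    refine le_trans (norm_mul_le _ _) ?_
    rw [phi_apply, norm_map (MulAction.injective _)]
    have : norm (kap hs hi v (PresentedGroup.mk (raagRels Adj) (FreeGroup.mk [a]))).left ≤ 1 := by
      obtain ⟨u, b⟩ := a
      cases b
      · have e : FreeGroup.mk [(u, false)] = (of u)⁻¹ := (inv_letter (u, true)).symm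
        rw [e, _root_.map_inv, _root_.map_inv]
        show norm (kap hs hi v (gen Adj u))⁻¹.left ≤ 1
        rw [kap_gen]
        split_ifs
        · rw [← _root_.map_inv]; simp
        · rw [← _root_.map_inv]; simp
      · show norm (kap hs hi v (gen Adj u)).left ≤ 1
        rw [kap_gen]
        split_ifs <;> simp
    simp only [List.length_append, List.length_singleton]
    omega

include hs hi in
theorem raag_growth (hcl : ¬ ∃ f : ℕ → V, ∀ i j, i < j → Adj (f i) (f j))
    {R : Type*} [Group R] (hR : Am R) (ι : R →* Raag Adj) (hι : Function.Injective ι) :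
    ∃ D k : ℕ, ∀ (r : ℕ) (S : Finset R), (∀ g ∈ S, Len (ι g) r) → S.card ≤ (4 * (r + D)) ^ k := by
  let Sg : Set V := {v | ∃ g : R, ¬ Ell v (ι g)}
  have h1 : ∀ v ∈ Sg, ∃ D : ℕ, (∀ (S : Finset R) (r : ℕ), (∀ g ∈ S, Len (ι g) r) →
        ∃ f : R → ℕ, (∀ g ∈ S, f g < 4 * (r + D)) ∧
          ∀ g ∈ S, ∀ g' ∈ S, f g = f g' → Ell v (ι (g⁻¹ * g'))) ∧
      ∀ g : R, ret Adj {v}ᶜ (ι g) = ι g → ∀ u, ¬ Adj u v → Ell u (ι g) := by
    rintro v ⟨g0, hg0⟩
    rcases sd_tree hR ((kap hs hi v).comp ι) with ⟨x, H⟩ | ⟨D, H1, H2⟩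
    · exact (hg0 (ell_of_fix hs hi v _ x (H g0))).elim
    · refine ⟨D, fun S r hS => ?_, fun g hg u hu => ?_⟩
      · obtain ⟨f, f1, f2⟩ := H1 S r (fun g hg => norm_kap hs hi v (hS g hg))
        exact ⟨f, f1, fun g hg g' hg' e => ell_of_fixE hs hi v _ (f2 g hg g' hg' e) v (hi v)⟩
      · have := ell_of_fixE hs hi v _ (H2 g (by
          rw [MonoidHom.comp_apply, ← hg, kap_pi]; rfl)) u hu
        rw [_root_.map_mul] at this
        exact ell_of_sq hs hi u _ this
  have hfin : Sg.Finite := by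
    by_contra hinf
    have h2 : ∀ v ∈ Sg, ∃ S : Finset V, ∀ v' ∈ Sg, v' ∉ S → Adj v v' := by
      rintro v ⟨g, hg⟩
      obtain ⟨S, hS⟩ := exists_supp (ι g)
      refine ⟨S, fun v' hv' hn => ?_⟩
      by_contra hna
      obtain ⟨D, -, H⟩ := h1 v' hv'
      refine hg (H g (ret_mono ?_ hS) v hna)
      intro u hu e
      rw [Set.mem_singleton_iff] at e
      subst e
      exact hn hu
    choose! Sv hSv using h2
    obtain ⟨f, -, hf⟩ := exists_seq_of_forall_finset_exists (fun v => v ∈ Sg) Adj (by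
      intro s hs'
      obtain ⟨y, hy, hy2⟩ := Set.Infinite.exists_notMem_finset hinf (s.biUnion Sv)
      refine ⟨y, hy, fun x hx => hSv x (hs' x hx) y hy (fun h => hy2 ?_)⟩
      exact Finset.mem_biUnion.2 ⟨x, hx, h⟩)
    exact hcl ⟨f, hf⟩
  choose! Dv hD using h1
  let I := hfin.toFinset
  refine ⟨I.sup Dv, I.card, fun r S hS => ?_⟩
  have h3 : ∀ v : I, ∃ f : R → ℕ, (∀ g ∈ S, f g < 4 * (r + I.sup Dv)) ∧
      ∀ g ∈ S, ∀ g' ∈ S, f g = f g' → Ell (v : V) (ι (g⁻¹ * g')) := by
    intro v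
    obtain ⟨f, f1, f2⟩ := (hD v (hfin.mem_toFinset.1 v.2)).1 S r hS
    refine ⟨f, fun g hg => ?_, f2⟩
    have := f1 g hg
    have : Dv v ≤ I.sup Dv := Finset.le_sup v.2
    omega
  choose f f1 f2 using h3
  have := Finset.card_le_card_of_injOn (s := S)
    (t := Fintype.piFinset (fun _ : I => Finset.range (4 * (r + I.sup Dv))))
    (fun g v => f v g) (by
      intro g hg
      simp only [Finset.mem_coe, Fintype.mem_piFinset, Finset.mem_range]
      exact fun v => f1 v g hg) (by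
      intro g hg g' hg' e
      obtain ⟨T, hT⟩ := exists_supp (ι (g⁻¹ * g'))
      have := eq_one_of_ell T _ hT (fun v => by
        by_cases hv : v ∈ Sg
        · exact f2 ⟨v, hfin.mem_toFinset.2 hv⟩ g hg g' hg' (congrFun e _)
        · by_contra hn
          exact hv ⟨_, hn⟩)
      rw [← _root_.map_one ι] at this
      exact inv_mul_eq_one.1 (hι this))
  simpa using this

end Pool.Agent.H337Z
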