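import Pool.Agent.H985Z.SC.Spec

set_option autoImplicit false

namespace Pool.Agent.H337Z.ScN

open Pool.Agent.H985Z.SC Real Set Filter Topology

theorem mono {a : Fin 3 → ℝ} (h1 : a 0 < a 1) (h2 : a 1 < a 2) (h3 : a 2 < a 0 + 2 * π)
    {i i' : Fin 3} {n n' : ℤ} (h : ((i : ℕ) : ℤ) + 3 * n < (i' : ℕ) + 3 * n') :
    a i + 2 * π * n < a i' + 2 * π * n' := by
  have hi := i.2
  have hi' := i'.2
  rcases lt_trichotomy n n' with e | rfl | e
  · have e1 : (n : ℝ) + 1 ≤ n' := by exact_mod_cast e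
    have e2 := mul_le_mul_of_nonneg_left e1 two_pi_pos.le
    have e3 : a i < a i' + 2 * π := by
      fin_cases i <;> fin_cases i' <;> simp <;> linarith [pi_pos]
    linarith
  · have : a i < a i' := by
      fin_cases i <;> fin_cases i' <;> simp at h ⊢ <;> linarith
    linarith
  · omega

theorem mono' {a : Fin 3 → ℝ} (h1 : a 0 < a 1) (h2 : a 1 < a 2) (h3 : a 2 < a 0 + 2 * π)
    {i i' : Fin 3} {n n' : ℤ} (h : a i + 2 * π * n < a i' + 2 * π * n') :
    ((i : ℕ) : ℤ) + 3 * n < (i' : ℕ) + 3 * n' := by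
  have hi := i.2
  have hi' := i'.2
  rcases lt_trichotomy (((i : ℕ) : ℤ) + 3 * n) ((i' : ℕ) + 3 * n') with e | e | e
  · exact e
  · obtain rfl : n = n' := by omega
    obtain rfl : i = i' := Fin.ext (by omega)
    exact (lt_irrefl _ h).elim
  · exact (lt_asymm h (mono h1 h2 h3 e)).elim

theorem cos_pos_ex {s : ℝ} (h : 0 < cos s) : ∃ k : ℤ, |s - 2 * π * k| < π / 2 := by
  refine ⟨toIocDiv two_pi_pos (-π) s, ?_⟩
  have h1 := sub_toIocDiv_zsmul_mem_Ioc two_pi_pos (-π) s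
  rw [zsmul_eq_mul] at h1
  rw [← cos_sub_int_mul_two_pi s (toIocDiv two_pi_pos (-π) s), ← cos_abs] at h
  rw [mul_comm]
  by_contra hn
  refine absurd h (not_lt.2 (cos_nonpos_of_pi_div_two_le_of_le (not_lt.1 hn) ?_))
  rw [abs_le]
  constructor <;> linarith [h1.1, h1.2, pi_pos]

theorem polar {R φ p q : ℝ} (hR : 0 < R) (h : R * cos φ * q - R * sin φ * p < 0) :
    ∃ R' φ' : ℝ, 0 < R' ∧ φ' < φ ∧ φ < φ' + π ∧ p = R' * cos φ' ∧ q = R' * sin φ' := by
  let z : ℂ := ⟨p * cos φ + q * sin φ, p * sin φ - q * cos φ⟩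
  have hz : 0 < z.im := by
    show 0 < p * sin φ - q * cos φ
    by_contra hn
    nlinarith [mul_nonneg hR.le (neg_nonneg.2 (not_lt.1 hn))]
  have h1 : ‖z‖ * cos z.arg = p * cos φ + q * sin φ := Complex.norm_mul_cos_arg z
  have h2 : ‖z‖ * sin z.arg = p * sin φ - q * cos φ := Complex.norm_mul_sin_arg z
  have h3 : 0 < z.arg := (Complex.arg_nonneg_iff.2 hz.le).lt_of_ne (fun e => by
    rw [← e, sin_zero, mul_zero] at h2
    exact hz.ne h2)
  have h4 : z.arg < π := Complex.arg_lt_pi_iff.2 (Or.inr hz.ne')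
  have h5 := cos_sq_add_sin_sq φ
  refine ⟨‖z‖, φ - z.arg, norm_pos_iff.2 (fun e => hz.ne' (by rw [e]; rfl)), by linarith,
    by linarith, ?_, ?_⟩
  · rw [cos_sub]; linear_combination (-cos φ) * h1 - sin φ * h2 - p * h5
  · rw [sin_sub]; linear_combination (-sin φ) * h1 + cos φ * h2 - q * h5

theorem angles (N : Fin 3 → Fin 3 → ℝ) (hN : ∀ i, N i 0 + N i 1 + N i 2 = 1)
    (hd : Matrix.det (Matrix.of N) < 0) :
    ∃ φ : Fin 3 → ℝ, φ 1 < φ 0 ∧ φ 2 < φ 1 ∧ φ 0 < φ 2 + 2 * π ∧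
      ∀ j t, |t - φ j| < π / 2 → 0 < ∑ i : Fin 3, cos (t - 2 * π / 3 * (i : ℕ)) * N i j := by
  let p : Fin 3 → ℝ := fun j => N 0 j - (N 1 j + N 2 j) / 2
  let q : Fin 3 → ℝ := fun j => √3 / 2 * (N 1 j - N 2 j)
  have c1 : cos (2 * π / 3) = -(1 / 2) := by
    rw [show 2 * π / 3 = π - π / 3 by ring, cos_pi_sub, cos_pi_div_three]
  have s1 : sin (2 * π / 3) = √3 / 2 := by
    rw [show 2 * π / 3 = π - π / 3 by ring, sin_pi_sub, sin_pi_div_three]
  have c2 : cos (2 * π / 3 * 2) = -(1 / 2) := by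
    rw [show 2 * π / 3 * 2 = π / 3 + π by ring, cos_add_pi, cos_pi_div_three]
  have s2 : sin (2 * π / 3 * 2) = -(√3 / 2) := by
    rw [show 2 * π / 3 * 2 = π / 3 + π by ring, sin_add_pi, sin_pi_div_three]
  have e : ∀ j t, ∑ i : Fin 3, cos (t - 2 * π / 3 * (i : ℕ)) * N i j = p j * cos t + q j * sin t := by
    intro j t
    simp only [Fin.sum_univ_three, cos_sub, Fin.val_zero, Fin.val_one, Fin.val_two, Nat.cast_zero,
      Nat.cast_one, Nat.cast_ofNat, mul_zero, mul_one, cos_zero, sin_zero, c1, s1, c2, s2, p, q]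
    ring
  have h3 : (0 : ℝ) < √3 / 2 := by positivity
  have hd' := mul_neg_of_pos_of_neg h3 hd
  rw [Matrix.det_fin_three] at hd'
  simp only [Matrix.of_apply] at hd'
  have a0 : N 0 2 = 1 - N 0 0 - N 0 1 := by linarith [hN 0]
  have a1 : N 1 2 = 1 - N 1 0 - N 1 1 := by linarith [hN 1]
  have a2 : N 2 2 = 1 - N 2 0 - N 2 1 := by linarith [hN 2]
  have x1 : p 0 * q 1 - q 0 * p 1 < 0 := by
    refine lt_of_eq_of_lt ?_ hd'
    simp only [p, q, a0, a1, a2]; ring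
  have x2 : p 1 * q 2 - q 1 * p 2 < 0 := by
    refine lt_of_eq_of_lt ?_ hd'
    simp only [p, q, a0, a1, a2]; ring
  let z : ℂ := ⟨p 0, q 0⟩
  have h1 : ‖z‖ * cos z.arg = p 0 := Complex.norm_mul_cos_arg z
  have h2 : ‖z‖ * sin z.arg = q 0 := Complex.norm_mul_sin_arg z
  have h0 : 0 < ‖z‖ := (norm_nonneg z).lt_of_ne (fun e => by
    rw [← e, zero_mul] at h1 h2
    rw [← h1, ← h2] at x1
    simp at x1)
  obtain ⟨R1, φ1, b1, b2, b3, b4, b5⟩ := polar h0 (by rw [h1, h2]; exact x1)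
  obtain ⟨R2, φ2, d1, d2, d3, d4, d5⟩ := polar b1 (by rw [← b4, ← b5]; exact x2)
  have k : ∀ (R φ t : ℝ), 0 < R → |t - φ| < π / 2 → 0 < R * cos φ * cos t + R * sin φ * sin t := by
    intro R φ t hR ht
    have := cos_pos_of_mem_Ioo (abs_lt.1 ht)
    rw [cos_sub] at this
    nlinarith [mul_pos hR this]
  refine ⟨![z.arg, φ1, φ2], b2, d2, by show z.arg < φ2 + 2 * π; linarith, fun j t ht => ?_⟩
  rw [e]
  fin_cases j
  · exact h1 ▸ h2 ▸ k _ _ _ h0 ht
  · exact b4 ▸ b5 ▸ k _ _ _ b1 ht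
  · exact d4 ▸ d5 ▸ k _ _ _ d1 ht

theorem lemN (hT : S_T) : S_N := by
  intro X _ A x y T u hu hnod
  obtain ⟨T1, T2, T3⟩ := hT X A
  by_contra hd
  rw [not_le] at hd
  let ρ : Fin 3 → ℝ := fun i => u i (y 0) + u i (y 1) + u i (y 2)
  have hρ : ∀ i, 0 < ρ i := fun i => by
    have h0 := hu i 0
    have h1 := hu i 1
    have h2 := hu i 2
    by_contra hn
    have hn' : u i (y 0) + u i (y 1) + u i (y 2) ≤ 0 := not_lt.1 hn
    refine hd.ne (Matrix.det_eq_zero_of_row_eq_zero i (fun j => ?_))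
    fin_cases j <;> simp <;> linarith
  obtain ⟨φ, f1, f2, f3, hφ⟩ := angles (fun i j => (ρ i)⁻¹ * u i (y j))
    (fun i => by rw [← mul_add, ← mul_add]; exact inv_mul_cancel₀ (hρ i).ne') (by
      have := Matrix.det_mul_column (fun i => (ρ i)⁻¹) (Matrix.of fun i j => u i (y j))
      exact this.trans_lt (mul_neg_of_pos_of_neg (Finset.prod_pos fun i _ => inv_pos.2 (hρ i)) hd))
  let α : ℝ → Fin 3 → ℝ := fun t i => cos (t - 2 * π / 3 * (i : ℕ)) * (ρ i)⁻¹
  let F : ℝ → X → ℝ := fun t p => ∑ i, α t i * u i p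
  have hF : ∀ t p, F (t - π) p = - F t p := fun t p => by
    simp only [F, α, ← Finset.sum_neg_distrib]
    refine Finset.sum_congr rfl (fun i _ => ?_)
    rw [sub_right_comm, cos_sub_pi]; ring
  have hsum : ∀ t, F t (y 0) + F t (y 1) + F t (y 2) = 0 := fun t => by
    have e : ∀ i, α t i * u i (y 0) + α t i * u i (y 1) + α t i * u i (y 2) =
        cos (t - 2 * π / 3 * (i : ℕ)) := fun i => by
      rw [← mul_add, ← mul_add, mul_assoc, inv_mul_cancel₀ (hρ i).ne', mul_one]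
    simp only [F, ← Finset.sum_add_distrib, e]
    simp only [Fin.sum_univ_three, Fin.val_zero, Fin.val_one,
      Fin.val_two, Nat.cast_zero, Nat.cast_one, Nat.cast_ofNat, mul_zero, mul_one, sub_zero]
    rw [show t - 2 * π / 3 = (t + π / 3) - π by ring, show t - 2 * π / 3 * 2 = (t - π / 3) - π by ring,
      cos_sub_pi, cos_sub_pi, cos_add, cos_sub, cos_pi_div_three]
    ring
  let S : Fin 3 → ℤ → Set ℝ := fun j c => {t | ∃ (i : Fin 3) (n : ℤ),
    Lk A.d {p | 0 < F t p} (x i) (T.a i + 2 * π * n) (y j) (T.b j) ∧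
      |t - 2 * π / 3 * ((((i : ℕ) : ℤ) + 3 * (n - c) : ℤ) : ℝ)| < π / 2}
  have s1 : ∀ j c, IsOpen (S j c) := by
    intro j c
    rw [isOpen_iff_eventually]
    rintro t ⟨i, n, ⟨γ, θ, g1, g2⟩, h⟩
    have e1 : ∀ᶠ t' in 𝓝 t, ∀ s ∈ (univ : Set unitInterval), 0 < F t' (γ s) :=
      isCompact_univ.eventually_forall_of_forall_eventually (fun s _ => by
        have : Continuous (fun z : ℝ × unitInterval => F z.1 (γ z.2)) := by
          simp only [F, α]; fun_prop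
        exact this.continuousAt.eventually (lt_mem_nhds (g1 s)))
    have e2 : Continuous (fun t : ℝ =>
      |t - 2 * π / 3 * ((((i : ℕ) : ℤ) + 3 * (n - c) : ℤ) : ℝ)|) := by fun_prop
    filter_upwards [e1, e2.continuousAt.eventually (gt_mem_nhds h)] with t' k1 k2
    exact ⟨i, n, ⟨γ, θ, fun s => k1 s (mem_univ s), g2⟩, k2⟩
  have s2 : ∀ j t, 0 < F t (y j) → ∃ c, t ∈ S j c := by
    intro j t h
    obtain ⟨i, h1, h2⟩ := hnod (α t) j h
    obtain ⟨k, hk⟩ := cos_pos_ex ((mul_pos_iff_of_pos_right (inv_pos.2 (hρ i))).1 h1)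
    obtain ⟨n, hn⟩ := T2 _ _ _ _ _ h2 (T.ha i) (T.hb j)
    refine ⟨n - k, i, n, hn, ?_⟩
    convert hk using 2
    push_cast; ring
  have s3 : ∀ j c m c' t, t ∈ S j c → t - π ∈ S m c' →
      3 * (c - c') < ((j : ℕ) : ℤ) - (m : ℕ) ∧ ((j : ℕ) : ℤ) - (m : ℕ) < 3 * (c - c') + 3 := by
    rintro j c m c' t ⟨i, n, l1, h1⟩ ⟨i', n', l2, h2⟩
    have hdis : Disjoint {p | 0 < F t p} {p | 0 < F (t - π) p} :=
      disjoint_left.2 (fun p a b => by
        have a' : 0 < F t p := a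
        have b' : 0 < F (t - π) p := b
        rw [hF] at b'; linarith)
    rw [abs_lt] at h1 h2
    generalize hl : ((i : ℕ) : ℤ) + 3 * (n - c) = l at h1
    generalize hl' : ((i' : ℕ) : ℤ) + 3 * (n' - c') = l' at h2
    have k1 : l' < l := by
      have : (l' : ℝ) < l := by nlinarith [h1.1, h1.2, h2.1, h2.2, pi_pos]
      exact_mod_cast this
    have k2 : l < l' + 3 := by
      have : (l : ℝ) < l' + 3 := by nlinarith [h1.1, h1.2, h2.1, h2.2, pi_pos]
      exact_mod_cast this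
    have sh : ∀ (a : ℝ) (n k : ℤ), a + 2 * π * n + 2 * π * k = a + 2 * π * (n + k : ℤ) := by
      intro a n k; push_cast; ring
    have m1 := T1 _ _ _ _ _ _ _ _ _ _ hdis.symm (T.hx _) (T.hx _) (T.hy _) (T.hy _)
      (T3 _ _ _ _ _ (-c') l2) (T3 _ _ _ _ _ (-c) l1) (by
        rw [sh, sh]; exact mono T.a01 T.a12 T.a20 (by omega))
    have m2 := T1 _ _ _ _ _ _ _ _ _ _ hdis (T.hx _) (T.hx _) (T.hy _) (T.hy _)
      (T3 _ _ _ _ _ (-c) l1) (T3 _ _ _ _ _ (1 - c') l2) (by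
        rw [sh, sh]; exact mono T.a01 T.a12 T.a20 (by omega))
    have := mono' T.b01 T.b12 T.b20 m1
    have := mono' T.b01 T.b12 T.b20 m2
    omega
  have s4 : ∀ j c c' t, t ∈ S j c → t ∈ S j c' → c = c' := by
    intro j c c' t h h'
    have h0 : 0 < F t (y j) := by
      obtain ⟨i, n, ⟨γ, θ, g1, -⟩, -⟩ := h
      simpa using g1 1
    have : ∃ m, F t (y m) < 0 := by
      by_contra hn
      push Not at hn
      have := hsum t
      have := hn 0
      have := hn 1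
      have := hn 2
      fin_cases j <;> simp at h0 <;> linarith
    obtain ⟨m, hm⟩ := this
    obtain ⟨c'', h''⟩ := s2 m (t - π) (by rw [hF]; linarith)
    have := s3 _ _ _ _ _ h h''
    have := s3 _ _ _ _ _ h' h''
    omega
  have s5 : ∀ j, ∃ c, Ioo (φ j - π / 2) (φ j + π / 2) ⊆ S j c := by
    intro j
    have h0 : ∀ t ∈ Ioo (φ j - π / 2) (φ j + π / 2), ∃ c, t ∈ S j c := fun t ht =>
      s2 j t (by
        have := hφ j t (abs_lt.2 ⟨by linarith [ht.1], by linarith [ht.2]⟩)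
        simpa only [F, α, mul_assoc] using this)
    have hm : φ j ∈ Ioo (φ j - π / 2) (φ j + π / 2) := ⟨by linarith [pi_pos], by linarith [pi_pos]⟩
    obtain ⟨c, hc⟩ := h0 _ hm
    refine ⟨c, isPreconnected_Ioo.subset_left_of_subset_union (s1 j c)
      (isOpen_biUnion (s := {c' | c' ≠ c}) fun c' _ => s1 j c') (disjoint_left.2 (fun t a b => ?_))
      (fun t ht => ?_) ⟨_, hm, hc⟩⟩
    · obtain ⟨c', h1, h2⟩ := mem_iUnion₂.1 b
      exact h1 (s4 _ _ _ _ h2 a)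
    · obtain ⟨c', h1⟩ := h0 t ht
      by_cases e : c' = c
      · exact Or.inl (e ▸ h1)
      · exact Or.inr (mem_iUnion₂.2 ⟨c', e, h1⟩)
  choose c hc using s5
  have s6 : ∀ j m, φ m < φ j → φ j < φ m + 2 * π →
      3 * (c j - c m) < ((j : ℕ) : ℤ) - (m : ℕ) ∧ ((j : ℕ) : ℤ) - (m : ℕ) < 3 * (c j - c m) + 3 :=
    fun j m h1 h2 => s3 _ _ _ _ ((φ j + φ m + π) / 2) (hc j ⟨by linarith, by linarith⟩)
      (hc m ⟨by linarith, by linarith⟩)
  have k1 := s6 0 1 f1 (by linarith)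
  have k2 := s6 1 2 f2 (by linarith)
  have k3 := s6 0 2 (by linarith) f3
  simp only [Fin.val_zero, Fin.val_one, Fin.val_two] at k1 k2 k3
  omega

end Pool.Agent.H337Z.ScN
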