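import Pool.Agent.H337Z.Mean

/-! Trees as nested wall systems and amenable actions on them. -/

set_option autoImplicit false
open Classical Pointwise

namespace Pool.Agent.H337Z

structure Walls (X : Type*) where
  W : Set (Set X)
  Adj : X → X → Prop
  compl : ∀ h ∈ W, hᶜ ∈ W
  nested : ∀ h ∈ W, ∀ k ∈ W, h ⊆ k ∨ k ⊆ h ∨ Disjoint h k ∨ Disjoint hᶜ kᶜ
  fin : ∀ x y, {h | h ∈ W ∧ x ∉ h ∧ y ∈ h}.Finite
  edge : ∀ h ∈ W, ∃ x' x, Adj x' x ∧ x' ∉ h ∧ x ∈ h ∧ ∀ k ∈ W, x' ∉ k → x ∈ k → k = h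
  sepp : ∀ x y, x ≠ y → ∃ h ∈ W, x ∉ h ∧ y ∈ h

namespace Walls
variable {X : Type*} (T : Walls X)

def sep (x y : X) : Set (Set X) := {h | h ∈ T.W ∧ x ∉ h ∧ y ∈ h}

noncomputable def d (x y : X) : ℕ := (T.sep x y).ncard

theorem corner {h k : Set X} (hh : h ∈ T.W) (hk : k ∈ T.W) {a b c e : X} (a1 : a ∈ h) (a2 : a ∈ k)
    (b1 : b ∈ h) (b2 : b ∉ k) (c1 : c ∉ h) (c2 : c ∈ k) (e1 : e ∉ h) (e2 : e ∉ k) : False := by
  rcases T.nested h hh k hk with H | H | H | H
  · exact b2 (H b1)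
  · exact c1 (H c2)
  · exact Set.disjoint_left.1 H a1 a2
  · exact Set.disjoint_left.1 H e1 e2

theorem chain {h k : Set X} (hh : h ∈ T.W) (hk : k ∈ T.W) {a e : X} (a1 : a ∈ h) (a2 : a ∈ k)
    (e1 : e ∉ h) (e2 : e ∉ k) : h ⊆ k ∨ k ⊆ h := by
  rcases T.nested h hh k hk with H | H | H | H
  · exact Or.inl H
  · exact Or.inr H
  · exact (Set.disjoint_left.1 H a1 a2).elim
  · exact (Set.disjoint_left.1 H e1 e2).elim

def IsEdge (h : Set X) (x' x : X) : Prop := x' ∉ h ∧ x ∈ h ∧ ∀ k ∈ T.W, x' ∉ k → x ∈ k → k = h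

theorem IsEdge.rev {T : Walls X} {h : Set X} {x' x : X} (H : T.IsEdge h x' x) :
    T.IsEdge hᶜ x x' := by
  refine ⟨fun h1 => h1 H.2.1, H.1, fun k hk h1 h2 => ?_⟩
  rw [← H.2.2 kᶜ (T.compl k hk) (fun h3 => h3 h2) h1, compl_compl]

theorem edge_unique1 {h : Set X} (hh : h ∈ T.W) {a' a b' b : X} (H1 : T.IsEdge h a' a)
    (H2 : T.IsEdge h b' b) : a = b := by
  by_contra hne
  obtain ⟨k, hk, h1, h2⟩ := T.sepp a b hne
  have h3 : a' ∉ k := fun h3 => by
    have := H1.rev.2.2 k hk h1 h3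
    rw [this] at h2
    exact h2 H2.2.1
  have h4 : b' ∈ k := by
    by_contra h4
    have := H2.2.2 k hk h4 h2
    rw [this] at h1
    exact h1 H1.2.1
  exact T.corner hh hk H2.2.1 h2 H1.2.1 h1 H2.1 h4 H1.1 h3

theorem edge_unique {h : Set X} (hh : h ∈ T.W) {a' a b' b : X} (H1 : T.IsEdge h a' a)
    (H2 : T.IsEdge h b' b) : a' = b' ∧ a = b :=
  ⟨T.edge_unique1 (T.compl h hh) H1.rev H2.rev, T.edge_unique1 hh H1 H2⟩

theorem d_symm (x y : X) : T.d x y = T.d y x := by
  have : T.sep y x = (fun h => hᶜ) '' T.sep x y := by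
    ext h
    constructor
    · rintro ⟨h1, h2, h3⟩
      exact ⟨hᶜ, ⟨T.compl h h1, fun h4 => h4 h3, h2⟩, compl_compl h⟩
    · rintro ⟨k, ⟨h1, h2, h3⟩, rfl⟩
      exact ⟨T.compl k h1, fun h4 => h4 h3, h2⟩
  unfold d
  rw [this, Set.ncard_image_of_injective _ compl_injective]

def up (x : X) (h : Set X) : Set (Set X) := {k | k ∈ T.W ∧ h ⊆ k ∧ x ∉ k}

noncomputable def depth (x : X) (h : Set X) : ℕ := (T.up x h).ncard

theorem up_fin (x : X) {h : Set X} (hh : h ∈ T.W) : (T.up x h).Finite := by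
  obtain ⟨-, y, -, -, hy, -⟩ := T.edge h hh
  exact (T.fin x y).subset (fun k hk => ⟨hk.1, hk.2.2, hk.2.1 hy⟩)

theorem depth_lt {x : X} {h k : Set X} (hh : h ∈ T.W) (hx : x ∉ k) (hs : h ⊆ k) (hne : h ≠ k) :
    T.depth x k < T.depth x h := by
  refine Set.ncard_lt_ncard ⟨fun j hj => ⟨hj.1, hs.trans hj.2.1, hj.2.2⟩, fun H => ?_⟩
    (T.up_fin x hh)
  have : h ∈ T.up x k := H ⟨hh, subset_rfl, fun h1 => hx (hs h1)⟩
  exact hne (hs.antisymm this.2.1)

theorem depth_inj {x : X} {h k : Set X} (hh : h ∈ T.W) (hk : k ∈ T.W) (hx : x ∉ h) (hx' : x ∉ k)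
    (hs : h ⊆ k ∨ k ⊆ h) (he : T.depth x h = T.depth x k) : h = k := by
  by_contra hne
  rcases hs with H | H
  · have := T.depth_lt hh hx' H hne; omega
  · have := T.depth_lt hk hx H (Ne.symm hne); omega

theorem depth_le1 (x y : X) {h : Set X} (hh : h ∈ T.W) : T.depth x h ≤ T.depth y h + T.d x y := by
  refine le_trans (Set.ncard_le_ncard (t := T.up y h ∪ T.sep x y) ?_
    ((T.up_fin y hh).union (T.fin x y))) (Set.ncard_union_le _ _)
  intro k hk
  by_cases h1 : y ∈ k
  · exact Or.inr ⟨hk.1, hk.2.2, h1⟩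
  · exact Or.inl ⟨hk.1, hk.2.1, h1⟩

theorem depth_le2 (x y : X) {h : Set X} (hy : y ∈ h) : T.depth x h ≤ T.d x y :=
  Set.ncard_le_ncard (fun _ hk => ⟨hk.1, hk.2.2, hk.2.1 hy⟩) (T.fin x y)

noncomputable def dp (x : X) (h : Set X) : ℕ := if x ∈ h then T.depth x hᶜ else T.depth x h

theorem dp_le (x y : X) {h : Set X} (hh : h ∈ T.W) : T.dp x h ≤ T.dp y h + T.d x y := by
  unfold dp
  by_cases hx : x ∈ h <;> by_cases hy : y ∈ h <;> simp only [hx, hy, if_true, if_false]
  · exact T.depth_le1 x y (T.compl h hh)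
  · have := T.depth_le2 x y (h := hᶜ) hy; omega
  · have := T.depth_le2 x y hy; omega
  · exact T.depth_le1 x y hh

variable {R : Type*} [Group R] [MulAction R X]

def Inv (T : Walls X) (R : Type*) [Group R] [MulAction R X] : Prop :=
  ∀ (g : R) h, h ∈ T.W → g • h ∈ T.W

variable {T}

theorem IsEdge.smul (hI : T.Inv R) {h : Set X} {x' x : X} (H : T.IsEdge h x' x) (g : R) :
    T.IsEdge (g • h) (g • x') (g • x) := by
  refine ⟨fun h1 => H.1 (Set.smul_mem_smul_set_iff.1 h1), Set.smul_mem_smul_set_iff.2 H.2.1,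
    fun k hk h1 h2 => ?_⟩
  have := H.2.2 (g⁻¹ • k) (hI _ _ hk)
    (fun h3 => h1 (by rwa [Set.mem_smul_set_iff_inv_smul_mem, inv_inv] at h3))
    (by rwa [Set.mem_smul_set_iff_inv_smul_mem, inv_inv])
  rw [← this, smul_inv_smul]

theorem stab (hI : T.Inv R) {h : Set X} (hh : h ∈ T.W) {g : R} (hg : g • h = h) :
    ∃ x' x, T.Adj x' x ∧ g • x' = x' ∧ g • x = x := by
  obtain ⟨x', x, ha, h1, h2, h3⟩ := T.edge h hh
  have H : T.IsEdge h x' x := ⟨h1, h2, h3⟩
  have H2 := H.smul hI g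
  rw [hg] at H2
  exact ⟨x', x, ha, T.edge_unique hh H2 H⟩

theorem depth_smul (hI : T.Inv R) (g : R) (x : X) (h : Set X) :
    T.depth (g • x) (g • h) = T.depth x h := by
  have : T.up (g • x) (g • h) = (fun k => g • k) '' T.up x h := by
    ext k
    constructor
    · rintro ⟨h1, h2, h3⟩
      refine ⟨g⁻¹ • k, ⟨hI _ _ h1, ?_, ?_⟩, smul_inv_smul g k⟩
      · intro y hy
        rw [Set.mem_smul_set_iff_inv_smul_mem, inv_inv]
        exact h2 (Set.smul_mem_smul_set_iff.2 hy)
      · rwa [Set.mem_smul_set_iff_inv_smul_mem, inv_inv]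
    · rintro ⟨j, ⟨h1, h2, h3⟩, rfl⟩
      exact ⟨hI _ _ h1, Set.smul_set_mono h2, fun h4 => h3 (Set.smul_mem_smul_set_iff.1 h4)⟩
  unfold depth
  rw [this, Set.ncard_image_of_injective _ (MulAction.injective g)]

theorem dp_smul (hI : T.Inv R) (g : R) (x : X) (h : Set X) :
    T.dp (g • x) (g • h) = T.dp x h := by
  unfold dp
  rw [Set.smul_mem_smul_set_iff, ← Set.smul_set_compl, depth_smul hI, depth_smul hI]

theorem three0 (m : Mean R X) (o : X) {a b c : Set X} (ha : a ∈ T.W) (hb : b ∈ T.W) (hc : c ∈ T.W)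
    (ma : m.μ a = 1 / 2) (mb : m.μ b = 1 / 2) (mc : m.μ c = 1 / 2)
    (oa : o ∉ a) (ob : o ∉ b) (oc : o ∉ c)
    (e1 : T.depth o a = T.depth o b) (e2 : T.depth o a = T.depth o c) : a = b ∨ a = c ∨ b = c := by
  by_contra hne
  push Not at hne
  have key : ∀ h k, h ∈ T.W → k ∈ T.W → o ∉ h → o ∉ k → T.depth o h = T.depth o k → h ≠ k →
      Disjoint h k := by
    intro h k hh hk oh ok e hne
    rcases T.nested h hh k hk with H | H | H | H
    · exact (hne (T.depth_inj hh hk oh ok (Or.inl H) e)).elim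
    · exact (hne (T.depth_inj hh hk oh ok (Or.inr H) e)).elim
    · exact H
    · exact (Set.disjoint_left.1 H oh ok).elim
  have := m.disj3 (key a b ha hb oa ob e1 hne.1) (key a c ha hc oa oc e2 hne.2.1)
    (key b c hb hc ob oc (e1.symm.trans e2) hne.2.2)
  linarith

theorem three (m : Mean R X) (o : X) {a b c : Set X} (ha : a ∈ T.W) (hb : b ∈ T.W) (hc : c ∈ T.W)
    (ma : m.μ a = 1 / 2) (mb : m.μ b = 1 / 2) (mc : m.μ c = 1 / 2)
    (ob : o ∈ a ↔ o ∈ b) (oc : o ∈ a ↔ o ∈ c)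
    (e1 : T.dp o a = T.dp o b) (e2 : T.dp o a = T.dp o c) : a = b ∨ a = c ∨ b = c := by
  unfold dp at e1 e2
  by_cases oa : o ∈ a
  · have hb' := ob.1 oa
    have hc' := oc.1 oa
    simp only [oa, hb', hc', if_true] at e1 e2
    have := three0 m o (T.compl a ha) (T.compl b hb) (T.compl c hc)
      (by rw [m.compl, ma]; norm_num) (by rw [m.compl, mb]; norm_num)
      (by rw [m.compl, mc]; norm_num) (fun h => h oa) (fun h => h hb') (fun h => h hc') e1 e2
    simpa only [compl_inj_iff] using this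
  · have hb' : o ∉ b := fun h => oa (ob.2 h)
    have hc' : o ∉ c := fun h => oa (oc.2 h)
    simp only [oa, hb', hc', if_false] at e1 e2
    exact three0 m o ha hb hc ma mb mc oa hb' hc' e1 e2

theorem tree (hI : T.Inv R) (m : Mean R X) (o : X) :
    (∃ x : X, ∀ g : R, g • x = x) ∨
    ∃ D : ℕ, (∀ (S : Finset R) (r : ℕ), (∀ g ∈ S, T.d o (g • o) ≤ r) →
        ∃ h ∈ T.W, (S.image (fun g => g • h)).card ≤ 4 * (r + D + 1)) ∧
      ∀ g : R, g • o = o → ∃ h ∈ T.W, (g * g) • h = h := by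
  by_cases hB : ∃ h0 ∈ T.W, m.μ h0 = 1 / 2
  · obtain ⟨h0, hh0, m0⟩ := hB
    refine Or.inr ⟨T.dp o h0, fun S r hS => ⟨h0, hh0, ?_⟩, fun g hg => ⟨h0, hh0, ?_⟩⟩
    · have := Finset.card_le_mul_card_image_of_maps_to (s := S.image (fun g => g • h0))
        (t := (Finset.univ : Finset Bool) ×ˢ Finset.range (r + T.dp o h0 + 1))
        (f := fun h => (decide (o ∈ h), T.dp o h)) (by
          intro h hh
          obtain ⟨g, hg, rfl⟩ := Finset.mem_image.1 hh
          rw [Finset.mem_product, Finset.mem_range]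
          refine ⟨Finset.mem_univ _, ?_⟩
          have h1 := T.dp_le o (g • o) (hI g _ hh0)
          rw [dp_smul hI] at h1
          have := hS g hg
          show T.dp o (g • h0) < _
          omega) 2 (by
          intro b _
          by_contra hlt
          push Not at hlt
          obtain ⟨a, ha, b', hb, c, hc, h1, h2, h3⟩ := Finset.two_lt_card.1 hlt
          rw [Finset.mem_filter] at ha hb hc
          obtain ⟨ga, -, rfl⟩ := Finset.mem_image.1 ha.1
          obtain ⟨gb, -, rfl⟩ := Finset.mem_image.1 hb.1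
          obtain ⟨gc, -, rfl⟩ := Finset.mem_image.1 hc.1
          have e1 := ha.2.trans hb.2.symm
          have e2 := ha.2.trans hc.2.symm
          simp only [Prod.mk.injEq, decide_eq_decide] at e1 e2
          rcases three m o (hI ga _ hh0) (hI gb _ hh0) (hI gc _ hh0) (by rw [m.inv, m0])
            (by rw [m.inv, m0]) (by rw [m.inv, m0]) e1.1 e2.1 e1.2 e2.2 with h | h | h
          · exact h1 h
          · exact h2 h
          · exact h3 h)
      rw [Finset.card_product, Finset.card_univ, Fintype.card_bool, Finset.card_range] at this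
      omega
    · have k1 : ∀ h : Set X, o ∈ g • h ↔ o ∈ h := fun h => by
        conv_lhs => rw [← hg]
        exact Set.smul_mem_smul_set_iff
      have k2 : ∀ h : Set X, T.dp o (g • h) = T.dp o h := fun h => by
        conv_lhs => rw [← hg]
        exact dp_smul hI g o h
      rw [mul_smul]
      rcases three m o hh0 (hI g _ hh0) (hI g _ (hI g _ hh0)) m0 (by rw [m.inv, m0])
        (by rw [m.inv, m.inv, m0]) (k1 _).symm (by rw [k1, k1]) (k2 _).symm
        (by rw [k2, k2]) with h | h | h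
      · rw [← h, ← h]
      · exact h.symm
      · have : h0 = g • h0 := MulAction.injective g h
        rw [← this, ← this]
  · push Not at hB
    let U : Set (Set X) := {h | h ∈ T.W ∧ o ∉ h ∧ 1 / 2 < m.μ h}
    have hint : ∀ h k : Set X, 1 / 2 < m.μ h → 1 / 2 < m.μ k → ∃ a, a ∈ h ∧ a ∈ k := by
      intro h k h1 h2
      by_contra hne
      push Not at hne
      have := m.disj2 (Set.disjoint_left.2 hne)
      linarith
    have hch : ∀ h ∈ U, ∀ k ∈ U, h ⊆ k ∨ k ⊆ h := by
      intro h hh k hk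
      obtain ⟨a, a1, a2⟩ := hint h k hh.2.2 hk.2.2
      exact T.chain hh.1 hk.1 a1 a2 hh.2.1 hk.2.1
    have hinj : ∀ h ∈ U, ∀ k ∈ U, T.depth o h = T.depth o k → h = k := fun h hh k hk e =>
      T.depth_inj hh.1 hk.1 hh.2.1 hk.2.1 (hch h hh k hk) e
    by_cases hU : U.Finite
    · left
      have hx : ∃ x, ∀ k ∈ T.W, 1 / 2 < m.μ k → x ∈ k := by
        by_cases hne : U.Nonempty
        · obtain ⟨h, hh, hmax⟩ := Set.exists_max_image U (T.depth o) hU hne
          obtain ⟨x', x, -, h1, h2, h3⟩ := T.edge h hh.1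
          have H : T.IsEdge h x' x := ⟨h1, h2, h3⟩
          refine ⟨x, fun k hk mk => ?_⟩
          by_contra hx
          by_cases ok : o ∈ k
          · obtain ⟨a, a1, a2⟩ := hint h k hh.2.2 mk
            have : x' ∉ k := fun h4 => by
              have := H.rev.2.2 k hk hx h4
              rw [this] at a2
              exact a2 a1
            exact T.corner hh.1 hk a1 a2 h2 hx hh.2.1 ok h1 this
          · have hkU : k ∈ U := ⟨hk, ok, mk⟩
            rcases hch h hh k hkU with H1 | H1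
            · exact hx (H1 h2)
            · have := T.depth_lt hk hh.2.1 H1 (fun e => hx (e ▸ h2))
              have := hmax k hkU
              omega
        · refine ⟨o, fun k hk mk => ?_⟩
          by_contra ok
          exact hne ⟨k, hk, ok, mk⟩
      obtain ⟨x, hx⟩ := hx
      refine ⟨x, fun g => ?_⟩
      by_contra hne
      obtain ⟨k, hk, h1, h2⟩ := T.sepp x (g • x) (Ne.symm hne)
      have h3 : ¬ 1 / 2 < m.μ k := fun h => h1 (hx k hk h)
      have h4 : 1 / 2 < m.μ (g⁻¹ • kᶜ) := by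
        rw [m.inv, m.compl]
        have := hB k hk
        have := lt_of_le_of_ne (not_lt.1 h3) this
        linarith
      have h5 := hx _ (hI _ _ (T.compl k hk)) h4
      rw [Set.mem_smul_set_iff_inv_smul_mem, inv_inv] at h5
      exact h5 h2
    · have hU' : U.Infinite := hU
      refine Or.inr ⟨0, fun S r hS => ?_, fun g hg => ?_⟩
      · have hfin : (⋃ g ∈ (S : Set R), T.sep o (g⁻¹ • o)).Finite :=
          S.finite_toSet.biUnion (fun g _ => T.fin _ _)
        obtain ⟨h, hh, hn⟩ := hU'.exists_notMem_finite hfin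
        have hgU : ∀ g ∈ S, g • h ∈ U := by
          intro g hg
          refine ⟨hI _ _ hh.1, fun h1 => hn ?_, by rw [m.inv]; exact hh.2.2⟩
          rw [Set.mem_smul_set_iff_inv_smul_mem] at h1
          exact Set.mem_biUnion hg ⟨hh.1, hh.2.1, h1⟩
        refine ⟨h, hh.1, ?_⟩
        have := Finset.card_le_card_of_injOn (s := S.image (fun g => g • h))
          (t := Finset.Icc (T.depth o h - r) (T.depth o h + r)) (T.depth o) (by
            intro k hk
            obtain ⟨g, hg, rfl⟩ := Finset.mem_image.1 hk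
            have h1 := T.depth_le1 o (g • o) (hI g _ hh.1)
            have h2 := T.depth_le1 (g • o) o (hI g _ hh.1)
            rw [depth_smul hI] at h1 h2
            rw [T.d_symm] at h2
            have := hS g hg
            simp only [Finset.coe_Icc, Set.mem_Icc]
            omega) (by
            intro k hk j hj e
            obtain ⟨g, hg, rfl⟩ := Finset.mem_image.1 hk
            obtain ⟨g', hg', rfl⟩ := Finset.mem_image.1 hj
            exact hinj _ (hgU g hg) _ (hgU g' hg') e)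
        rw [Nat.card_Icc] at this
        omega
      · obtain ⟨h, hh⟩ := hU'.nonempty
        have hg2 : (g * g) • o = o := by rw [mul_smul, hg, hg]
        refine ⟨h, hh.1, hinj _ ⟨hI _ _ hh.1, ?_, by rw [m.inv]; exact hh.2.2⟩ _ hh ?_⟩
        · intro h1
          rw [← hg2] at h1
          exact hh.2.1 (Set.smul_mem_smul_set_iff.1 h1)
        · conv_lhs => rw [← hg2]
          exact depth_smul hI _ _ _

theorem fix_of_sq (hI : T.Inv R) (g : R)
    (noinv : ∀ x' x, T.Adj x' x → g • x' = x → g • x = x' → False) :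
    ∀ (n : ℕ) (x : X), T.d x (g • x) = n → g • g • x = x → ∃ y : X, g • y = y := by
  intro n
  induction n using Nat.strong_induction_on with
  | _ n ih =>
  intro x hn hx
  by_cases hfix : g • x = x
  · exact ⟨x, hfix⟩
  obtain ⟨h0, hh0, h01, h02⟩ := T.sepp x (g • x) (Ne.symm hfix)
  obtain ⟨h, hh, hmin⟩ := Set.exists_min_image (T.sep x (g • x)) (T.depth x) (T.fin _ _)
    ⟨h0, hh0, h01, h02⟩
  obtain ⟨x', y, ha, h1, h2, h3⟩ := T.edge h hh.1
  have H : T.IsEdge h x' y := ⟨h1, h2, h3⟩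
  have hx' : x = x' := by
    by_contra hne
    obtain ⟨k, hk, k1, k2⟩ := T.sepp x x' hne
    have k3 : y ∈ k := by
      by_contra k3
      have := H.rev.2.2 k hk k3 k2
      rw [this] at k1
      exact k1 hh.2.1
    have k4 : h ⊆ k := by
      intro z hz
      by_contra hz'
      exact T.corner hh.1 hk h2 k3 hz hz' h1 k2 hh.2.1 k1
    have := T.depth_lt hh.1 k1 k4 (fun e => h1 (e ▸ k2))
    have := hmin k ⟨hk, k1, k4 hh.2.2⟩
    omega
  subst hx'
  have hgg : (g * g) • x = x := by rw [mul_smul, hx]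
  have hh2 : (g * g) • h = h := by
    have m1 : x ∉ (g * g) • h := fun h4 => by
      rw [← hgg] at h4; exact h1 (Set.smul_mem_smul_set_iff.1 h4)
    have m2 : g • x ∈ (g * g) • h := by
      have : g • x = (g * g) • (g • x) := by rw [mul_smul, hx]
      rw [this]; exact Set.smul_mem_smul_set_iff.2 hh.2.2
    refine T.depth_inj (hI _ _ hh.1) hh.1 m1 h1 (T.chain (hI _ _ hh.1) hh.1 m2 hh.2.2 m1 h1) ?_
    conv_lhs => rw [← hgg]
    exact depth_smul hI _ _ _
  have hy : g • g • y = y := by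
    have H2 := H.smul hI (g * g)
    rw [hh2] at H2
    rw [← mul_smul]
    exact (T.edge_unique hh.1 H2 H).2
  have Hg := H.smul hI g
  have hni : g • h ≠ hᶜ := by
    intro e
    rw [e] at Hg
    obtain ⟨e1, e2⟩ := T.edge_unique (T.compl h hh.1) Hg H.rev
    exact noinv x y ha e1 e2
  have hgy : g • y ∈ h := by
    by_contra h4
    exact hni (Hg.2.2 hᶜ (T.compl h hh.1) (fun h5 => h5 hh.2.2) h4).symm
  refine ih (T.d y (g • y)) ?_ y rfl hy
  rw [← hn]
  refine Set.ncard_lt_ncard ⟨fun k hk => ⟨hk.1, fun h4 => ?_, ?_⟩, fun H1 => ?_⟩ (T.fin _ _)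
  · have := H.rev.2.2 k hk.1 hk.2.1 h4
    have h5 := hk.2.2
    rw [this] at h5
    exact h5 hgy
  · by_contra h4
    have e := Hg.2.2 k hk.1 h4 hk.2.2
    have h5 : x ∈ k := by
      rw [e, ← hx]; exact Set.smul_mem_smul_set_iff.2 hh.2.2
    have := H.rev.2.2 k hk.1 hk.2.1 h5
    exact hni (e.symm.trans this)
  · exact (H1 hh).2.1 h2

end Walls
end Pool.Agent.H337Z
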